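import Pool.Agent.Helper55.PR.Crit
import Pool.Agent.Helper55.TT.OddC

/-!
# The twists with a section: the hypotheses of the criterion
-/

set_option autoImplicit false
set_option linter.all false

open Polynomial
open scoped Classical

namespace Pool.Agent.Helper55.PR

open Pool.Agent.TH115.GD Pool.Agent.R939.EI Pool.Agent.Helper55.TT

section alg

variable {k : Type} [Field k]

/-- the value of the quadratic form `G² + a G M + b M²` -/
noncomputable def Qf (a b G M : k[X]) : k[X] := G ^ 2 + a * G * M + b * M ^ 2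

theorem sqMod_mul_sq {π u T : k[X]} (h : SqMod π u) : SqMod π (u * T ^ 2) := by
  obtain ⟨z, w, hw⟩ := h
  exact ⟨z * T, w * T ^ 2, by linear_combination T ^ 2 * hw⟩

theorem sqMod_congr {π u v : k[X]} (h : π ∣ u - v) (hu : SqMod π u) : SqMod π v := by
  obtain ⟨z, hz⟩ := hu
  refine ⟨z, ?_⟩
  have e : z ^ 2 - v = (z ^ 2 - u) + (u - v) := by ring
  rw [e]
  exact dvd_add hz h

theorem sqMod_of_mul_sq {π u T : k[X]} (hπ : Irreducible π) (hT : ¬ π ∣ T)
    (h : SqMod π (u * T ^ 2)) : SqMod π u := by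
  obtain ⟨x, y, hxy⟩ := (hπ.coprime_iff_not_dvd.2 hT)
  -- `y T = 1` modulo `π`
  have h1 := sqMod_mul_sq (T := y) h
  refine sqMod_congr ?_ h1
  have e : u * T ^ 2 * y ^ 2 - u = π * (-u * x * (1 + y * T)) := by
    linear_combination (u * (1 + y * T)) * hxy
  rw [e]
  exact dvd_mul_right _ _

theorem not_sqMod {π b P : k[X]} (hπ : Irreducible π) (hind : IndepAt π P) (hbP : b ∣ P)
    (hb : b ≠ 0) (hns : ¬ IsSquare b) (hπb : ¬ π ∣ b) : ¬ SqMod π b := by
  intro hsq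
  obtain ⟨r, S, T, hr, hS, hSs, hT0, hdec⟩ := sq_dec _ b rfl hb
  have hπT : ¬ π ∣ T := by
    intro h
    apply hπb
    rw [hdec]
    exact (h.trans (dvd_pow_self T two_ne_zero)).mul_left _
  have hπS : ¬ π ∣ S := by
    intro h
    apply hπb
    rw [hdec]
    exact (h.mul_left _).mul_right _
  rw [hdec] at hsq
  obtain ⟨hS1, w, hw⟩ := hind r S hr hS hSs
    (Dvd.dvd.trans (by rw [hdec]; exact (dvd_mul_left _ _).mul_right _) hbP) hπS
    (sqMod_of_mul_sq hπ hπT hsq)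
  apply hns
  refine ⟨C w * T, ?_⟩
  rw [hdec, hS1, hw, C_mul]
  ring

/-- the relation modulo `G` -/
theorem rel_of_indep {a b G M P : k[X]} (hP : P ≠ 0) (hbP : b ∣ P) (hb : b ≠ 0) (hM : M ≠ 0)
    (hG : Irreducible G) (hQ : Irreducible (Qf a b G M)) (hGP : ¬ G ∣ P) (hGM : ¬ G ∣ M)
    (hind : IndepAt G (P * M)) :
    IndepRel G (P * (G * M * Qf a b G M)) (b * Qf a b G M) := by
  set Q := Qf a b G M with hQdef
  have hGb : ¬ G ∣ b := fun h => hGP (h.trans hbP)
  have hQ0 : Q ≠ 0 := hQ.ne_zero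
  have hQG : G ∣ Q - b * M ^ 2 := ⟨G + a * M, by rw [hQdef, Qf]; ring⟩
  have hGQ : ¬ G ∣ Q := by
    intro h
    have h1 : G ∣ b * M ^ 2 := by
      have h2 := dvd_sub h hQG
      rwa [sub_sub_cancel] at h2
    rcases hG.prime.dvd_or_dvd h1 with h2 | h2
    · exact hGb h2
    · exact hGM (hG.prime.dvd_of_dvd_pow h2)
  intro u S hu hS hSs hSd hGS hsq
  have hcop : IsCoprime S G := (hG.coprime_iff_not_dvd.2 hGS).symm
  have hSd' : S ∣ (P * M) * Q := by
    have h1 : S ∣ G * (P * M * Q) := by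
      have e : G * (P * M * Q) = P * (G * M * Q) := by ring
      rw [e]
      exact hSd
    exact hcop.dvd_of_dvd_mul_left h1
  by_cases hQS : Q ∣ S
  · right
    obtain ⟨S1, hS1⟩ := hQS
    have hS1d : S1 ∣ P * M := by
      rw [hS1, mul_comm (P * M)] at hSd'
      exact (mul_dvd_mul_iff_left hQ0).1 hSd'
    have hl : Q.leadingCoeff ≠ 0 := leadingCoeff_ne_zero.2 hQ0
    set S1' : k[X] := C Q.leadingCoeff * S1 with hS1'
    have hS1e : Q * S1' = C Q.leadingCoeff * S := by rw [hS1', hS1]; ring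
    have hS10 : S1 ≠ 0 := by
      rintro rfl
      rw [mul_zero] at hS1
      exact hS.ne_zero hS1
    have hS1'0 : S1' ≠ 0 := mul_ne_zero (C_ne_zero.2 hl) hS10
    have hS1'd : S1' ∣ P * M := by
      rw [hS1']
      exact (isUnit_C.2 (isUnit_iff_ne_zero.2 hl)).mul_left_dvd.2 hS1d
    have hGS1 : ¬ G ∣ S1' := by
      intro h
      apply hGS
      have h1 : G ∣ C Q.leadingCoeff * S := by
        rw [← hS1e]
        exact h.mul_left _
      rwa [(isUnit_C.2 (isUnit_iff_ne_zero.2 hl)).dvd_mul_left] at h1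
    -- the value modulo `G`
    have h1 : SqMod G (C (u * Q.leadingCoeff⁻¹) * (S1' * b)) := by
      refine sqMod_of_mul_sq hG hGM (sqMod_congr ?_ hsq)
      obtain ⟨w, hw⟩ := hQG
      have e1 : (C u : k[X]) * S = C (u * Q.leadingCoeff⁻¹) * (Q * S1') := by
        rw [hS1e, C_mul]
        have e2 : (C Q.leadingCoeff⁻¹ : k[X]) * C Q.leadingCoeff = 1 := by
          rw [← C_mul, inv_mul_cancel₀ hl, C_1]
        linear_combination (-(C u * S)) * e2
      refine ⟨C (u * Q.leadingCoeff⁻¹) * S1' * w, ?_⟩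
      rw [e1]
      linear_combination (C (u * Q.leadingCoeff⁻¹) * S1') * hw
    obtain ⟨r, S2, T, hr, hS2, hS2s, hT0, hdec⟩ := sq_dec _ (S1' * b) rfl (mul_ne_zero hS1'0 hb)
    have hGSb : ¬ G ∣ S1' * b := fun h => (hG.prime.dvd_or_dvd h).elim hGS1 hGb
    have hGT : ¬ G ∣ T := by
      intro h
      apply hGSb
      rw [hdec]
      exact (h.trans (dvd_pow_self T two_ne_zero)).mul_left _
    have hGS2 : ¬ G ∣ S2 := by
      intro h
      apply hGSb
      rw [hdec]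
      exact (h.mul_left _).mul_right _
    have hS2d : S2 ∣ P * M := by
      refine (hS2s.dvd_pow_iff_dvd two_ne_zero).1 ?_
      have h2 : S2 ∣ S1' * b := by
        rw [hdec]
        exact (dvd_mul_left _ _).mul_right _
      rw [pow_two]
      exact h2.trans (mul_dvd_mul hS1'd (hbP.mul_right _))
    have hu' : u * Q.leadingCoeff⁻¹ * r ≠ 0 := mul_ne_zero (mul_ne_zero hu (inv_ne_zero hl)) hr
    obtain ⟨hS21, w, hw⟩ := hind (u * Q.leadingCoeff⁻¹ * r) S2 hu' hS2 hS2s hS2d hGS2 (by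
      refine sqMod_of_mul_sq hG hGT ?_
      rw [hdec] at h1
      have e : (C (u * Q.leadingCoeff⁻¹ * r) : k[X]) * S2 * T ^ 2 =
          C (u * Q.leadingCoeff⁻¹) * (C r * S2 * T ^ 2) := by
        rw [C_mul]; ring
      rw [e]
      exact h1)
    refine ⟨C w * T * Q, ?_⟩
    have e1 : (C u : k[X]) * S = C (u * Q.leadingCoeff⁻¹) * (Q * S1') := by
      rw [hS1e, C_mul]
      have e2 : (C Q.leadingCoeff⁻¹ : k[X]) * C Q.leadingCoeff = 1 := by
        rw [← C_mul, inv_mul_cancel₀ hl, C_1]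
      linear_combination (-(C u * S)) * e2
    rw [hS21] at hdec
    have e3 : (C (u * Q.leadingCoeff⁻¹ * r) : k[X]) = C w * C w := by rw [hw, C_mul]
    rw [C_mul] at e3
    rw [e1]
    linear_combination (C (u * Q.leadingCoeff⁻¹) * Q ^ 2) * hdec + T ^ 2 * Q ^ 2 * e3
  · left
    have hcopQ : IsCoprime S Q := (hQ.coprime_iff_not_dvd.2 hQS).symm
    exact hind u S hu hS hSs (hcopQ.dvd_of_dvd_mul_right hSd') hGS hsq

theorem oddFactor_one {π p : k[X]} (hπ : Irreducible π) (h : ¬ π ∣ p) (hp : p ≠ 0) :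
    OddFactor π (p * π) := by
  refine ⟨hπ, 0, ?_, ?_⟩
  · rw [mul_zero, zero_add, pow_one]
    exact dvd_mul_left _ _
  · rw [mul_zero, zero_add, pow_two]
    intro hd
    exact h ((mul_dvd_mul_iff_right hπ.ne_zero).1 hd)

/-- The hypotheses of the criterion for the twists with a section. -/
theorem hyp_of [CharZero k] {a b G M : k[X]} (hb : b ≠ 0) (hd : a ^ 2 - 4 * b ≠ 0)
    (hbns : ¬ IsSquare b) (hM : M ≠ 0)
    (hG : Irreducible G) (hQ : Irreducible (Qf a b G M)) (hGP : ¬ G ∣ b * (a ^ 2 - 4 * b))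
    (hGM : ¬ G ∣ M) (hQM : ¬ Qf a b G M ∣ M) (hQd : ¬ Qf a b G M ∣ a ^ 2 - 4 * b)
    (hQb : ¬ SqMod (Qf a b G M) b)
    (hind : IndepAt G (b * (a ^ 2 - 4 * b) * M)) :
    Hyp a b (G * M * Qf a b G M) G (Qf a b G M) (b * Qf a b G M) := by
  set Q := Qf a b G M with hQdef
  have hP0 : b * (a ^ 2 - 4 * b) ≠ 0 := mul_ne_zero hb hd
  have hGb : ¬ G ∣ b := fun h => hGP (h.mul_right _)
  have hQG : G ∣ Q - b * M ^ 2 := ⟨G + a * M, by rw [hQdef, Qf]; ring⟩
  have hGQ : ¬ G ∣ Q := by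
    intro h
    have h1 : G ∣ b * M ^ 2 := by
      have h2 := dvd_sub h hQG
      rwa [sub_sub_cancel] at h2
    rcases hG.prime.dvd_or_dvd h1 with h2 | h2
    · exact hGb h2
    · exact hGM (hG.prime.dvd_of_dvd_pow h2)
  have hQnG : ¬ Q ∣ G := by
    intro h
    exact hGQ ((hQ.associated_of_dvd hG h).symm.dvd)
  have hQnb : ¬ Q ∣ b := by
    intro h
    apply hQb
    exact ⟨0, by rw [zero_pow two_ne_zero, zero_sub, dvd_neg]; exact h⟩
  refine ⟨hb, hd, mul_ne_zero (mul_ne_zero hG.ne_zero hM) hQ.ne_zero, mul_ne_zero hb hQ.ne_zero,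
    fun ρ hρ _ => hρ.separable, ?_, ?_, hGP, ?_, oddFactor_one hQ hQnb hb, ?_, ?_, ?_, hQb⟩
  · have e : G * M * Q = (M * Q) * G := by ring
    rw [e]
    exact oddFactor_one hG (fun h => (hG.prime.dvd_or_dvd h).elim hGM hGQ)
      (mul_ne_zero hM hQ.ne_zero)
  · exact oddFactor_one hQ (fun h => (hQ.prime.dvd_or_dvd h).elim hQnG hQM)
      (mul_ne_zero hG.ne_zero hM)
  · exact fun h => (hQ.prime.dvd_or_dvd h).elim hQnb hQd
  · exact IndepAt.mono hind ((dvd_mul_left _ _).mul_right _)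
  · exact rel_of_indep hP0 (dvd_mul_right _ _) hb hM hG hQ hGP hGM hind
  · exact not_sqMod hG (IndepAt.mono hind (dvd_mul_right _ M)) (dvd_mul_right _ _) hb hbns hGb

end alg

section comp

variable {k : Type} [Field k]

theorem ndvd_comp {π p h : k[X]} (hπ : Irreducible π) (hπh : Irreducible (π.comp h))
    (hp : ¬ π ∣ p) : ¬ π.comp h ∣ p.comp h := by
  intro hdv
  have := (cop_comp (h := h) (hπ.coprime_iff_not_dvd.2 hp)).isUnit_of_dvd' dvd_rfl hdv
  exact hπh.not_isUnit this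

theorem oddFactor_comp {π p h : k[X]} (hp : p ≠ 0) (hπh : Irreducible (π.comp h))
    (hodd : OddFactor π p) : OddFactor (π.comp h) (p.comp h) := by
  obtain ⟨hπ, m, ⟨p', hp'⟩, hm2⟩ := hodd
  refine ⟨hπh, m, ?_, ?_⟩
  · rw [hp', mul_comp, pow_comp]
    exact dvd_mul_right _ _
  · intro hdv
    have h1 : ¬ π ∣ p' := by
      intro h
      apply hm2
      obtain ⟨p'', rfl⟩ := h
      exact ⟨p'', by rw [hp']; ring⟩
    have h2 := ndvd_comp hπ hπh h1
    apply h2
    rw [hp', mul_comp, pow_comp, show 2 * m + 2 = (2 * m + 1) + 1 by ring, pow_succ] at hdv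
    exact (mul_dvd_mul_iff_left (pow_ne_zero _ hπh.ne_zero)).1 hdv

theorem IndepRel.comp {π p q h : k[X]} (hπ : Irreducible π) (hp : p ≠ 0)
    (hodd : Odd h.natDegree) (hi : Inert p h) (hπp : π ∣ p) (hind : IndepRel π p q) :
    IndepRel (π.comp h) (p.comp h) (q.comp h) := by
  intro u S hu hS hSs hSd hπS hsq
  obtain ⟨A, ε, hA, hAs, hAp, hε, hSA⟩ := hi.divisor hp hodd.pos hS hSs hSd
  have hπA : ¬ π ∣ A := by
    rintro ⟨A', rfl⟩
    apply hπS
    rw [hSA, mul_comp]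
    exact ⟨C ε * A'.comp h, by ring⟩
  have h1 : SqMod π (C (u * ε) * A) := by
    refine sqMod_comp hπ (hi π hπ hπp).1 hodd ?_
    rw [mul_comp, C_comp, C_mul, mul_assoc, ← hSA]
    exact hsq
  rcases hind (u * ε) A (mul_ne_zero hu hε) hA hAs hAp hπA h1 with ⟨hA1, hsq'⟩ | ⟨s, hs⟩
  · left
    rw [hA1, one_comp, mul_one] at hSA
    rw [hSA, Monic, leadingCoeff_C] at hS
    rw [hS, mul_one] at hsq'
    exact ⟨by rw [hSA, hS, C_1], hsq'⟩
  · right
    refine ⟨s.comp h, ?_⟩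
    rw [← mul_comp, ← hs, mul_comp, mul_comp, C_comp, C_mul, hSA]
    ring

/-- the hypotheses after a substitution of odd degree -/
theorem Hyp.comp [CharZero k] {a b D π ϖ q h : k[X]} (H : Hyp a b D π ϖ q)
    (hodd : Odd h.natDegree) (hi : Inert (b * (a ^ 2 - 4 * b) * D) h) :
    Hyp (a.comp h) (b.comp h) (D.comp h) (π.comp h) (ϖ.comp h) (q.comp h) := by
  have hh := hodd.pos
  have hp0 : b * (a ^ 2 - 4 * b) * D ≠ 0 := mul_ne_zero (mul_ne_zero H.b0 H.d0) H.D0
  have hdvd : ∀ {π : k[X]}, OddFactor π D → π ∣ D := by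
    rintro π ⟨-, m, hm, -⟩
    exact (dvd_pow_self π (by omega)).trans hm
  have hπ := H.odd.1
  have hϖ := H.odd'.1
  have hπh : Irreducible (π.comp h) := (hi π hπ ((hdvd H.odd).mul_left _)).1
  have hϖh : Irreducible (ϖ.comp h) := (hi ϖ hϖ ((hdvd H.odd').mul_left _)).1
  have e3 : (a.comp h) ^ 2 - 4 * b.comp h = (a ^ 2 - 4 * b).comp h := by simp
  have hi0 : Inert (a ^ 2 - 4 * b) h := fun ρ hρ hd => hi ρ hρ ((hd.mul_left b).mul_right D)
  refine ⟨comp_ne hh H.b0, by rw [e3]; exact comp_ne hh H.d0, comp_ne hh H.D0, comp_ne hh H.q0,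
    fun ρ hρ _ => hρ.separable, oddFactor_comp H.D0 hπh H.odd, oddFactor_comp H.D0 hϖh H.odd',
    ?_, ?_, oddFactor_comp H.q0 hϖh H.ϖq, ?_, ?_, fun hs => H.bπ (sqMod_comp hπ hπh hodd hs),
    fun hs => H.bϖ (sqMod_comp hϖ hϖh hodd hs)⟩
  · rw [e3, ← mul_comp]
    exact ndvd_comp hπ hπh H.πb
  · rw [e3, ← mul_comp]
    exact ndvd_comp hϖ hϖh H.ϖb
  · rw [e3]
    intro u S hu hS hSs hSd hπS hsq
    obtain ⟨A, ε, hA, hAs, hAp, hε, hSA⟩ := hi0.divisor H.d0 hodd.pos hS hSs hSd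
    have hπA : ¬ π ∣ A := by
      rintro ⟨A', rfl⟩
      apply hπS
      rw [hSA, mul_comp]
      exact ⟨C ε * A'.comp h, by ring⟩
    have h1 : SqMod π (C (u * ε) * A) := by
      refine sqMod_comp hπ hπh hodd ?_
      rw [mul_comp, C_comp, C_mul, mul_assoc, ← hSA]
      exact hsq
    obtain ⟨hA1, hsq'⟩ := H.ind0 (u * ε) A (mul_ne_zero hu hε) hA hAs hAp hπA h1
    rw [hA1, one_comp, mul_one] at hSA
    rw [hSA, Monic, leadingCoeff_C] at hS
    rw [hS, mul_one] at hsq'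
    exact ⟨by rw [hSA, hS, C_1], hsq'⟩
  · rw [e3, ← mul_comp, ← mul_comp]
    exact IndepRel.comp hπ hp0 hodd hi ((hdvd H.odd).mul_left _) H.ind

/-- constants times squares and substitutions -/
theorem const_sq_comp {d h V : k[X]} {e : k} (hd : d ≠ 0) (hh : 0 < h.natDegree)
    (hP : ∀ ρ : k[X], Irreducible ρ → ρ ∣ d → Irreducible (ρ.comp h))
    (heV : d.comp h = C e * V ^ 2) :
    ∃ (r w : k) (T : k[X]), d = C r * T ^ 2 ∧ w ≠ 0 ∧ r = e * w ^ 2 := by
  obtain ⟨r, S, T, hr, hS, hSs, hT0, hdec⟩ := sq_dec _ d rfl hd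
  have he0 : e ≠ 0 := by
    rintro rfl
    rw [C_0, zero_mul] at heV
    exact comp_ne hh hd heV
  have hSu : S = 1 := by
    refine hS.eq_one_of_isUnit ?_
    by_contra hnu
    obtain ⟨ρ, hρ, hρS⟩ := WfDvdMonoid.exists_irreducible_factor hnu hS.ne_zero
    obtain ⟨S', rfl⟩ := hρS
    have hρd : ρ ∣ d := by
      rw [hdec]
      exact ⟨C r * S' * T ^ 2, by ring⟩
    have hρS' : ¬ ρ ∣ S' := by
      rintro ⟨S'', rfl⟩
      exact hρ.not_isUnit (hSs ρ ⟨S'', by ring⟩)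
    have hρh := hP ρ hρ hρd
    obtain ⟨m, T', hT', rfl⟩ := WfDvdMonoid.max_power_factor hT0 hρ
    have hS'h : ¬ ρ.comp h ∣ S'.comp h := ndvd_comp hρ hρh hρS'
    have hT'h : ¬ ρ.comp h ∣ T'.comp h := ndvd_comp hρ hρh hT'
    have heq : (ρ.comp h) ^ (2 * m + 1) * (C r * S'.comp h * (T'.comp h) ^ 2) = C e * V ^ 2 := by
      rw [← heV, hdec]
      simp only [mul_comp, C_comp, pow_comp]
      ring
    have hV0 : V ≠ 0 := by
      rintro rfl
      rw [zero_pow two_ne_zero, mul_zero] at heV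
      exact comp_ne hh hd heV
    obtain ⟨m', V', hV', rfl⟩ := WfDvdMonoid.max_power_factor hV0 hρh
    have hndl : ¬ ρ.comp h ∣ C r * S'.comp h * (T'.comp h) ^ 2 := by
      intro hdv
      rcases hρh.prime.dvd_or_dvd hdv with h1 | h1
      · rcases hρh.prime.dvd_or_dvd h1 with h2 | h2
        · exact hρh.not_isUnit (isUnit_of_dvd_unit h2 (isUnit_C.2 (isUnit_iff_ne_zero.2 hr)))
        · exact hS'h h2
      · exact hT'h (hρh.prime.dvd_of_dvd_pow h1)
    have hndr : ¬ ρ.comp h ∣ C e * V' ^ 2 := by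
      intro hdv
      rcases hρh.prime.dvd_or_dvd hdv with h1 | h1
      · exact hρh.not_isUnit (isUnit_of_dvd_unit h1 (isUnit_C.2 (isUnit_iff_ne_zero.2 he0)))
      · exact hV' (hρh.prime.dvd_of_dvd_pow h1)
    have heq' : (ρ.comp h) ^ (2 * m + 1) * (C r * S'.comp h * (T'.comp h) ^ 2) =
        (ρ.comp h) ^ (2 * m') * (C e * V' ^ 2) := by
      rw [heq]
      ring
    rcases lt_trichotomy (2 * m + 1) (2 * m') with hlt | heq2 | hgt
    · apply hndl
      have h1 : (ρ.comp h) ^ (2 * m') = (ρ.comp h) ^ (2 * m + 1) *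
          ((ρ.comp h) * (ρ.comp h) ^ (2 * m' - (2 * m + 1) - 1)) := by
        rw [← pow_succ', ← pow_add]
        congr 1
        omega
      rw [h1] at heq'
      have h2 := mul_left_cancel₀ (pow_ne_zero _ hρh.ne_zero) (heq'.trans (mul_assoc _ _ _))
      exact ⟨(ρ.comp h) ^ (2 * m' - (2 * m + 1) - 1) * (C e * V' ^ 2), by rw [h2]; ring⟩
    · omega
    · apply hndr
      have h1 : (ρ.comp h) ^ (2 * m + 1) = (ρ.comp h) ^ (2 * m') *
          ((ρ.comp h) * (ρ.comp h) ^ (2 * m + 1 - 2 * m' - 1)) := by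
        rw [← pow_succ', ← pow_add]
        congr 1
        omega
      rw [h1] at heq'
      have h2 := mul_left_cancel₀ (pow_ne_zero _ hρh.ne_zero)
        ((mul_assoc _ _ _).symm.trans heq')
      exact ⟨(ρ.comp h) ^ (2 * m + 1 - 2 * m' - 1) * (C r * S'.comp h * (T'.comp h) ^ 2), by
        rw [← h2]; ring⟩
  rw [hSu, mul_one] at hdec
  -- compare the leading coefficients
  have h1 : C r * (T.comp h) ^ 2 = C e * V ^ 2 := by
    rw [← heV, hdec]
    simp only [mul_comp, C_comp, pow_comp]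
  have hTh : (T.comp h).leadingCoeff ≠ 0 := leadingCoeff_ne_zero.2 (comp_ne hh hT0)
  have hV0 : V.leadingCoeff ≠ 0 := by
    rw [Ne, leadingCoeff_eq_zero]
    rintro rfl
    rw [zero_pow two_ne_zero, mul_zero] at heV
    exact comp_ne hh hd heV
  have h2 := congrArg leadingCoeff h1
  rw [leadingCoeff_mul, leadingCoeff_mul, leadingCoeff_C, leadingCoeff_C, leadingCoeff_pow,
    leadingCoeff_pow] at h2
  refine ⟨r, V.leadingCoeff / (T.comp h).leadingCoeff, T, hdec, div_ne_zero hV0 hTh, ?_⟩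
  field_simp
  linear_combination h2

end comp

end Pool.Agent.Helper55.PR
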