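import Pool.Agent.Helper55.TT.Main

/-!
# Quadratic characters which are trivial at one place, when there is one relation
-/

set_option autoImplicit false
set_option linter.all false

open Polynomial IsDedekindDomain WeierstrassCurve WeierstrassCurve.Affine
open scoped Classical

namespace Pool.Agent.Helper55.PR

open Pool.Agent.TH115.GD Pool.Agent.R939.EI Pool.Agent.Helper55.TT
open Pool.Agent.W309.TD (exists_root)

section core

variable {k k' K F : Type} [Field k] [Field k'] [Algebra k k'] [Field K] [Algebra k[X] K]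
    [Field F] [Algebra k'[X] F] [IsFractionRing k'[X] F] [Algebra K F]

/-- The nonzero constant multiples of the monic squarefree divisors of `p` which are prime to `π` and
squares modulo `π` are squares, or squares after multiplication by `q`. -/
def IndepRel {k : Type} [Field k] (π p q : k[X]) : Prop :=
  ∀ (u : k) (S : k[X]), u ≠ 0 → S.Monic → Squarefree S → S ∣ p → ¬ π ∣ S → SqMod π (C u * S) →
    (S = 1 ∧ IsSquare u) ∨ IsSquare (C u * S * q)

theorem IndepAt.mono {k : Type} [Field k] {π p p' : k[X]} (h : IndepAt π p) (hp : p' ∣ p) :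
    IndepAt π p' := fun u S hu hS hSs hSd hπS hsq => h u S hu hS hSs (hSd.trans hp) hπS hsq

/-- **Characters which are unramified outside of `p` and trivial at the decomposition group at a
place at which the divisors of `p` satisfy at most one relation.** -/
theorem char_two (hT : IsTower k k' K F) (h2 : (2 : k) ≠ 0) {p q : k[X]} (hp : p ≠ 0) (hq : q ≠ 0)
    (hsep : ∀ π : k[X], Irreducible π → π ∣ p → π.Separable) {π : k[X]} (hπ : Irreducible π)
    (hind : IndepRel π p q) {θ : k'} (hθ : aeval θ π = 0)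
    (ι : Sep F →ₐ[F] Sep (Comp k'[X] F (pl θ))) {χ : (Sep F ≃ₐ[K] Sep F) → Sep F}
    (hχ : ∀ σ, χ σ = 1 ∨ χ σ = -1) (hmul : ∀ σ τ, χ (σ * τ) = χ σ * χ τ)
    {S : Set (Sep F)} (hS : S.Finite) (hSχ : ∀ u : Sep F ≃ₐ[K] Sep F, (∀ x ∈ S, u x = x) → χ u = 1)
    (hev : ∀ (z : Sep F) (e : K), z ≠ 0 → z ^ 2 = algebraMap K (Sep F) e →
      (∀ σ : Sep F ≃ₐ[F] Sep F, σ z = χ (σ.restrictScalars K) * z) →
      ∀ v : HeightOneSpectrum k'[X], p.map (algebraMap k k') ∉ v.asIdeal →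
        par v (algebraMap K F e) = 0)
    (hI : ∀ σ : Sep F ≃ₐ[F] Sep F, InI (Comp k'[X] F (pl θ)) ι σ → χ (σ.restrictScalars K) = 1)
    (hD : ∀ g : Sep F ≃ₐ[K] Sep F, InD K (Comp k'[X] F (pl θ)) ι g → χ g = 1)
    {y₀ : Sep F} (hy₀ : y₀ ^ 2 = algebraMap K (Sep F) (algebraMap k[X] K q)) :
    (∀ g : Sep F ≃ₐ[K] Sep F, χ g = 1) ∨ ∀ g : Sep F ≃ₐ[K] Sep F, g y₀ = χ g * y₀ := by
  haveI := hT.sep
  haveI := hT.fracK
  haveI : IsSepClosed k' := IsSepClosure.sep_closed k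
  haveI : IsSepClosure K (Sep F) := sepKΩ hT.map
  haveI : Algebra.IsSeparable K (Sep F) := IsSepClosure.separable
  haveI : IsGalois K (Sep F) := inferInstance
  have h2K : (2 : K) ≠ 0 := tt h2
  have h2Ω : (2 : Sep F) ≠ 0 := by
    rw [← map_ofNat (algebraMap K (Sep F)) 2]
    exact (_root_.map_ne_zero _).2 h2K
  obtain ⟨z, e, z0, hz, hχz⟩ := exists_root (K := K) h2Ω χ hχ hmul (by
    rw [IsLocallyConstant.iff_exists_open]
    intro σ₀
    refine ⟨_, open_fix hS σ₀, fun x _ => rfl, fun σ hσ => ?_⟩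
    have h1 : χ (σ₀⁻¹ * σ) = 1 := by
      apply hSχ
      intro x hx
      rw [AlgEquiv.mul_apply, hσ x hx, ← AlgEquiv.mul_apply, inv_mul_cancel]
      rfl
    have h3 := hmul σ₀ (σ₀⁻¹ * σ)
    rw [h1, mul_one, mul_inv_cancel_left] at h3
    exact h3)
  have he0 : e ≠ 0 := by
    rintro rfl
    rw [map_zero] at hz
    exact pow_ne_zero 2 z0 hz
  obtain ⟨A, ε, h, hA1, hA2, hA3, hε, hh, he⟩ := glob0 (F := F) hT.map h2 hp hsep he0
    (hev z e z0 hz fun σ => hχz (σ.restrictScalars K))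
  have hhΩ : algebraMap K (Sep F) h ≠ 0 := (_root_.map_ne_zero _).2 hh
  set y := z / algebraMap K (Sep F) h with hy
  have hy2 : y ^ 2 = algebraMap K (Sep F) (algebraMap k[X] K (C ε * A)) := by
    rw [hy, div_pow, hz, he, map_mul, map_pow, mul_div_assoc, div_self (pow_ne_zero 2 hhΩ),
      mul_one]
  have hyχ : ∀ g, g y = χ g * y := by
    intro g
    rw [hy, map_div₀, hχz, g.commutes, mul_div_assoc]
  -- `ι y` is in the completion
  have hιy : ι y ∈ Set.range (algebraMap (Comp k'[X] F (pl θ)) (Sep (Comp k'[X] F (pl θ)))) := by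
    rw [InfiniteGalois.mem_range_algebraMap_iff_fixed]
    intro τ
    obtain ⟨σ, hσ⟩ := exists_restrict (F := F) (Ω := Sep F) (L := Comp k'[X] F (pl θ))
      (Ω' := Sep (Comp k'[X] F (pl θ))) ι τ
    rw [hσ]
    have h3 := hyχ (σ.restrictScalars K)
    rw [hI σ ⟨τ, hσ⟩, one_mul] at h3
    have h4 : (σ.restrictScalars K) y = σ y := rfl
    rw [← h4, h3]
  obtain ⟨t, ht⟩ := hιy
  have hA0 : A ≠ 0 := hA1.ne_zero
  have hCA0 : C ε * A ≠ 0 := mul_ne_zero (C_ne_zero.2 hε) hA0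
  have hnd : ¬ π ∣ A := by
    intro hd
    have hAθ : aeval θ A = 0 := (dvd_iff_aeval hπ hθ).1 hd
    have hm : rootMultiplicity θ ((C ε * A).map (algebraMap k k')) = 1 :=
      mult_one (k' := k') (squarefree_C_mul hε hA2) (by rw [map_mul, hAθ, mul_zero])
    have h3 := (wv_poly hT hCA0 θ).not.2 (by rw [hm]; decide)
    apply h3
    have h4 : algebraMap K (Comp k'[X] F (pl θ)) (algebraMap k[X] K (C ε * A)) = t ^ 2 := by
      apply inj_alg (E := Sep (Comp k'[X] F (pl θ)))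
      rw [← IsScalarTower.algebraMap_apply K (Comp k'[X] F (pl θ)), map_pow, ht, ← map_pow, hy2]
      exact ((ι.restrictScalars K).commutes _).symm
    rw [h4, map_pow, pow_two]
    exact ⟨_, rfl⟩
  have hnd' : ¬ π ∣ C ε * A := by
    intro hd
    rcases hπ.prime.dvd_or_dvd hd with h3 | h3
    · exact hπ.not_isUnit (isUnit_of_dvd_unit h3 (isUnit_C.2 (isUnit_iff_ne_zero.2 hε)))
    · exact hnd h3
  have hy0 : y ≠ 0 := div_ne_zero z0 hhΩ
  have hsq := sq_res hT h2 hπ hθ ι hnd' hy2 (fun g hg => by rw [hyχ, hD g hg, one_mul])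
  rcases hind ε A hε hA1 hA2 hA3 hnd hsq with ⟨rfl, ⟨ρ, hρ⟩⟩ | ⟨s, hs⟩
  · left
    intro g
    have hyK : y = algebraMap K (Sep F) (algebraMap k[X] K (C ρ)) ∨
        y = -algebraMap K (Sep F) (algebraMap k[X] K (C ρ)) := by
      apply sq_eq_sq_iff_eq_or_eq_neg.1
      rw [hy2, mul_one, hρ, C_mul, map_mul, map_mul, pow_two]
    have hgy : g y = y := by
      rcases hyK with h3 | h3
      · rw [h3, g.commutes]
      · rw [h3, map_neg, g.commutes]
    have h5 := hyχ g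
    rw [hgy] at h5
    apply mul_right_cancel₀ hy0
    rw [← h5, one_mul]
  · right
    intro g
    have hyK : y * y₀ = algebraMap K (Sep F) (algebraMap k[X] K s) ∨
        y * y₀ = -algebraMap K (Sep F) (algebraMap k[X] K s) := by
      apply sq_eq_sq_iff_eq_or_eq_neg.1
      rw [mul_pow, hy2, hy₀, ← map_mul, ← map_mul, hs, map_mul, map_mul, pow_two]
    have hgy : g (y * y₀) = y * y₀ := by
      rcases hyK with h3 | h3
      · rw [h3, g.commutes]
      · rw [h3, map_neg, g.commutes]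
    rw [map_mul, hyχ g] at hgy
    have h6 : χ g * χ g = 1 := by
      rcases hχ g with h | h <;> rw [h] <;> ring
    have h7 : y * (χ g * g y₀) = y * y₀ := by rw [← hgy]; ring
    have h8 := mul_left_cancel₀ hy0 h7
    calc g y₀ = (χ g * χ g) * g y₀ := by rw [h6, one_mul]
      _ = χ g * (χ g * g y₀) := by ring
      _ = χ g * y₀ := by rw [h8]

end core

section loc

variable {K F Ω L Ω' : Type} [Field K] [Field F] [Field Ω] [Field L] [Field Ω']
  [Algebra K F] [Algebra F Ω] [Algebra K Ω] [IsScalarTower K F Ω] [IsGalois F Ω]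
  [Algebra K L] [Algebra F L] [IsScalarTower K F L]
  [Algebra L Ω'] [Algebra K Ω'] [Algebra F Ω'] [IsScalarTower K L Ω'] [IsScalarTower F L Ω']
  [IsScalarTower K F Ω'] [IsGalois L Ω'] [IsSepClosed Ω] {a b : K} {α β : Ω}
  {w : Valuation L (WithZero (Multiplicative ℤ))} {ι : Ω →ₐ[F] Ω'} {r : Ω}
  (hA : AddPl w ι α β r) (hR : Roots a b Ω α β) (hN : Preserves K F Ω)

include hA hR hN

/-- A normalised class at the place. -/
theorem norm1 {δ : K} (hr2 : r ^ 2 = algebraMap K Ω δ)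
    {c : ℕ → (Ω ≃ₐ[F] Ω) → Pt (crvT a b) Ω} (hc : ∀ n, IsCoc (crvT a b) (c n))
    {C : ℕ → (Ω ≃ₐ[K] Ω) → Pt (crvT a b) Ω} (hC : IsLift (crvT a b) c C)
    (h0 : ∀ g, C 0 g = 0) {γ : Ω ≃ₐ[F] Ω} (hγ : InI L ι γ) (hγr : γ r = -r) (hγ0 : c 1 γ = 0) :
    (∀ σ, InI L ι σ → c 1 σ = 0) ∧ c 2 γ + c 2 γ = 0 ∧
      ∀ g : Ω ≃ₐ[K] Ω, InD K L ι g → C 1 g = c 2 γ - act (crvT a b) (ak g) (c 2 γ) := by
  have hr' : ∀ σ : Ω ≃ₐ[F] Ω, σ r = r ∨ σ r = -r := by
    intro σ
    have h3 : σ r ^ 2 = r ^ 2 := by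
      have h1 : (σ.restrictScalars K) r ^ 2 = r ^ 2 := by
        rw [← map_pow, hr2, (σ.restrictScalars K).commutes]
      exact h1
    exact sq_eq_sq_iff_eq_or_eq_neg.1 h3
  have hC2 : ∀ g, C 1 g + C 1 g = 0 := by
    intro g
    rw [← two_nsmul, hC.two 0 g, h0]
  have hc2 : ∀ σ, c 1 σ + c 1 σ = 0 := by
    intro σ
    have := hC2 (σ.restrictScalars K)
    rw [hC.res] at this
    exact this
  have hI : ∀ σ, InI L ι σ → c 1 σ = 0 := by
    intro σ hσ
    rcases hr' σ with h | h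
    · exact hA.van hR (hc 1) (fun σ _ => hc2 σ) hσ h
    · rw [← hγ0]
      exact hA.eq_of_flip hR (hc 1) (fun σ _ => hc2 σ) hγ hσ hγr h
  have hI2 : ∀ σ, InI L ι σ → c 2 σ + c 2 σ = 0 := by
    intro σ hσ
    have h5 := hC.two 1 (σ.restrictScalars K)
    rw [hC.res, hC.res] at h5
    rw [← two_nsmul]
    exact h5.trans (hI σ hσ)
  refine ⟨hI, hI2 γ hγ, fun g hg => ?_⟩
  rw [← hC.two 1 g]
  refine hA.dec hR hN hr2 hc hC 2 hI2 hγ hγr hg ?_
  rw [hC.two, hC.two, h0]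

/-- The point attached to the inertia group is zero, if the first character is trivial and `b` is
not a square at the place. -/
theorem normX {δ : K} (hr2 : r ^ 2 = algebraMap K Ω δ)
    {c : ℕ → (Ω ≃ₐ[F] Ω) → Pt (crvT a b) Ω} (hc : ∀ n, IsCoc (crvT a b) (c n))
    {C : ℕ → (Ω ≃ₐ[K] Ω) → Pt (crvT a b) Ω} (hC : IsLift (crvT a b) c C)
    (hz0 : ∀ g, C 0 g = 0) {γ : Ω ≃ₐ[F] Ω} (hγ : InI L ι γ) (hγr : γ r = -r)
    (hs : ∀ g, s0 (C 1 g) = 1)
    (hb : ∀ y : Ω, y ^ 2 = algebraMap K Ω b → ∃ g : Ω ≃ₐ[K] Ω, InD K L ι g ∧ g y ≠ y) :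
    c 1 γ = 0 := by
  have hC2 : ∀ g, C 1 g + C 1 g = 0 := by
    intro g
    rw [← two_nsmul, hC.two 0 g, hz0]
  have hTs : s0 (c 1 γ) = 1 := by
    rw [← hC.res 1 γ]
    exact hs _
  have hT2 : c 1 γ + c 1 γ = 0 := by
    rw [← hC.res 1 γ]
    exact hC2 _
  rcases tor_s0 hR.E hT2 hTs with h | hT
  · exact h
  exfalso
  have hdiv : ∀ X : Pt (crvT a b) Ω, ∃ Y, Y + Y = X := halve_sep hR.E
  choose hv hhv using hdiv
  obtain ⟨S, hS0, hSS⟩ : ∃ S : ℕ → Pt (crvT a b) Ω, S 0 = pt0 hR.E ∧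
      ∀ j, 2 • S (j + 1) = S j :=
    ⟨fun j => Nat.rec (pt0 hR.E) (fun _ X => hv X) j, rfl, fun j => by
      rw [two_nsmul]
      exact hhv _⟩
  have hTT : pt0 hR.E + pt0 hR.E = 0 := pt0_two hR.E
  have hS1 : S 1 + S 1 = pt0 hR.E := by rw [← two_nsmul, hSS 0, hS0]
  have hC' := hC.add hSS
  have hcoc' : ∀ n, IsCoc (crvT a b) (fun σ : Ω ≃ₐ[F] Ω => c n σ + (act _ (rs K σ) (S n) - S n)) := by
    intro n
    have e : (fun σ : Ω ≃ₐ[F] Ω => c n σ + (act (crvT a b) (rs K σ) (S n) - S n)) =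
        fun σ => c n σ - (act _ (rs K σ) (-S n) - (-S n)) := by
      funext σ
      rw [map_neg]
      abel
    rw [e]
    exact (hc n).sub _ (cob_isCoc _ _)
  have h0' : ∀ g, C 0 g + (act (crvT a b) (ak g) (S 0) - S 0) = 0 := by
    intro g
    rw [hz0, hS0, hR.pt0_act, sub_self, add_zero]
  have hγ0' : c 1 γ + (act (crvT a b) (rs K γ) (S 1) - S 1) = 0 := by
    rw [hA.neg_four hR hγ hγr (by rw [hSS, hS0, two_nsmul]; exact hTT), hT, ← hS1]
    abel
  obtain ⟨-, hQ, hdec⟩ := norm1 hA hR hN hr2 hcoc' hC' h0' hγ hγr hγ0'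
  set Q := c 2 γ + (act (crvT a b) (rs K γ) (S 2) - S 2) with hQdef
  have hh0 := h0_sq hR.E (S 1)
  rw [hS1] at hh0
  have hd0 : d0 α β (pt0 hR.E) = algebraMap K Ω b := by
    rw [← hR.prod]
    simp [pt0, d0]
  rw [hd0] at hh0
  obtain ⟨g, hg, hgy⟩ := hb _ hh0
  apply hgy
  set T := act (crvT a b) (ak g) (S 1) - S 1 with hTdef
  have hT2' : T + T = 0 := by
    rw [hTdef, sub_add_sub_comm, ← map_add, hS1, hR.pt0_act, sub_self]
  have hTX : act (crvT a b) (ak g) (S 1) = S 1 + T := by rw [hTdef]; abel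
  have hgQ : act (crvT a b) (ak g) Q + act (crvT a b) (ak g) Q = 0 := (two_act _ _ _).2 hQ
  have e1 : s0 (C 1 g + T) = 1 := by
    have e2 : C 1 g + T = Q - act (crvT a b) (ak g) Q := hdec g hg
    rw [e2, sub_eq_add_neg, neg_eq_of_add_eq_zero_left hgQ, (s_addA hR.E hQ hgQ).1, s0_fix]
    rcases s0_sq Q with h | h <;> rw [h] <;> ring
  rw [(s_addA hR.E (hC2 g) hT2').1, hs g, one_mul] at e1
  by_cases h2 : S 1 + S 1 = 0
  · exfalso
    rw [hS1] at h2
    have : (pt0 hR.E : Pt (crvT a b) Ω) ≠ 0 := by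
      intro h
      exact absurd h (by simp [pt0])
    exact this h2
  · obtain ⟨t0, -⟩ := h_translate hR.E hT2' (P := S 1) (fun h => absurd h h2)
    have g0 : h0 α β (S 1 + T) = g (h0 α β (S 1)) := by
      rw [← hTX]
      exact hR.h0_act (ak g) (S 1)
    rw [← g0, t0, e1, one_mul]

end loc

end Pool.Agent.Helper55.PR
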