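import Pool.Agent.Helper55.PR.Chr

/-!
# The step of the descent with two places and one relation
-/

set_option autoImplicit false
set_option linter.all false

open Polynomial IsDedekindDomain WeierstrassCurve WeierstrassCurve.Affine
open scoped Classical

namespace Pool.Agent.Helper55.PR

open Pool.Agent.TH115.GD Pool.Agent.R939.EI Pool.Agent.Helper55.TT
open Pool.Agent.W309.TD (exists_root sq_of_nonsq compare)

section core

variable {k k' K F : Type} [Field k] [Field k'] [Algebra k k'] [Field K] [Algebra k[X] K]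
    [Field F] [Algebra k'[X] F] [IsFractionRing k'[X] F] [Algebra K F]

theorem vleP (hT : IsTower k k' K F) (v : HeightOneSpectrum k'[X]) (q : k[X]) :
    v.valuation F (algebraMap K F (algebraMap k[X] K q)) ≤ 1 := by
  rw [hT.map]
  exact v.valuation_le_one _

theorem voneP (hT : IsTower k k' K F) {p : k[X]} (v : HeightOneSpectrum k'[X]) (q : k[X])
    (hq : q ∣ p) (hv : p.map (algebraMap k k') ∉ v.asIdeal) :
    v.valuation F (algebraMap K F (algebraMap k[X] K q)) = 1 := by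
  rw [hT.map, v.valuation_of_algebraMap, HeightOneSpectrum.intValuation_eq_one_iff]
  intro hm
  apply hv
  obtain ⟨s, hs⟩ := hq
  rw [hs, Polynomial.map_mul]
  exact Ideal.mul_mem_right _ _ hm

/-- even valuations, first coordinate -/
theorem ev0 (hT : IsTower k k' K F) {a b D : k[X]} {AK BK : K}
    (hAK : AK = algebraMap k[X] K (a * D)) (hBK : BK = algebraMap k[X] K (b * D ^ 2))
    {α β : Sep F} (hR : Roots AK BK (Sep F) α β)
    {f : (Sep F ≃ₐ[F] Sep F) → Pt (crvT AK BK) (Sep F)} (hf2 : ∀ σ, f σ + f σ = 0)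
    (hloc : LocallyTrivial k' (crvT AK BK) f) {z : Sep F} {e : K} (z0 : z ≠ 0)
    (hz : z ^ 2 = algebraMap K (Sep F) e) (hσz : ∀ σ : Sep F ≃ₐ[F] Sep F, σ z = s0 (f σ) * z)
    (v : HeightOneSpectrum k'[X])
    (hv : (b * (a ^ 2 - 4 * b) * D).map (algebraMap k k') ∉ v.asIdeal) :
    par v (algebraMap K F e) = 0 := by
  have vB : v.valuation F (algebraMap K F BK) = 1 := by
    rw [hBK, map_mul, map_mul, map_mul, map_pow, map_pow, map_pow,
      voneP hT v b ((dvd_mul_right _ _).mul_right _) hv, voneP hT v D (dvd_mul_left _ _) hv, one_pow,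
      mul_one]
  rw [par_eq_zero]
  refine gen0 (F := F) (L := Comp k'[X] F v)
    (Valued.v (R := v.adicCompletion F) (Γ₀ := WithZero (Multiplicative ℤ)))
    (v.valuation F) (wFin v) (by rw [hAK]; exact vleP hT v (a * D)) vB
    (loc0T hR hf2 (hloc.1 v) z0 (a0 := algebraMap K F e) ?_ hσz)
  rw [hz, ← IsScalarTower.algebraMap_apply K F (Sep F)]

/-- even valuations, second coordinate -/
theorem ev1 (hT : IsTower k k' K F) {a b D : k[X]} {AK BK : K}
    (hAK : AK = algebraMap k[X] K (a * D)) (hBK : BK = algebraMap k[X] K (b * D ^ 2))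
    {α β : Sep F} (hR : Roots AK BK (Sep F) α β)
    {f : (Sep F ≃ₐ[F] Sep F) → Pt (crvT AK BK) (Sep F)} (hf2 : ∀ σ, f σ = 0 ∨ f σ = pt0 hR.E)
    (hloc : LocallyTrivial k' (crvT AK BK) f) {z : Sep F} {e : F} (z0 : z ≠ 0)
    (hz : z ^ 2 = algebraMap F (Sep F) e) (hσz : ∀ σ : Sep F ≃ₐ[F] Sep F, σ z = s1 α (f σ) * z)
    (v : HeightOneSpectrum k'[X])
    (hv : (b * (a ^ 2 - 4 * b) * D).map (algebraMap k k') ∉ v.asIdeal) :
    par v e = 0 := by
  have hdK : AK ^ 2 - 4 * BK = algebraMap k[X] K (D ^ 2 * (a ^ 2 - 4 * b)) := by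
    rw [hAK, hBK, ← map_pow, ← map_ofNat (algebraMap k[X] K) 4, ← map_mul, ← map_sub]
    congr 1
    ring
  have vd : v.valuation F (algebraMap K F (AK ^ 2 - 4 * BK)) = 1 := by
    rw [hdK, map_mul, map_mul, map_mul, map_pow, map_pow, map_pow,
      voneP hT v _ ((dvd_mul_left _ _).mul_right _) hv, voneP hT v D (dvd_mul_left _ _) hv, one_pow,
      mul_one]
  have v2 : v.valuation F 2 ≤ 1 := by
    have := vleP hT v 2
    rwa [map_ofNat, map_ofNat] at this
  rw [par_eq_zero]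
  exact gen1 (F := F) (L := Comp k'[X] F v)
    (Valued.v (R := v.adicCompletion F) (Γ₀ := WithZero (Multiplicative ℤ)))
    (v.valuation F) (wFin v) v2 (by rw [hAK]; exact vleP hT v (a * D)) vd
    (loc1T hR hf2 (hloc.1 v) z0 (a1 := e) hz hσz)

theorem pardP (hT : IsTower k k' K F) {a b D : k[X]} {AK BK : K} (hD : D ≠ 0)
    (hd : a ^ 2 - 4 * b ≠ 0)
    (hAK : AK = algebraMap k[X] K (a * D)) (hBK : BK = algebraMap k[X] K (b * D ^ 2))
    (v : HeightOneSpectrum k'[X])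
    (hv : (a ^ 2 - 4 * b).map (algebraMap k k') ∉ v.asIdeal) :
    par v (algebraMap K F (AK ^ 2 - 4 * BK)) = 0 := by
  haveI := hT.fracK
  have injK := IsFractionRing.injective k[X] K
  have hdK : AK ^ 2 - 4 * BK = algebraMap k[X] K D ^ 2 * algebraMap k[X] K (a ^ 2 - 4 * b) := by
    rw [hAK, hBK, ← map_pow, ← map_pow, ← map_ofNat (algebraMap k[X] K) 4, ← map_mul, ← map_sub,
      ← map_mul]
    congr 1
    ring
  have hD0 : algebraMap K F (algebraMap k[X] K D) ≠ 0 := by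
    refine (_root_.map_ne_zero _).2 ?_
    rw [Ne, map_eq_zero_iff _ injK]
    exact hD
  have hd0 : algebraMap K F (algebraMap k[X] K (a ^ 2 - 4 * b)) ≠ 0 := by
    refine (_root_.map_ne_zero _).2 ?_
    rw [Ne, map_eq_zero_iff _ injK]
    exact hd
  rw [hdK, map_mul, map_pow, par_sq v hD0 hd0, par_eq_zero, voneP hT v _ dvd_rfl hv]
  exact ⟨1, (mul_one 1).symm⟩

theorem cobmul {K Ω : Type} [Field K] [Field Ω] [Algebra K Ω] (W : WeierstrassCurve K)
    (X : Pt W Ω) (σ τ : Ω ≃ₐ[K] Ω) :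
    act W (ak (σ * τ)) X - X = (act W (ak σ) X - X) + act W (ak σ) (act W (ak τ) X - X) := by
  have e3 : act W (ak (σ * τ)) X = act W (ak σ) (act W (ak τ) X) := by
    rw [act_act]
    rfl
  rw [e3, map_sub]
  abel

/-- the hypotheses on the twist -/
structure Hyp (a b D π ϖ q : k[X]) : Prop where
  b0 : b ≠ 0
  d0 : a ^ 2 - 4 * b ≠ 0
  D0 : D ≠ 0
  q0 : q ≠ 0
  sep : ∀ ρ : k[X], Irreducible ρ → ρ ∣ b * (a ^ 2 - 4 * b) * D → ρ.Separable
  odd : OddFactor π D
  odd' : OddFactor ϖ D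
  πb : ¬ π ∣ b * (a ^ 2 - 4 * b)
  ϖb : ¬ ϖ ∣ b * (a ^ 2 - 4 * b)
  ϖq : OddFactor ϖ q
  ind0 : IndepAt π (a ^ 2 - 4 * b)
  ind : IndepRel π (b * (a ^ 2 - 4 * b) * D) q
  bπ : ¬ SqMod π b
  bϖ : ¬ SqMod ϖ b

/-- nonsquares modulo a prime are moved by the decomposition group -/
theorem moved (hT : IsTower k k' K F) (h2 : (2 : k) ≠ 0) {b D π : k[X]} (hπ : Irreducible π)
    (hD : D ≠ 0) {θ : k'} (hθ : aeval θ π = 0)
    (ι : Sep F →ₐ[F] Sep (Comp k'[X] F (pl θ))) (hb : ¬ SqMod π b) {BK : K}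
    (hBK : BK = algebraMap k[X] K (b * D ^ 2)) {y : Sep F} (hy : y ^ 2 = algebraMap K (Sep F) BK) :
    ∃ g : Sep F ≃ₐ[K] Sep F, InD K (Comp k'[X] F (pl θ)) ι g ∧ g y ≠ y := by
  haveI := hT.fracK
  by_contra hcon
  push Not at hcon
  apply hb
  have injK := IsFractionRing.injective k[X] K
  have hDΩ : algebraMap K (Sep F) (algebraMap k[X] K D) ≠ 0 := by
    refine (_root_.map_ne_zero _).2 ?_
    rw [Ne, map_eq_zero_iff _ injK]
    exact hD
  have hπb : ¬ π ∣ b := by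
    intro h
    apply hb
    exact ⟨0, by rw [zero_pow two_ne_zero, zero_sub, dvd_neg]; exact h⟩
  refine sq_res hT h2 hπ hθ ι hπb (y := y / algebraMap K (Sep F) (algebraMap k[X] K D)) ?_ ?_
  · rw [div_pow, hy, hBK, map_mul, map_pow, map_mul, map_pow]
    field_simp
  · intro g hg
    rw [map_div₀, hcon g hg, g.commutes]

/-- **The core**: a class whose first character is trivial. -/
theorem core2 (hT : IsTower k k' K F) (h2 : (2 : k) ≠ 0) {a b D π ϖ q : k[X]}
    (H : Hyp a b D π ϖ q) {AK BK : K}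
    (hAK : AK = algebraMap k[X] K (a * D)) (hBK : BK = algebraMap k[X] K (b * D ^ 2))
    {α β : Sep F} (hR : Roots AK BK (Sep F) α β)
    {c : ℕ → (Sep F ≃ₐ[F] Sep F) → Pt (crvT AK BK) (Sep F)}
    (hcoc : ∀ n, IsCoc (crvT AK BK) (c n)) (hloc : ∀ n, LocallyTrivial k' (crvT AK BK) (c n))
    {C : ℕ → (Sep F ≃ₐ[K] Sep F) → Pt (crvT AK BK) (Sep F)} (hC : IsLift (crvT AK BK) c C)
    (hC0 : ∀ g, C 0 g = 0) (hs : ∀ g, s0 (C 1 g) = 1) :
    ∃ Q : Pt (crvT AK BK) (Sep F), Q + Q = 0 ∧ ∀ σ, c 1 σ = act _ (rs K σ) Q - Q := by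
  haveI := hT.sep
  haveI := hT.fracK
  haveI : IsSepClosed k' := IsSepClosure.sep_closed k
  haveI : IsSepClosure K (Sep F) := sepKΩ hT.map
  haveI : Algebra.IsSeparable K (Sep F) := IsSepClosure.separable
  haveI : Algebra.IsSeparable F (Sep F) := IsSepClosure.separable
  haveI : IsGalois K (Sep F) := inferInstance
  have hKF := hT.map
  have h2K : (2 : K) ≠ 0 := tt h2
  have injK := IsFractionRing.injective k[X] K
  set p : k[X] := b * (a ^ 2 - 4 * b) * D with hp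
  have hp0 : p ≠ 0 := mul_ne_zero (mul_ne_zero H.b0 H.d0) H.D0
  have hdK0 : AK ^ 2 - 4 * BK ≠ 0 := by
    have hdK : AK ^ 2 - 4 * BK = algebraMap k[X] K (D ^ 2 * (a ^ 2 - 4 * b)) := by
      rw [hAK, hBK, ← map_pow, ← map_ofNat (algebraMap k[X] K) 4, ← map_mul, ← map_sub]
      congr 1
      ring
    rw [hdK, Ne, map_eq_zero_iff _ injK]
    exact mul_ne_zero (pow_ne_zero 2 H.D0) H.d0
  have hN : Preserves K F (Sep F) := preserves hKF
  have hdvd : ∀ {π : k[X]}, OddFactor π D → π ∣ D := by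
    rintro π ⟨-, m, hm, -⟩
    exact (dvd_pow_self π (by omega)).trans hm
  have h2Ω : (2 : Sep F) ≠ 0 := hR.E.two
  haveI : NeZero ((2 : ℕ) : Sep F) := ⟨by exact_mod_cast h2Ω⟩
  obtain ⟨r, hr⟩ := IsSepClosed.exists_pow_nat_eq (algebraMap K (Sep F) (algebraMap k[X] K D)) 2
  -- the two places
  have hπ := H.odd.1
  have hϖ := H.odd'.1
  obtain ⟨θ, hθ⟩ := exists_root_sep (k' := k') hπ (H.sep π hπ ((hdvd H.odd).mul_left _))
  let ι : Sep F →ₐ[F] Sep (Comp k'[X] F (pl θ)) := IsSepClosed.lift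
  have hA := addPl hT h2 H.D0 H.odd H.πb hθ ι (by rw [← hAK, ← hBK]; exact hR) hr
  obtain ⟨γ, hγ, hγr⟩ := hA.exists_flip
  obtain ⟨θ', hθ'⟩ := exists_root_sep (k' := k') hϖ (H.sep ϖ hϖ ((hdvd H.odd').mul_left _))
  let ι' : Sep F →ₐ[F] Sep (Comp k'[X] F (pl θ')) := IsSepClosed.lift
  have hA' := addPl hT h2 H.D0 H.odd' H.ϖb hθ' ι' (by rw [← hAK, ← hBK]; exact hR) hr
  obtain ⟨γ', hγ', hγr'⟩ := hA'.exists_flip
  have hγ0 : c 1 γ = 0 := normX hA hR hN hr hcoc hC hC0 hγ hγr hs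
    (fun y hy => moved hT h2 hπ H.D0 hθ ι H.bπ hBK hy)
  have hγ0' : c 1 γ' = 0 := normX hA' hR hN hr hcoc hC hC0 hγ' hγr' hs
    (fun y hy => moved hT h2 hϖ H.D0 hθ' ι' H.bϖ hBK hy)
  obtain ⟨hI, hQ2, hdec⟩ := norm1 hA hR hN hr hcoc hC hC0 hγ hγr hγ0
  set Q := c 2 γ with hQ
  obtain ⟨S2, hS2, hCS2⟩ := hC.lc 1
  have hC2 : ∀ g, C 1 g + C 1 g = 0 := by
    intro g
    rw [← two_nsmul, hC.two 0 g, hC0]
  have hCT : ∀ g, C 1 g = 0 ∨ C 1 g = pt0 hR.E := fun g => tor_s0 hR.E (hC2 g) (hs g)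
  obtain ⟨uQ, uQ0, huQ, huQφ⟩ := tw_root hR hQ2
  set E1 : (Sep F ≃ₐ[K] Sep F) → Pt (crvT AK BK) (Sep F) :=
    fun g => C 1 g + (act _ (ak g) Q - Q) with hE1
  have hE1m : ∀ σ τ, E1 (σ * τ) = E1 σ + act _ (ak σ) (E1 τ) := by
    intro σ τ
    show C 1 (σ * τ) + (act _ (ak (σ * τ)) Q - Q) = C 1 σ + (act _ (ak σ) Q - Q) +
      act _ (ak σ) (C 1 τ + (act _ (ak τ) Q - Q))
    rw [hC.mul 1, cobmul _ Q, (act (crvT AK BK) (ak σ)).map_add (C 1 τ)]
    abel
  have hTT : pt0 hR.E + pt0 hR.E = 0 := pt0_two hR.E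
  have hcobT : ∀ g : Sep F ≃ₐ[K] Sep F, act (crvT AK BK) (ak g) Q - Q = 0 ∨
      act (crvT AK BK) (ak g) Q - Q = pt0 hR.E := fun g => (huQφ (ak g)).1
  have hE1T : ∀ g, E1 g = 0 ∨ E1 g = pt0 hR.E := by
    intro g
    show C 1 g + (act _ (ak g) Q - Q) = 0 ∨ C 1 g + (act _ (ak g) Q - Q) = pt0 hR.E
    rcases hCT g with h | h <;> rcases hcobT g with h' | h' <;> rw [h, h']
    · left; rw [add_zero]
    · right; rw [zero_add]
    · right; rw [add_zero]
    · left; exact hTT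
  have hE12 : ∀ g, E1 g + E1 g = 0 := by
    intro g
    rcases hE1T g with h | h
    · rw [h, add_zero]
    · rw [h, hTT]
  have hf : ∀ σ, c 1 σ = 0 ∨ c 1 σ = pt0 hR.E := by
    intro σ
    have := hCT (σ.restrictScalars K)
    rw [hC.res] at this
    exact this
  have hc2 : ∀ σ, c 1 σ + c 1 σ = 0 := by
    intro σ
    have := hC2 (σ.restrictScalars K)
    rw [hC.res] at this
    exact this
  obtain ⟨y₀, hy₀⟩ := IsSepClosed.exists_pow_nat_eq
    (algebraMap K (Sep F) (algebraMap k[X] K q)) 2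
  have h7 : (∀ g, s1 α (E1 g) = 1) ∨ ∀ g : Sep F ≃ₐ[K] Sep F, g y₀ = s1 α (E1 g) * y₀ := by
    refine char_two hT h2 hp0 H.q0 H.sep hπ H.ind hθ ι (χ := fun g => s1 α (E1 g))
      (fun g => s1_sq _ _)
      (mul1 hR hE1m hE1T) (S := S2 ∪ crd (crvT AK BK) Q) (hS2.union (crd_fin _ _))
      (fun u hu => ?_) ?_ (fun σ hσ => ?_) (fun g hg => ?_) hy₀
    · have : E1 u = 0 := by
        show C 1 u + (act _ (ak u) Q - Q) = 0
        rw [hCS2 u fun x hx => hu x (Or.inl hx), act_crd _ (fun x hx => hu x (Or.inr hx)),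
          sub_self, add_zero]
      rw [this]; rfl
    · intro z e z0 hz hσz v hv
      have hE1F : ∀ σ : Sep F ≃ₐ[F] Sep F, s1 α (E1 (σ.restrictScalars K)) =
          s1 α (c 1 σ) * s1 α (act (crvT AK BK) (rs K σ) Q - Q) := by
        intro σ
        have e0 : E1 (σ.restrictScalars K) = c 1 σ + (act (crvT AK BK) (rs K σ) Q - Q) := by
          show C 1 (σ.restrictScalars K) + (act _ (rs K σ) Q - Q) = _
          rw [hC.res]
        rw [e0]
        refine (s_addA hR.E (hc2 σ) ?_).2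
        rcases (huQφ (rs K σ)).1 with h | h
        · rw [h, add_zero]
        · rw [h, hTT]
      have hzu : ∀ σ : Sep F ≃ₐ[F] Sep F, σ (z * uQ) = s1 α (c 1 σ) * (z * uQ) := by
        intro σ
        have e1 := hσz σ
        simp only [hE1F] at e1
        have e3 : σ uQ = s1 α (act (crvT AK BK) (rs K σ) Q - Q) * uQ := (huQφ (rs K σ)).2
        rw [map_mul, e1, e3]
        have e4 : s1 α (act (crvT AK BK) (rs K σ) Q - Q) *
            s1 α (act (crvT AK BK) (rs K σ) Q - Q) = 1 := by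
          rcases s1_sq α (act (crvT AK BK) (rs K σ) Q - Q) with h | h <;> rw [h] <;> ring
        linear_combination (s1 α (c 1 σ) * z * uQ) * e4
      obtain ⟨e', he', he'0, hpar⟩ : ∃ e' : K, uQ ^ 2 = algebraMap K (Sep F) e' ∧ e' ≠ 0 ∧
          par v (algebraMap K F e') = 0 := by
        rcases huQ with h | h
        · exact ⟨1, by rw [h, one_pow, map_one], one_ne_zero, by rw [map_one, par_one]⟩
        · refine ⟨_, h, hdK0, pardP hT H.D0 H.d0 hAK hBK v ?_⟩
          intro hm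
          apply hv
          rw [hp, Polynomial.map_mul, Polynomial.map_mul]
          exact Ideal.mul_mem_right _ _ (Ideal.mul_mem_left _ _ hm)
      have he0 : e ≠ 0 := by
        rintro rfl
        rw [map_zero] at hz
        exact pow_ne_zero 2 z0 hz
      have hsq : par v (algebraMap K F e * algebraMap K F e') = 0 := by
        refine ev1 hT hAK hBK hR hf (hloc 1) (mul_ne_zero z0 uQ0) ?_ hzu v hv
        rw [mul_pow, hz, he', map_mul, ← IsScalarTower.algebraMap_apply K F (Sep F),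
          ← IsScalarTower.algebraMap_apply K F (Sep F)]
      rw [par_mul v ((_root_.map_ne_zero _).2 he0) ((_root_.map_ne_zero _).2 he'0), hpar,
        add_zero] at hsq
      exact hsq
    · have : E1 (σ.restrictScalars K) = 0 := by
        show C 1 (σ.restrictScalars K) + (act _ (rs K σ) Q - Q) = 0
        rw [hC.res, hI σ hσ, hA.fix_two hR hσ hQ2, sub_self, add_zero]
      rw [this]; rfl
    · have : E1 g = 0 := by
        show C 1 g + (act _ (ak g) Q - Q) = 0
        rw [hdec g hg]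
        abel
      rw [this]; rfl
  have h8 : ∀ g, s1 α (E1 g) = 1 := by
    rcases h7 with h | h
    · exact h
    exfalso
    have h9 : E1 (γ'.restrictScalars K) = 0 := by
      show C 1 (γ'.restrictScalars K) + (act _ (rs K γ') Q - Q) = 0
      rw [hC.res, hγ0', hA'.fix_two hR hγ' hQ2, sub_self, add_zero]
    have h10 : γ' y₀ = y₀ := by
      have h11 := h (γ'.restrictScalars K)
      rw [h9] at h11
      have h12 : s1 α (0 : Pt (crvT AK BK) (Sep F)) = 1 := rfl
      rw [h12, one_mul] at h11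
      exact h11
    -- `q` has odd valuation at the second place
    obtain ⟨τ, hτ⟩ := hγ'
    have h13 : ι' y₀ ^ 2 = algebraMap (Comp k'[X] F (pl θ')) (Sep (Comp k'[X] F (pl θ')))
        (algebraMap K (Comp k'[X] F (pl θ')) (algebraMap k[X] K q)) := by
      rw [← map_pow, hy₀, ← IsScalarTower.algebraMap_apply K (Comp k'[X] F (pl θ'))]
      exact (ι'.restrictScalars K).commutes _
    have h14 : ¬ IsSquare (wv (F := F) (pl θ')
        (algebraMap K (Comp k'[X] F (pl θ')) (algebraMap k[X] K q))) := by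
      rw [wv_poly hT H.q0 θ', Nat.not_even_iff_odd]
      exact odd_of_factor H.q0 H.ϖq hθ'
    have h15 := hA'.flip h13 h14 τ (e := -1) (Or.inr rfl) (by
      rw [hτ, hγr', map_neg, neg_one_mul])
    rw [hτ, h10] at h15
    have h16 : ι' y₀ ≠ 0 := by
      intro h0
      rw [h0, zero_pow two_ne_zero] at h13
      have h17 := (_root_.map_eq_zero _).1 h13.symm
      rw [h17, map_zero] at h14
      exact h14 ⟨0, (mul_zero 0).symm⟩
    have h18 : (2 : Sep (Comp k'[X] F (pl θ'))) * ι' y₀ = 0 := by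
      linear_combination h15
    have h19 : (2 : Sep (Comp k'[X] F (pl θ'))) ≠ 0 := by
      rw [← map_ofNat ι' 2]
      exact (map_ne_zero_iff _ ι'.toRingHom.injective).2 h2Ω
    exact (mul_ne_zero h19 h16) h18
  have hE10 : ∀ g, E1 g = 0 := by
    intro g
    refine tor_ext hR.E (hE12 g) (add_zero 0) ?_ ?_
    · rcases hE1T g with h | h
      · rw [h]
      · rw [h, s0_pt0]; rfl
    · rw [h8]; rfl
  refine ⟨Q, hQ2, fun σ => ?_⟩
  have e0 : C 1 (σ.restrictScalars K) + (act _ (rs K σ) Q - Q) = 0 :=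
    hE10 (σ.restrictScalars K)
  rw [hC.res] at e0
  have e1 := eq_neg_of_add_eq_zero_left e0
  rw [e1]
  refine neg_eq_of_add_eq_zero_left ?_
  rcases (huQφ (rs K σ)).1 with h | h
  · rw [h, add_zero]
  · rw [h, hTT]

end core

end Pool.Agent.Helper55.PR
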