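import Pool.Agent.Helper55.PR.Step2
import Pool.Agent.Helper55.TT.Crit

/-!
# The criterion: rank one
-/

set_option autoImplicit false
set_option linter.all false

open Polynomial IsDedekindDomain WeierstrassCurve WeierstrassCurve.Affine
open scoped Classical

namespace Pool.Agent.Helper55.PR

open Pool.Agent.TH115.GD Pool.Agent.R939.EI Pool.Agent.Helper55.TT

section iter

variable {k' K F : Type} [Field k'] [Field K] [Field F] [Algebra K F] [Algebra k'[X] F]
  [IsFractionRing k'[X] F] {W : WeierstrassCurve K}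

/-- Subtraction of the coboundary of a division sequence of a rational point. -/
theorem subCob {c : ℕ → (Sep F ≃ₐ[F] Sep F) → Pt W (Sep F)} (h : IsTateClass k' W c)
    {T : ℕ → Pt W (Sep F)} (hT : ∀ j, 2 • T (j + 1) = T j)
    (hT0 : ∀ g : Sep F ≃ₐ[K] Sep F, act W (ak g) (T 0) = T 0) :
    IsTateClass k' W (fun n σ => c n σ - (act W (rs K σ) (T n) - T n)) := by
  have hT0' : ∀ σ : Sep F ≃ₐ[F] Sep F, act W (rs K σ) (T 0) = T 0 := fun σ =>
    hT0 (σ.restrictScalars K)
  refine ⟨⟨fun n => (h.tc.coc n).sub W (cob_isCoc W _), fun σ => ?_, fun n σ => ?_⟩,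
    fun n => lt_subT (h.loc n) _, fun τ => ?_⟩
  · show c 0 σ - (act W (rs K σ) (T 0) - T 0) = 0
    rw [h.tc.zero, hT0', sub_self, sub_zero]
  · show 2 • (c (n + 1) σ - (act W (rs K σ) (T (n + 1)) - T (n + 1))) =
      c n σ - (act W (rs K σ) (T n) - T n)
    rw [smul_sub, smul_sub, ← map_nsmul, hT, h.tc.two]
  · obtain ⟨m, Q, hQ, hinv⟩ := h.inv τ
    refine ⟨m, fun n => Q n - 2 ^ m • (act W (ak τ) (T n) - T n), ⟨?_, fun n => ?_⟩, ?_⟩
    · show Q 0 - 2 ^ m • (act W (ak τ) (T 0) - T 0) = 0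
      rw [hQ.zero, hT0, sub_self, smul_zero, sub_zero]
    · show 2 • (Q (n + 1) - 2 ^ m • (act W (ak τ) (T (n + 1)) - T (n + 1))) =
        Q n - 2 ^ m • (act W (ak τ) (T n) - T n)
      rw [smul_sub, hQ.two, smul_comm 2 (2 ^ m), smul_sub 2 (act W (ak τ) (T (n + 1))),
        ← map_nsmul, hT]
    · intro n σ σ' hσ
      have h1 := hinv n σ σ' hσ
      have hcomp : act W (ak τ) (act W (rs K σ') (T n)) =
          act W (rs K σ) (act W (ak τ) (T n)) := by
        have h5 : (ak τ).comp (rs K σ') = (rs K σ).comp (ak τ) := AlgHom.ext fun x => hσ x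
        rw [act_act, act_act, h5]
      show 2 ^ m • (act W (ak τ) (c n σ' - (act W (rs K σ') (T n) - T n)) -
          (c n σ - (act W (rs K σ) (T n) - T n))) =
        act W (rs K σ) (Q n - 2 ^ m • (act W (ak τ) (T n) - T n)) -
          (Q n - 2 ^ m • (act W (ak τ) (T n) - T n))
      rw [map_sub (act W (ak τ)), map_sub (act W (ak τ)), hcomp]
      have h4 : act W (ak τ) (c n σ') -
          (act W (rs K σ) (act W (ak τ) (T n)) - act W (ak τ) (T n)) -
          (c n σ - (act W (rs K σ) (T n) - T n)) =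
          (act W (ak τ) (c n σ') - c n σ) -
          (act W (rs K σ) (act W (ak τ) (T n) - T n) - (act W (ak τ) (T n) - T n)) := by
        rw [map_sub (act W (rs K σ))]; abel
      rw [h4, smul_sub (2 ^ m), h1]
      obtain ⟨T', hT'⟩ : ∃ T', T' = act W (ak τ) (T n) - T n := ⟨_, rfl⟩
      rw [← hT']
      have e7 : act W (rs K σ) (Q n - 2 ^ m • T') =
          act W (rs K σ) (Q n) - 2 ^ m • act W (rs K σ) T' := by
        rw [map_sub, map_nsmul]
      rw [e7, smul_sub (2 ^ m)]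
      abel

/-- The class of a rational point. -/
theorem secClass {T : ℕ → Pt W (Sep F)} (hT : ∀ j, 2 • T (j + 1) = T j)
    (hT0 : ∀ g : Sep F ≃ₐ[K] Sep F, act W (ak g) (T 0) = T 0) :
    IsTateClass k' W (fun n σ => act W (rs K σ) (T n) - T n) := by
  have h := subCob (k' := k') (c := fun _ _ => 0) IsTateClass.zero (T := fun n => -T n)
    (fun j => by rw [smul_neg, hT]) (fun g => by rw [map_neg, hT0])
  have e : (fun n (σ : Sep F ≃ₐ[F] Sep F) => (0 : Pt W (Sep F)) -
      (act W (rs K σ) (-T n) - -T n)) = fun n σ => act W (rs K σ) (T n) - T n := by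
    funext n σ
    rw [map_neg]
    abel
  rw [e] at h
  exact h

/-- The iteration of the step. -/
theorem iter2 (hdiv : ∀ X : Pt W (Sep F), ∃ Y : Pt W (Sep F), Y + Y = X)
    {T : ℕ → Pt W (Sep F)} (hT : ∀ j, 2 • T (j + 1) = T j)
    (hT0 : ∀ g : Sep F ≃ₐ[K] Sep F, act W (ak g) (T 0) = T 0)
    (h : ∀ c : ℕ → (Sep F ≃ₐ[F] Sep F) → Pt W (Sep F), IsTateClass k' W c →
      ∃ (ε : ℤ) (R : Pt W (Sep F)), 2 • (2 • R) = 0 ∧
        (∀ σ : Sep F ≃ₐ[F] Sep F, act W (rs K σ) (2 • R) = 2 • R) ∧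
        ∀ σ, c 1 σ = ε • (act W (rs K σ) (T 1) - T 1) + (act W (rs K σ) R - R)) (n : ℕ) :
    ∀ c : ℕ → (Sep F ≃ₐ[F] Sep F) → Pt W (Sep F), IsTateClass k' W c →
      ∃ (ε : ℤ) (R : Pt W (Sep F)), 2 • (2 ^ n • R) = 0 ∧
        (∀ σ : Sep F ≃ₐ[F] Sep F, act W (rs K σ) (2 ^ n • R) = 2 ^ n • R) ∧
        ∀ σ, c n σ = ε • (act W (rs K σ) (T n) - T n) + (act W (rs K σ) R - R) := by
  induction n with
  | zero =>
    intro c hc
    refine ⟨0, 0, by rw [smul_zero, smul_zero], fun σ => by rw [smul_zero, map_zero],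
      fun σ => ?_⟩
    rw [hc.tc.zero, map_zero, sub_zero, zero_smul, add_zero]
  | succ n ih =>
    intro c hc
    obtain ⟨ε, R1, hR1, hR2, hR3⟩ := h c hc
    -- the class minus a multiple of the class of the section
    have hc1 := subCob hc (T := fun n => ε • T n) (fun j => by rw [smul_comm, hT])
      (fun g => by rw [map_zsmul, hT0])
    choose hv hhv using hdiv
    obtain ⟨G, G0, G1, GS⟩ : ∃ G : ℕ → Pt W (Sep F), G 0 = 2 • R1 ∧ G 1 = R1 ∧
        ∀ j, 2 • G (j + 1) = G j := by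
      refine ⟨fun j => Nat.casesOn j (2 • R1) (fun i => Nat.rec R1 (fun _ X => hv X) i),
        rfl, rfl, fun j => ?_⟩
      cases j with
      | zero => rfl
      | succ j => rw [two_nsmul]; exact hhv _
    have Gpow : ∀ j, 2 ^ j • G j = 2 • R1 := by
      intro j
      induction j with
      | zero => rw [pow_zero, one_smul, G0]
      | succ j ih => rw [pow_succ, mul_smul, GS, ih]
    obtain ⟨ε', R', h1, h2, h3⟩ := ih _ (div_class' hc1 (by rw [G0]; exact hR1) GS
      (fun σ => by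
        show c 1 σ - (act W (rs K σ) (ε • T 1) - ε • T 1) = _
        rw [G1, hR3 σ, map_zsmul, smul_sub]
        abel))
    have e1 : 2 ^ (n + 1) • (R' + G (n + 1)) = 2 • R1 := by
      rw [smul_add, Gpow, pow_succ', mul_smul, h1, zero_add]
    refine ⟨ε + 2 * ε', R' + G (n + 1), ?_, fun σ => ?_, fun σ => ?_⟩
    · rw [e1, hR1]
    · rw [e1, hR2]
    · have h5 : c (n + 1) σ - (act W (rs K σ) (ε • T (n + 1)) - ε • T (n + 1)) -
        (act W (rs K σ) (G (n + 1)) - G (n + 1)) =
        ε' • (act W (rs K σ) (T n) - T n) + (act W (rs K σ) R' - R') := h3 σ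
      have h6 : T n = (2 : ℤ) • T (n + 1) := by
        rw [← hT n]
        exact (natCast_zsmul _ 2).symm
      rw [h6, map_zsmul, map_zsmul, ← smul_sub, ← smul_sub, ← mul_smul] at h5
      rw [sub_eq_iff_eq_add, sub_eq_iff_eq_add] at h5
      rw [h5, map_add, add_smul, mul_comm 2 ε']
      abel

end iter

section core

variable {k k' K F : Type} [Field k] [Field k'] [Algebra k k'] [Field K] [Algebra k[X] K]
    [Field F] [Algebra k'[X] F] [IsFractionRing k'[X] F] [Algebra K F]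

/-- **The criterion**: the classes are generated by one section of infinite order. -/
theorem crit2 (hT : IsTower k k' K F) (h2 : (2 : k) ≠ 0) {a b D π ϖ q : k[X]}
    (H : Hyp a b D π ϖ q) (hdns : ¬ IsSquare (a ^ 2 - 4 * b)) {x y s : k[X]} (hs : s ≠ 0)
    (hxq : x = q * s ^ 2) (hxy : y ^ 2 = x * (x ^ 2 + (a * D) * x + b * D ^ 2)) :
    GeneratedBy (F := F) k' (crvT (algebraMap k[X] K (a * D)) (algebraMap k[X] K (b * D ^ 2))) 1 ∧
    (∃ P : Pt (crvT (algebraMap k[X] K (a * D)) (algebraMap k[X] K (b * D ^ 2))) K,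
      ∀ m : ℕ, 0 < m → m • P ≠ 0) ∧
    ((∀ (u : k) (V : k[X]), a ^ 2 - 4 * b = C u * V ^ 2 → IsSquare u) →
      TateAtTwo (F := F) k' (crvT (algebraMap k[X] K (a * D)) (algebraMap k[X] K (b * D ^ 2)))) := by
  haveI := hT.sep
  haveI := hT.fracK
  haveI : IsSepClosed k' := IsSepClosure.sep_closed k
  haveI : IsSepClosure K (Sep F) := sepKΩ hT.map
  haveI : Algebra.IsSeparable K (Sep F) := IsSepClosure.separable
  haveI : Algebra.IsSeparable F (Sep F) := IsSepClosure.separable
  haveI : IsGalois K (Sep F) := inferInstance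
  have hKF := hT.map
  have h2K : (2 : K) ≠ 0 := tt h2
  have injK := IsFractionRing.injective k[X] K
  obtain ⟨AK, hAK⟩ : ∃ AK : K, AK = algebraMap k[X] K (a * D) := ⟨_, rfl⟩
  obtain ⟨BK, hBK⟩ : ∃ BK : K, BK = algebraMap k[X] K (b * D ^ 2) := ⟨_, rfl⟩
  have hBK0 : BK ≠ 0 := by
    rw [hBK, Ne, map_eq_zero_iff _ injK]
    exact mul_ne_zero H.b0 (pow_ne_zero 2 H.D0)
  have hdK : AK ^ 2 - 4 * BK = algebraMap k[X] K (D ^ 2 * (a ^ 2 - 4 * b)) := by
    rw [hAK, hBK, ← map_pow, ← map_ofNat (algebraMap k[X] K) 4, ← map_mul, ← map_sub]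
    congr 1
    ring
  have hdK0 : AK ^ 2 - 4 * BK ≠ 0 := by
    rw [hdK, Ne, map_eq_zero_iff _ injK]
    exact mul_ne_zero (pow_ne_zero 2 H.D0) H.d0
  obtain ⟨α, β, hR⟩ := exists_roots (Ω := Sep F) h2K hBK0 hdK0
  rw [← hAK, ← hBK]
  have hDK : algebraMap k[X] K D ≠ 0 := by
    rw [Ne, map_eq_zero_iff _ injK]; exact H.D0
  have hsum' : β = -algebraMap K (Sep F) AK - α := by linear_combination hR.sum
  have hdiff : (α - β) ^ 2 = algebraMap K (Sep F) (AK ^ 2 - 4 * BK) := by
    have e1 : (α - β) ^ 2 = (α + β) ^ 2 - 4 * (α * β) := by ring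
    rw [e1, hR.sum, hR.prod]
    simp only [map_mul, map_sub, map_pow, map_ofNat]
    ring
  -- the roots are not rational
  have hαK : ¬ ∀ g : Sep F ≃ₐ[K] Sep F, g α = α := by
    intro hα
    apply hdns
    have hf : α - β ∈ Set.range (algebraMap K (Sep F)) := by
      rw [InfiniteGalois.mem_range_algebraMap_iff_fixed]
      intro σ
      rw [hsum', map_sub, map_sub, map_neg, hα, σ.commutes]
    obtain ⟨f, hf⟩ := hf
    have e2 : (f / algebraMap k[X] K D) ^ 2 = algebraMap k[X] K (a ^ 2 - 4 * b) := by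
      have e3 : f ^ 2 = AK ^ 2 - 4 * BK := by
        apply inj_alg (E := Sep F)
        rw [map_pow, hf, hdiff]
      rw [div_pow, e3, hdK, map_mul, map_pow]
      field_simp
    obtain ⟨V, hV⟩ := IsIntegrallyClosed.exists_algebraMap_eq_of_isIntegral_pow (R := k[X])
      (K := K) (x := f / algebraMap k[X] K D) (n := 2) (by norm_num)
      (by rw [e2]; exact isIntegral_algebraMap)
    refine ⟨V, injK ?_⟩
    rw [← e2, ← hV, map_mul, pow_two]
  -- the section
  set xΩ : Sep F := algebraMap K (Sep F) (algebraMap k[X] K x) with hxΩ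
  set yΩ : Sep F := algebraMap K (Sep F) (algebraMap k[X] K y) with hyΩ
  have hns : ((crvT AK BK).baseChange (Sep F)).toAffine.Nonsingular xΩ yΩ := by
    rw [hR.E.nonsingular]
    have e1 : xΩ * (xΩ - α) * (xΩ - β) = xΩ * (xΩ ^ 2 - (α + β) * xΩ + α * β) := by ring
    rw [e1, hR.sum, hR.prod, hyΩ, ← map_pow, ← map_pow, hxy, hAK, hBK, hxΩ]
    simp only [map_mul, map_add, map_pow]
    ring
  obtain ⟨P, hP⟩ := fixed_point (K := K) (F := K) (crvT AK BK)
    (Point.some xΩ yΩ hns : Pt (crvT AK BK) (Sep F)) (fun τ => by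
      obtain ⟨h, hh⟩ := act_some (crvT AK BK) (rs K τ) hns
      have e1 : rs K τ xΩ = xΩ := τ.commutes _
      have e2 : rs K τ yΩ = yΩ := τ.commutes _
      rw [hh]
      simp only [e1, e2])
  have hdiv : ∀ X : Pt (crvT AK BK) (Sep F), ∃ Y, Y + Y = X := halve_sep hR.E
  have hdiv' := hdiv
  choose hv hhv using hdiv
  obtain ⟨T, hT0, hTS⟩ : ∃ T : ℕ → Pt (crvT AK BK) (Sep F),
      T 0 = act _ (incl K K (Sep F)) P ∧ ∀ j, 2 • T (j + 1) = T j :=
    ⟨fun j => Nat.rec (act _ (incl K K (Sep F)) P) (fun _ X => hv X) j, rfl, fun j => by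
      rw [two_nsmul]
      exact hhv _⟩
  have hTfix : ∀ g : Sep F ≃ₐ[K] Sep F, act _ (ak g) (T 0) = T 0 := by
    intro g
    have e : (ak g).comp (incl K K (Sep F)) = incl K K (Sep F) := AlgHom.ext fun x => g.commutes x
    rw [hT0, act_act, e]
  have hsK : algebraMap k[X] K s ≠ 0 := by
    rw [Ne, map_eq_zero_iff _ injK]; exact hs
  have hqK : algebraMap k[X] K q ≠ 0 := by
    rw [Ne, map_eq_zero_iff _ injK]; exact H.q0
  have hxs : xΩ = algebraMap K (Sep F) (algebraMap k[X] K q * algebraMap k[X] K s ^ 2) := by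
    rw [hxΩ, hxq, map_mul, map_pow]
  have hTx : T 0 = Point.some xΩ yΩ hns := by rw [hT0, hP]
  have hit := iter2 (k' := k') (F := F) (W := crvT AK BK) hdiv' hTS hTfix
    (fun c hc => step2 hT h2 H hAK hBK hR hTS hTfix hTx hsK hxs hc)
  refine ⟨⟨1, fun _ n σ => act _ (rs K σ) (T n) - T n, le_rfl,
    fun _ => secClass hTS hTfix, fun c hc n => ?_⟩, ⟨P, fun m hm hmP => ?_⟩, fun hsq => ?_⟩
  · obtain ⟨z, R, h1, -, h3⟩ := hit n c hc
    refine ⟨fun _ => z, R, by rw [pow_succ', mul_smul]; exact h1, fun σ => ?_⟩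
    rw [h3 σ]
    simp
  · -- infinite order
    have hϖ := H.odd'.1
    have hϖD : ϖ ∣ D := by
      obtain ⟨-, m, hm, -⟩ := H.odd'
      exact (dvd_pow_self ϖ (by omega)).trans hm
    obtain ⟨θ, hθ⟩ := exists_root_sep (k' := k') hϖ (H.sep ϖ hϖ (hϖD.mul_left _))
    let ι : Sep F →ₐ[F] Sep (Comp k'[X] F (pl θ)) := IsSepClosed.lift
    have h2Ω : (2 : Sep F) ≠ 0 := hR.E.two
    haveI : NeZero ((2 : ℕ) : Sep F) := ⟨by exact_mod_cast h2Ω⟩
    obtain ⟨r, hr⟩ := IsSepClosed.exists_pow_nat_eq (algebraMap K (Sep F) (algebraMap k[X] K D)) 2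
    have hA := addPl hT h2 H.D0 H.odd' H.ϖb hθ ι (by rw [← hAK, ← hBK]; exact hR) hr
    obtain ⟨γ, hγ, hγr⟩ := hA.exists_flip
    obtain ⟨y₀, hy₀⟩ := IsSepClosed.exists_pow_nat_eq
      (algebraMap K (Sep F) (algebraMap k[X] K q)) 2
    have hsec := sec_root hR (R := T 1) (fun g => by rw [hTS 0]; exact hTfix g)
      (by rw [hTS 0, hTx]) hsK hqK hxs hy₀ (γ.restrictScalars K)
    -- `γ` changes the sign of `y₀`
    have hflip : γ y₀ = -1 * y₀ := by
      obtain ⟨τ, hτ⟩ := hγ
      have h13 : ι y₀ ^ 2 = algebraMap (Comp k'[X] F (pl θ)) (Sep (Comp k'[X] F (pl θ)))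
          (algebraMap K (Comp k'[X] F (pl θ)) (algebraMap k[X] K q)) := by
        rw [← map_pow, hy₀, ← IsScalarTower.algebraMap_apply K (Comp k'[X] F (pl θ))]
        exact (ι.restrictScalars K).commutes _
      have h14 : ¬ IsSquare (wv (F := F) (pl θ)
          (algebraMap K (Comp k'[X] F (pl θ)) (algebraMap k[X] K q))) := by
        rw [wv_poly hT H.q0 θ, Nat.not_even_iff_odd]
        exact odd_of_factor H.q0 H.ϖq hθ
      have h15 := hA.flip h13 h14 τ (e := -1) (Or.inr rfl) (by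
        rw [hτ, hγr, map_neg, neg_one_mul])
      rw [hτ] at h15
      apply ι.toRingHom.injective
      show ι (γ y₀) = ι (-1 * y₀)
      rw [h15, map_mul, map_neg, map_one]
    have hy₀0 : y₀ ≠ 0 := by
      rintro rfl
      rw [zero_pow two_ne_zero] at hy₀
      exact hqK ((_root_.map_eq_zero _).1 hy₀.symm)
    have hs1 : s0 (act _ (rs K γ) (T 1) - T 1) = -1 := by
      have e1 : γ y₀ = s0 (act _ (rs K γ) (T 1) - T 1) * y₀ := hsec
      rw [hflip] at e1
      exact (mul_right_cancel₀ hy₀0 e1).symm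
    -- the odd part
    obtain ⟨e, m', hm', rfl⟩ : ∃ e m' : ℕ, Odd m' ∧ m = 2 ^ e * m' := by
      obtain ⟨e, m', h1, h2⟩ := Nat.exists_eq_two_pow_mul_odd (n := m) (by omega)
      exact ⟨e, m', h1, h2⟩
    obtain ⟨j, rfl⟩ := hm'
    set X := (2 * j + 1) • T 0 with hX
    have hXfix : ∀ g : Sep F ≃ₐ[K] Sep F, act _ (ak g) X = X := by
      intro g
      rw [hX, map_nsmul, hTfix]
    have hX2 : 2 • X = 0 := by
      refine hA.tors hR e (X := X) (fun σ => hXfix (σ.restrictScalars K)) ?_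
      rw [hX, ← mul_smul, hT0, ← map_nsmul, hmP, map_zero]
    rw [two_nsmul] at hX2
    obtain ⟨Y, hY⟩ := hdiv' X
    set T' := T 1 - Y + j • T 0 with hT'
    have hT'2 : T' + T' = 0 := by
      have e1 : T 1 + T 1 = T 0 := by rw [← two_nsmul]; exact hTS 0
      have e2 : T' + T' = (T 1 + T 1) - (Y + Y) + (2 * j) • T 0 := by
        rw [hT', mul_smul, two_nsmul]
        abel
      rw [e2, e1, hY, hX, add_smul, one_smul]
      abel
    have hT1 : T 1 = Y - j • T 0 + T' := by rw [hT']; abel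
    have hY4 : 2 • (2 • Y) = 0 := by rw [two_nsmul Y, hY, two_nsmul]; exact hX2
    have hdY : act _ (rs K γ) (T 1) - T 1 = X := by
      have e0 : act _ (rs K γ) (T 0) = T 0 := hTfix (γ.restrictScalars K)
      have e1 : act _ (rs K γ) (T 1) = -Y - j • T 0 + T' := by
        rw [hT1, map_add, map_sub, hA.neg_four hR hγ hγr hY4, map_nsmul, e0,
          hA.fix_two hR hγ hT'2]
      have e2 : -X = X := neg_eq_of_add_eq_zero_left hX2
      rw [e1, hT1, ← e2, ← hY]
      abel
    rw [hdY] at hs1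
    rcases tor_cases hR.E hX2 with ⟨h, -⟩ | ⟨hn, h, -⟩ | ⟨hn, h, -⟩ | ⟨hn, h, -⟩
    · rw [h, s0_zero] at hs1
      exact h2Ω (by linear_combination hs1)
    · have h1 : X = pt0 hR.E := h
      rw [h1, s0_pt0] at hs1
      exact h2Ω (by linear_combination hs1)
    · apply hαK
      intro g
      have h1 := hXfix g
      obtain ⟨h', hh⟩ := act_some (crvT AK BK) (ak g) hn
      rw [h, hh] at h1
      exact (Point.some.inj h1).1
    · apply hαK
      intro g
      have h1 := hXfix g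
      obtain ⟨h', hh⟩ := act_some (crvT AK BK) (ak g) hn
      rw [h, hh] at h1
      have hgβ : g β = β := (Point.some.inj h1).1
      have hα' : α = -algebraMap K (Sep F) AK - β := by linear_combination hR.sum
      rw [hα', map_sub, map_neg, hgβ, g.commutes]
  · intro c hcc hcl hci n
    obtain ⟨z, R, h1, h3, h4⟩ := hit n c ⟨hcc, hcl, hci⟩
    set X := 2 ^ n • R with hX
    rw [two_nsmul] at h1
    -- the coordinates
    have key : ¬ (∀ σ : Sep F ≃ₐ[F] Sep F, σ α = α) := by
      intro hα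
      have hf : α - β ∈ Set.range (algebraMap F (Sep F)) := by
        rw [InfiniteGalois.mem_range_algebraMap_iff_fixed]
        intro σ
        rw [hsum', map_sub, map_sub, map_neg, hα, IsScalarTower.algebraMap_apply K F (Sep F),
          σ.commutes]
      obtain ⟨f, hf⟩ := hf
      have hDF : algebraMap K F (algebraMap k[X] K D) ≠ 0 := (_root_.map_ne_zero _).2 hDK
      have hδK : algebraMap k[X] K (a ^ 2 - 4 * b) ≠ 0 := by
        rw [Ne, map_eq_zero_iff _ injK]; exact H.d0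
      have hff : algebraMap K F (algebraMap k[X] K (a ^ 2 - 4 * b)) =
          (f / algebraMap K F (algebraMap k[X] K D)) ^ 2 := by
        have e2 : f ^ 2 = algebraMap K F (AK ^ 2 - 4 * BK) := by
          apply inj_alg (E := Sep F)
          rw [map_pow, hf, hdiff, ← IsScalarTower.algebraMap_apply K F (Sep F)]
        rw [div_pow, e2, hdK, map_mul, map_mul, map_pow, map_pow]
        field_simp
      obtain ⟨ε, h, hε, hh, hεh⟩ := sq_const hKF hδK hff
      have hCε : algebraMap k[X] K (C ε) ≠ 0 := by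
        rw [Ne, map_eq_zero_iff _ injK]; exact C_ne_zero.2 hε
      have hh2 : h ^ 2 = algebraMap k[X] K (C ε⁻¹ * (a ^ 2 - 4 * b)) := by
        have e3 : algebraMap k[X] K (C ε⁻¹) * algebraMap k[X] K (C ε) = 1 := by
          rw [← map_mul, ← C_mul, inv_mul_cancel₀ hε, C_1, map_one]
        rw [map_mul, hεh]
        linear_combination -(h ^ 2) * e3
      obtain ⟨V, hV⟩ := IsIntegrallyClosed.exists_algebraMap_eq_of_isIntegral_pow (R := k[X])
        (K := K) (x := h) (n := 2) (by norm_num) (by rw [hh2]; exact isIntegral_algebraMap)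
      have hdV : a ^ 2 - 4 * b = C ε * V ^ 2 := by
        apply injK
        rw [hεh, map_mul, map_pow, hV]
      obtain ⟨ρ, hρ⟩ := hsq ε V hdV
      apply hdns
      refine ⟨C ρ * V, ?_⟩
      rw [hdV, hρ, C_mul]
      ring
    have hXK : ∀ g : Sep F ≃ₐ[K] Sep F, act (crvT AK BK) (rs K g) X = X := by
      have hpt : ∀ {x : Sep F} {hn} {g : Sep F ≃ₐ[K] Sep F}, g x = x →
          act (crvT AK BK) (rs K g) (Point.some x 0 hn) = Point.some x 0 hn := by
        intro x hn g hx
        obtain ⟨h, hh⟩ := act_some (crvT AK BK) (rs K g) hn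
        have e1 : rs K g x = x := hx
        rw [hh]
        simp only [e1, map_zero]
      have hptF : ∀ {x : Sep F} {hn} {σ : Sep F ≃ₐ[F] Sep F},
          act (crvT AK BK) (rs K σ) (Point.some x 0 hn) = Point.some x 0 hn → σ x = x := by
        intro x hn σ hx
        obtain ⟨h, hh⟩ := act_some (crvT AK BK) (rs K σ) hn
        rw [hh] at hx
        exact (Point.some.inj hx).1
      intro g
      rcases tor_cases hR.E h1 with ⟨h, -⟩ | ⟨hn, h, -⟩ | ⟨hn, h, -⟩ | ⟨hn, h, -⟩
      · rw [h, map_zero]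
      · rw [h]; exact hpt (map_zero g)
      · rw [h] at h3 ⊢
        exact absurd (fun σ => hptF (h3 σ)) key
      · rw [h] at h3 ⊢
        have hβF : ∀ σ : Sep F ≃ₐ[F] Sep F, σ β = β := fun σ => hptF (h3 σ)
        have hα' : α = -algebraMap K (Sep F) AK - β := by linear_combination hR.sum
        refine absurd (fun σ => ?_) key
        rw [hα', map_sub, map_neg, hβF, IsScalarTower.algebraMap_apply K F (Sep F),
          σ.commutes]
    obtain ⟨P', hP'⟩ := fixed_point (K := K) (F := K) (crvT AK BK) X hXK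
    have hTpow : ∀ n, 2 ^ n • T n = T 0 := by
      intro n
      induction n with
      | zero => rw [pow_zero, one_smul]
      | succ n ih => rw [pow_succ, mul_smul, hTS, ih]
    refine ⟨z • P + P', z • T n + R, ?_, fun σ => ?_⟩
    · rw [smul_add, smul_comm, hTpow, map_add, map_zsmul, hP', hT0]
    · rw [h4 σ, map_add, map_zsmul, smul_sub]
      abel

end core

end Pool.Agent.Helper55.PR
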