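import Pool.Agent.Helper55.PR.GenL
import Pool.Agent.Helper55.PR.Alg
import Pool.Agent.Helper55.TT.FinC

/-!
# Number fields: for almost all parameters the value of the form is irreducible, and a given
polynomial is not a square modulo this value
-/

set_option autoImplicit false
set_option linter.all false

namespace Pool.Agent.Helper55.PR

open Polynomial NumberField Pool.Agent Pool.Agent.R939.EI Pool.Agent.R939.HI Pool.Agent.W275.UB
open Pool.Agent.TH115.GD Pool.Agent.H927R2.RD Pool.Agent.R939.PP Pool.Agent.Helper55.TT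

theorem sq_mul_sq {R : Type} [Field R] {c : R} (hc : c ≠ 0) {p : R[X]}
    (h : IsSquare (C c ^ 2 * p)) : IsSquare p := by
  obtain ⟨y, hy⟩ := h
  refine ⟨C c⁻¹ * y, ?_⟩
  have e : (C c⁻¹ : R[X]) * C c = 1 := by rw [← C_mul, inv_mul_cancel₀ hc, C_1]
  linear_combination (C c⁻¹ ^ 2) * hy - p * (C c⁻¹ * C c + 1) * e

/-- the evaluation of an image -/
theorem eval_two {O K2 A : Type} [CommRing O] [CommRing K2] [CommRing A] (σ : O →+* K2)
    (ρ : K2 →+* A) (p : O[X]) (τ : K2) :
    (p.map (ρ.comp σ)).eval (ρ τ) = ρ ((p.map σ).eval τ) := by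
  rw [← Polynomial.map_map, eval_map, eval₂_at_apply]

section hno

variable {u : ℕ} (n : Fin u → ℕ) (l0 : Fin u) {J O : Type} [Fintype J] [CommRing O] [IsDomain O]
  (ω : Module.Basis J ℤ O) {k : Type} [Field k] [CharZero k] [Algebra O k]

/-- the generic form has no solution of `w² - c = Q h` -/
theorem no_sol (hO : Function.Injective (algebraMap O k)) {e : O} {a b c : O[X]}
    (H : Fh n l0 k e a b) {j0 : J} (hj0 : ω j0 ≠ 0)
    (hc : ¬ IsSquare (c.map (algebraMap O k)))
    (hcd : ¬ IsSquare (c.map (algebraMap O k) * (a.map (algebraMap O k) ^ 2 -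
      4 * (C (algebraMap O k e) * b.map (algebraMap O k))))) :
    ∃ (F : Type) (_ : Field F) (Θ : MvPolynomial ((Σ l : Fin u, Fin (n l + 1)) × J) O →+* F),
      Function.Injective Θ ∧ ∀ w h : F[X], w ^ 2 - c.map (Θ.comp MvPolynomial.C) ≠
        (QB n l0 ω (C e) a b).map Θ * h := by
  classical
  obtain ⟨K2, _, _, _, τ, ξ, hτ, hξ, hcs⟩ := K2_exists H.e0 H.ns hc hcd
  obtain ⟨Θ, hΘi, hΘC, hroot⟩ := model n l0 ω hO H.n0 ξ hτ hj0
  let A := MvPolynomial ((Σ l : Fin u, Fin (n l + 1)) × J) K2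
  let F := FractionRing A
  have hAF : Function.Injective (algebraMap A F) := IsFractionRing.injective _ _
  refine ⟨F, inferInstance, (algebraMap A F).comp Θ, hAF.comp hΘi, ?_⟩
  intro w h heq
  set σ2 : O →+* K2 := (algebraMap k K2).comp (algebraMap O k) with hσ2
  have hev : ∀ p : O[X], (p.map (Θ.comp MvPolynomial.C)).eval (MvPolynomial.C τ) =
      MvPolynomial.C (aeval τ (p.map (algebraMap O k))) := by
    intro p
    rw [hΘC, eval_two]
    congr 1
    rw [hσ2, ← Polynomial.map_map, eval_map]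
    rfl
  have hQ0 : ((QB n l0 ω (C e) a b).map Θ).eval (MvPolynomial.C τ) = 0 := by
    rw [QB_map, QV, Q3, eval_add, eval_add, eval_mul, eval_mul, eval_mul, eval_mul, eval_pow,
      eval_pow, hroot, hev, hev, hev, map_C, aeval_C]
    have h1 := congrArg (MvPolynomial.C : K2 →+* A) hξ
    rw [map_add, map_add, map_mul, map_mul, map_pow, map_zero] at h1
    linear_combination ((∏ l ∈ Finset.univ.erase l0, polA fun j =>
        cv (fun j => Θ (MvPolynomial.C (ω j))) (fun q => Θ (MvPolynomial.X q)) ⟨l, j⟩).eval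
          (MvPolynomial.C τ : A)) ^ 2 * h1
  apply hcs
  have h2 := congrArg (eval (algebraMap A F (MvPolynomial.C τ))) heq
  have hL : (c.map (((algebraMap A F).comp Θ).comp MvPolynomial.C)).eval
      (algebraMap A F (MvPolynomial.C τ)) =
      algebraMap A F (MvPolynomial.C (aeval τ (c.map (algebraMap O k)))) := by
    rw [RingHom.comp_assoc, eval_two, hev]
  have hR : ((QB n l0 ω (C e) a b).map ((algebraMap A F).comp Θ)).eval
      (algebraMap A F (MvPolynomial.C τ)) = 0 := by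
    rw [eval_two, hQ0, map_zero]
  rw [eval_mul, hR, zero_mul, eval_sub, eval_pow, hL, sub_eq_zero] at h2
  exact sq_frac (F := F) (Λ := (Σ l : Fin u, Fin (n l + 1)) × J)
    ⟨eval (algebraMap A F (MvPolynomial.C τ)) w, by rw [← h2, pow_two]⟩

end hno

section nf

variable {k : Type} [Field k] [NumberField k] {J : Type} [Fintype J] (ω : Module.Basis J ℤ (𝓞 k))
  {u : ℕ} {n : Fin u → ℕ}

/-- the other factors -/
noncomputable abbrev Mp (l0 : Fin u) (x : (Σ l : Fin u, Fin (n l + 1)) × J → ℤ) : k[X] :=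
  ∏ l ∈ Finset.univ.erase l0, Dp ω x l

/-- the hypotheses on `E` -/
structure Hyp0 (n : Fin u → ℕ) (l0 : Fin u) (a b : k[X]) : Prop where
  da : a.natDegree + (∑ l ∈ Finset.univ.erase l0, n l) < n l0
  db : b.natDegree + 2 * (∑ l ∈ Finset.univ.erase l0, n l) < 2 * n l0
  nb : ¬ IsSquare b
  nd : ¬ IsSquare (a ^ 2 - 4 * b)
  nbd : ¬ IsSquare (b * (a ^ 2 - 4 * b))

/-- integral models -/
theorem int_model2 (a b : k[X]) : ∃ (e : 𝓞 k) (a' b' : (𝓞 k)[X]), algebraMap (𝓞 k) k e ≠ 0 ∧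
    a'.map (algebraMap (𝓞 k) k) = C (algebraMap (𝓞 k) k e) * a ∧
    b'.map (algebraMap (𝓞 k) k) = C (algebraMap (𝓞 k) k e) * b := by
  have key : ∀ f : k[X], ∃ (d : 𝓞 k) (q : (𝓞 k)[X]), algebraMap (𝓞 k) k d ≠ 0 ∧
      q.map (algebraMap (𝓞 k) k) = C (algebraMap (𝓞 k) k d) * f := by
    intro f
    obtain ⟨d, hd, hd'⟩ := IsLocalization.integerNormalization_spec (nonZeroDivisors (𝓞 k)) f
    refine ⟨d, IsLocalization.integerNormalization (nonZeroDivisors (𝓞 k)) f, ?_, ?_⟩
    · rw [Ne, FaithfulSMul.algebraMap_eq_zero_iff]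
      exact nonZeroDivisors.ne_zero hd
    · rw [hd']
      ext i
      rw [coeff_smul, coeff_C_mul, Algebra.smul_def]
  obtain ⟨d1, a1, hd1, ha1⟩ := key a
  obtain ⟨d2, b1, hd2, hb1⟩ := key b
  refine ⟨d1 * d2, C d2 * a1, C d1 * b1, ?_, ?_, ?_⟩
  · rw [map_mul]
    exact mul_ne_zero hd1 hd2
  · rw [Polynomial.map_mul, map_C, ha1, map_mul, C_mul]
    ring
  · rw [Polynomial.map_mul, map_C, hb1, map_mul, C_mul]
    ring

/-- the form, for the parameters -/
theorem QV_kv {l0 : Fin u} {a b : k[X]} {e : 𝓞 k} {a' b' : (𝓞 k)[X]}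
    (ha : a'.map (algebraMap (𝓞 k) k) = C (algebraMap (𝓞 k) k e) * a)
    (hb : b'.map (algebraMap (𝓞 k) k) = C (algebraMap (𝓞 k) k e) * b)
    (x : (Σ l : Fin u, Fin (n l + 1)) × J → ℤ) :
    QV n l0 (C e) a' b' (algebraMap (𝓞 k) k)
      (cv (fun j => algebraMap (𝓞 k) k (ω j)) fun q => (x q : k)) =
      C (algebraMap (𝓞 k) k e) * Qf a b (Dp ω x l0) (Mp ω l0 x) := by
  have hkv : (cv (fun j => algebraMap (𝓞 k) k (ω j)) fun q => (x q : k)) = kv ω x := by
    have := cv_kv (K := k) ω x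
    funext i
    have h3 := congrFun this i
    simp only [Algebra.algebraMap_self, RingHom.id_apply] at h3
    exact h3
  rw [hkv, QV, Q3, ha, hb, map_C, Qf]
  ring

theorem Hyp0.fh {l0 : Fin u} {a b : k[X]} (H : Hyp0 n l0 a b) {e : 𝓞 k} {a' b' : (𝓞 k)[X]}
    (he : algebraMap (𝓞 k) k e ≠ 0)
    (ha : a'.map (algebraMap (𝓞 k) k) = C (algebraMap (𝓞 k) k e) * a)
    (hb : b'.map (algebraMap (𝓞 k) k) = C (algebraMap (𝓞 k) k e) * b) :
    Fh n l0 k e a' b' := by
  have hinj : Function.Injective (algebraMap (𝓞 k) k) := FaithfulSMul.algebraMap_injective _ _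
  have had : a'.natDegree = a.natDegree := by
    rw [← natDegree_map_eq_of_injective hinj, ha, natDegree_C_mul he]
  have hbd : b'.natDegree = b.natDegree := by
    rw [← natDegree_map_eq_of_injective hinj, hb, natDegree_C_mul he]
  have h1 := H.da
  refine ⟨he, by omega, by rw [had]; exact H.da, by rw [hbd]; exact H.db, ?_⟩
  rw [ha, hb]
  intro hs
  apply H.nd
  refine sq_mul_sq he ?_
  have e1 : (C (algebraMap (𝓞 k) k e) * a) ^ 2 - 4 * (C (algebraMap (𝓞 k) k e) *
      (C (algebraMap (𝓞 k) k e) * b)) = C (algebraMap (𝓞 k) k e) ^ 2 * (a ^ 2 - 4 * b) := by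
    ring
  rw [e1] at hs
  exact hs

/-- the degree of the value of the form -/
theorem Qf_deg {l0 : Fin u} {a b : k[X]} (H : Hyp0 n l0 a b)
    {x : (Σ l : Fin u, Fin (n l + 1)) × J → ℤ} (hx : (Dp ω x l0).natDegree = n l0) :
    (Qf a b (Dp ω x l0) (Mp ω l0 x)).natDegree = 2 * n l0 := by
  have h1 := H.da
  have h2 := H.db
  have hM : (Mp ω l0 x).natDegree ≤ ∑ l ∈ Finset.univ.erase l0, n l :=
    (natDegree_prod_le _ _).trans (Finset.sum_le_sum fun l _ => polA_natDegree _)
  have h3 : (Dp ω x l0 ^ 2).natDegree = 2 * n l0 := by rw [natDegree_pow, hx]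
  have h4 : (a * Dp ω x l0 * Mp ω l0 x + b * Mp ω l0 x ^ 2).natDegree < 2 * n l0 := by
    refine lt_of_le_of_lt (natDegree_add_le _ _) (max_lt ?_ ?_)
    · refine lt_of_le_of_lt natDegree_mul_le ?_
      have := natDegree_mul_le (p := a) (q := Dp ω x l0)
      omega
    · refine lt_of_le_of_lt natDegree_mul_le ?_
      have := natDegree_pow_le (p := Mp ω l0 x) (n := 2)
      omega
  rw [Qf, add_assoc, natDegree_add_eq_left_of_natDegree_lt (by rw [h3]; exact h4), h3]

theorem omega_ne {j0 : J} : ω j0 ≠ 0 := ω.ne_zero j0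

/-- **Almost all values of the form are irreducible.** -/
theorem dens_irrQ (l0 : Fin u) {a b : k[X]} (H : Hyp0 n l0 a b) :
    D0 {x : (Σ l : Fin u, Fin (n l + 1)) × J → ℤ |
      ¬ Irreducible (Qf a b (Dp ω x l0) (Mp ω l0 x))} := by
  classical
  obtain ⟨e, a', b', he, ha, hb⟩ := int_model2 a b
  have HF := H.fh he ha hb
  have hO : Function.Injective (algebraMap (𝓞 k) k) := FaithfulSMul.algebraMap_injective _ _
  let F := FractionRing (MvPolynomial ((Σ l : Fin u, Fin (n l + 1)) × J) k)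
  let Θ : MvPolynomial ((Σ l : Fin u, Fin (n l + 1)) × J) (𝓞 k) →+* F :=
    (algebraMap (MvPolynomial ((Σ l : Fin u, Fin (n l + 1)) × J) k) F).comp
      (MvPolynomial.map (algebraMap (𝓞 k) k))
  have hΘ : Function.Injective Θ := thF_inj hO
  have hirrF : Irreducible ((QB n l0 ω (C e) a' b').map Θ) := by
    have h1 := irr_gen ω HF (F := F)
    rw [QA, Polynomial.map_map] at h1
    exact h1
  have hQBd : (QB n l0 ω (C e) a' b').natDegree = 2 * n l0 := QB_deg ω hO HF
  have hn0 := HF.n0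
  have hQB0 : QB n l0 ω (C e) a' b' ≠ 0 := by
    intro h
    rw [h, natDegree_zero] at hQBd
    omega
  have hQFd : ((QB n l0 ω (C e) a' b').map Θ).natDegree = 2 * n l0 := by
    rw [natDegree_map_eq_of_injective hΘ, hQBd]
  have hD : ∀ i ∈ Finset.Ico 1 (2 * n l0), D0 {x : (Σ l : Fin u, Fin (n l + 1)) × J → ℤ |
      ∃ (K : Type) (_ : Field K) (_ : NumberField K)
      (σ : 𝓞 k →+* K) (g : Fin i → K) (h : Fin (2 * n l0 + 1) → K),
      Module.finrank ℚ K ≤ Fintype.card J ∧
      pm g * pl h = QV n l0 (C e) a' b' σ (cv (fun j => σ (ω j)) fun q => (x q : K))} := by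
    intro i hi
    rw [Finset.mem_Ico] at hi
    refine dens1 n l0 ω (C e) a' b' i (2 * n l0 + 1) Θ hΘ hQB0 ?_
    intro g h hgh
    have hg : (pm g).natDegree = i := pm_natDegree g
    have hgnu : ¬ IsUnit (pm g) := by
      intro hu
      have := natDegree_eq_zero_of_isUnit hu
      omega
    have hhu : IsUnit (pl h) := (hirrF.isUnit_or_isUnit hgh.symm).resolve_left hgnu
    have h1 := natDegree_eq_zero_of_isUnit hhu
    have h2 : (pm g * pl h).natDegree = i := by
      rw [natDegree_mul (pm_monic g).ne_zero hhu.ne_zero, hg, h1, add_zero]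
    rw [hgh, hQFd] at h2
    omega
  have h1 := D0.biUnion _ _ hD
  have h2 := dens_top (n := n) ω l0
  intro ε hε
  refine ((h1.union h2) ε hε).mono ?_
  intro x hx
  by_contra hcon
  simp only [Set.mem_union, not_or, Set.mem_iUnion, exists_prop, not_exists, not_and,
    Set.mem_setOf_eq, not_not] at hcon
  obtain ⟨c1, c2⟩ := hcon
  apply hx
  have hDd : (Dp ω x l0).natDegree = n l0 := (lead_polA (c := fun j => kv ω x ⟨l0, j⟩) c2).1
  set Q := Qf a b (Dp ω x l0) (Mp ω l0 x) with hQ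
  have hQd : Q.natDegree = 2 * n l0 := Qf_deg ω H hDd
  have hQ0 : Q ≠ 0 := by
    intro h
    rw [h, natDegree_zero] at hQd
    omega
  refine ⟨fun hu => ?_, fun f g hfg => ?_⟩
  · have := natDegree_eq_zero_of_isUnit hu
    omega
  · by_contra hcon
    rw [not_or] at hcon
    have hf0 : f ≠ 0 := fun h => hQ0 (by rw [hfg, h, zero_mul])
    have hg0 : g ≠ 0 := fun h => hQ0 (by rw [hfg, h, mul_zero])
    have hfd : 0 < f.natDegree := by
      rw [Nat.pos_iff_ne_zero]
      intro h0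
      apply hcon.1
      rw [eq_C_of_natDegree_eq_zero h0] at hf0 ⊢
      exact isUnit_C.2 (isUnit_iff_ne_zero.2 (C_ne_zero.1 hf0))
    have hgd : 0 < g.natDegree := by
      rw [Nat.pos_iff_ne_zero]
      intro h0
      apply hcon.2
      rw [eq_C_of_natDegree_eq_zero h0] at hg0 ⊢
      exact isUnit_C.2 (isUnit_iff_ne_zero.2 (C_ne_zero.1 hg0))
    have hsum : f.natDegree + g.natDegree = 2 * n l0 := by
      rw [← natDegree_mul hf0 hg0, ← hfg, hQd]
    have hl : f.leadingCoeff ≠ 0 := leadingCoeff_ne_zero.2 hf0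
    set f' : k[X] := C f.leadingCoeff⁻¹ * f with hf'
    have hf'm : f'.Monic := by
      rw [hf', Monic, leadingCoeff_mul, leadingCoeff_C, inv_mul_cancel₀ hl]
    have hf'd : f'.natDegree = f.natDegree := natDegree_C_mul (inv_ne_zero hl)
    set g' : k[X] := C (algebraMap (𝓞 k) k e * f.leadingCoeff) * g with hg'
    have hg'd : g'.natDegree < 2 * n l0 + 1 := by
      have h3 : g'.natDegree = g.natDegree := natDegree_C_mul (mul_ne_zero he hl)
      omega
    refine c1 f'.natDegree (Finset.mem_Ico.2 ⟨by omega, by omega⟩) k inferInstance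
      inferInstance (algebraMap (𝓞 k) k) (fun j => f'.coeff j) (fun j => g'.coeff j) ?_ ?_
    · rw [card_J ω]
    · rw [← eq_pm hf'm, ← eq_pl hg'd, QV_kv ω ha hb, ← hQ, hf', hg', hfg]
      have e1 : (C f.leadingCoeff⁻¹ : k[X]) * C f.leadingCoeff = 1 := by
        rw [← C_mul, inv_mul_cancel₀ hl, C_1]
      rw [C_mul]
      linear_combination (C (algebraMap (𝓞 k) k e) * f * g) * e1

/-- **A nonsquare polynomial is not a square modulo almost all values of the form.** -/
theorem dens_sqQ (l0 : Fin u) {a b : k[X]} (H : Hyp0 n l0 a b) :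
    D0 {x : (Σ l : Fin u, Fin (n l + 1)) × J → ℤ |
      SqMod (Qf a b (Dp ω x l0) (Mp ω l0 x)) b} := by
  classical
  obtain ⟨e, a', b', he, ha, hb⟩ := int_model2 a b
  have HF := H.fh he ha hb
  have hO : Function.Injective (algebraMap (𝓞 k) k) := FaithfulSMul.algebraMap_injective _ _
  obtain ⟨j0⟩ := exJ ω
  have hn0 := HF.n0
  set c' : (𝓞 k)[X] := C e * b' with hc'
  have hck : c'.map (algebraMap (𝓞 k) k) = C (algebraMap (𝓞 k) k e) ^ 2 * b := by
    rw [hc', Polynomial.map_mul, hb, map_C]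
    ring
  obtain ⟨A, B, Δ, hΔ, hAB⟩ := sep_gen ω hO HF
  obtain ⟨F, _, Θ, hΘ, hno⟩ := no_sol n l0 ω hO (c := c') HF (omega_ne ω (j0 := j0)) (by
    rw [hck]
    exact fun h => H.nb (sq_mul_sq he h)) (by
    rw [hck, ha, hb]
    intro h
    apply H.nbd
    refine sq_mul_sq he (sq_mul_sq he ?_)
    have e1 : C (algebraMap (𝓞 k) k e) ^ 2 * b * ((C (algebraMap (𝓞 k) k e) * a) ^ 2 - 4 *
        (C (algebraMap (𝓞 k) k e) * (C (algebraMap (𝓞 k) k e) * b))) =
        C (algebraMap (𝓞 k) k e) ^ 2 * (C (algebraMap (𝓞 k) k e) ^ 2 *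
          (b * (a ^ 2 - 4 * b))) := by ring
    rw [e1] at h
    exact h)
  set m := 4 * n l0 + c'.natDegree + 1 with hm
  have hD := dens2 n l0 ω (C e) a' b' c' (2 * n l0) m (by omega) Θ hΘ (QB_deg ω hO HF) A B Δ hΔ
    hAB (fun w h => hno (pl w) (pl h))
  have h2 := dens_top (n := n) ω l0
  intro ε hε
  refine ((hD.union h2) ε hε).mono ?_
  rintro x ⟨z, hz⟩
  by_contra hcon
  simp only [Set.mem_union, not_or, Set.mem_setOf_eq, not_not] at hcon
  obtain ⟨c1, c2⟩ := hcon
  apply c1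
  have hDd : (Dp ω x l0).natDegree = n l0 := (lead_polA (c := fun j => kv ω x ⟨l0, j⟩) c2).1
  set Q := Qf a b (Dp ω x l0) (Mp ω l0 x) with hQ
  have hQd : Q.natDegree = 2 * n l0 := Qf_deg ω H hDd
  have hQ0 : Q ≠ 0 := by
    intro h
    rw [h, natDegree_zero] at hQd
    omega
  set ek := algebraMap (𝓞 k) k e with hek
  set w := (C ek * z) % Q with hw
  have hwd : w.natDegree < 2 * n l0 := by
    by_cases hw0 : w = 0
    · rw [hw0, natDegree_zero]
      omega
    · rw [← hQd]
      exact natDegree_lt_natDegree hw0 (EuclideanDomain.mod_lt _ hQ0)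
  have hdv : Q ∣ w ^ 2 - C ek ^ 2 * b := by
    have e2 := EuclideanDomain.div_add_mod (C ek * z) Q
    have e3 : w = C ek * z - Q * ((C ek * z) / Q) := by
      rw [hw]
      linear_combination e2
    obtain ⟨t, ht⟩ := hz
    refine ⟨C ek ^ 2 * t - ((C ek * z) / Q) * (2 * (C ek * z) - Q * ((C ek * z) / Q)), ?_⟩
    rw [e3]
    linear_combination (C ek ^ 2) * ht
  obtain ⟨h, hh⟩ := hdv
  set h' : k[X] := C ek⁻¹ * h with hh'
  have hh'd : h'.natDegree < m := by
    have h1 : h'.natDegree ≤ h.natDegree := natDegree_C_mul_le _ _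
    by_cases h0 : h = 0
    · rw [h0, natDegree_zero] at h1
      omega
    · have h3 : h.natDegree ≤ (Q * h).natDegree := by
        rw [natDegree_mul hQ0 h0]
        omega
      rw [← hh] at h3
      have h4 : (w ^ 2 - C ek ^ 2 * b).natDegree ≤ 4 * n l0 + c'.natDegree := by
        refine (natDegree_sub_le _ _).trans (max_le ?_ ?_)
        · refine natDegree_pow_le.trans ?_
          omega
        · rw [← hck]
          exact natDegree_map_le.trans (by omega)
      omega
  refine ⟨k, inferInstance, inferInstance, algebraMap (𝓞 k) k, fun j => w.coeff j,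
    fun j => h'.coeff j, ?_, ?_⟩
  · rw [card_J ω]
  · rw [← eq_pl hwd, ← eq_pl hh'd, QV_kv ω ha hb, ← hQ, hck, hh, hh']
    have e1 : (C ek : k[X]) * C ek⁻¹ = 1 := by
      rw [← C_mul, mul_inv_cancel₀ he, C_1]
    linear_combination (-(Q * h)) * e1

end nf

end Pool.Agent.Helper55.PR
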