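import Pool.Graph.R_seed8.R939.PP.Star

/-!
# Irreducible compositions with monic integral polynomials of odd degree, for polynomials whose
leading coefficient has valuation two
-/

set_option autoImplicit false
set_option linter.all false

namespace Pool.Agent.Helper55.PR

open Polynomial NumberField IsLocalRing Pool.Agent.R939.PP

section norm

variable {R : Type} [CommRing R] [IsDomain R]

/-- the polynomial `h(X) - Y` -/
noncomputable def hY (h : R[X]) : R[X][X] := h.map C - C X

/-- the norm from `R[X]` to `R[Y]`, `Y = h(X)` -/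
noncomputable def Nm (h g : R[X]) : R[X] :=
  resultant (g.map C) (hY h) g.natDegree h.natDegree

theorem hY_monic {h : R[X]} (hh : h.Monic) (hd : h.natDegree ≠ 0) :
    (hY h).Monic ∧ (hY h).natDegree = h.natDegree := by
  have h1 : (h.map (C : R →+* R[X])).Monic := hh.map C
  have h2 : (h.map (C : R →+* R[X])).natDegree = h.natDegree := hh.natDegree_map _
  have h3 : (C X : R[X][X]).degree < (h.map (C : R →+* R[X])).degree := by
    rw [degree_C X_ne_zero, degree_eq_natDegree h1.ne_zero, h2]
    exact_mod_cast Nat.pos_of_ne_zero hd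
  refine ⟨h1.sub_of_left h3, ?_⟩
  rw [hY, natDegree_sub_C, h2]

theorem Nm_mul {h : R[X]} (hh : h.Monic) (hd : h.natDegree ≠ 0) {f g : R[X]} (hf : f ≠ 0)
    (hg : g ≠ 0) : Nm h (f * g) = Nm h f * Nm h g := by
  have hm := (hY_monic hh hd).2
  have e1 : ∀ p : R[X], (p.map (C : R →+* R[X])).natDegree = p.natDegree := fun p =>
    natDegree_map_eq_of_injective C_injective p
  have h1 := resultant_mul_left (f.map C) (g.map C) (hY h) h.natDegree hm.le
  rw [e1, e1] at h1
  rw [Nm, Nm, Nm, Polynomial.map_mul, natDegree_mul hf hg, h1]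

/-- the norm of an element of the base -/
theorem Nm_comp {h : R[X]} (hh : h.Monic) (hd : h.natDegree ≠ 0) (f : R[X]) :
    ∃ ε : ℕ, Nm h (f.comp h) = (-1) ^ ε * f ^ h.natDegree := by
  obtain ⟨hm, hmd⟩ := hY_monic hh hd
  -- the division
  have hdv : hY h ∣ (f.comp h).map C - C f := by
    have h1 : (f.comp h).map (C : R →+* R[X]) = (f.map C).comp (h.map C) := map_comp _ _ _
    have h2 : C f = (f.map (C : R →+* R[X])).comp (C X) := by
      have h3 : (f.map (C : R →+* R[X])).comp (C X) = C ((f.map (C : R →+* R[X])).eval X) := by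
        rw [comp, eval₂_at_apply]
      rw [h3, eval_map, eval₂_C_X]
    rw [h1, h2, comp, comp, ← eval_map, ← eval_map]
    exact sub_dvd_eval_sub _ _ _
  obtain ⟨q, hq⟩ := hdv
  have hq' : (f.comp h).map C = C f + hY h * q := by rw [← hq]; ring
  have hqd : q.natDegree + h.natDegree ≤ (f.comp h).natDegree ∨ q = 0 := by
    by_cases hq0 : q = 0
    · exact Or.inr hq0
    · left
      have h1 : (hY h * q).natDegree = h.natDegree + q.natDegree := by
        rw [hm.natDegree_mul' hq0, hmd]
      have h2 : (hY h * q).natDegree ≤ (f.comp h).natDegree := by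
        rw [← hq]
        refine (natDegree_sub_le _ _).trans (max_le natDegree_map_le ?_)
        rw [natDegree_C]
        exact Nat.zero_le _
      omega
  refine ⟨(f.comp h).natDegree * h.natDegree, ?_⟩
  rw [Nm, hq']
  have key : resultant (C f + hY h * q) (hY h) (f.comp h).natDegree h.natDegree =
      resultant (C f) (hY h) (f.comp h).natDegree h.natDegree := by
    rcases hqd with h1 | h1
    · exact resultant_add_mul_left _ _ _ _ _ h1 hmd.le
    · rw [h1, mul_zero, add_zero]
  rw [key, resultant_C_left]
  have h3 : (hY h).coeff h.natDegree = 1 := by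
    rw [← hmd]
    exact hm
  rw [h3, one_pow, mul_one]

/-- the leading coefficient of the norm -/
theorem Nm_lead {h : R[X]} (hh : h.Monic) (hd : h.natDegree ≠ 0) (g : R[X]) :
    ∃ ε : ℕ, (Nm h g).leadingCoeff = (-1) ^ ε * g.leadingCoeff ^ h.natDegree := by
  classical
  let W := AlgebraicClosure (FractionRing R)
  let φ : R →+* W := (algebraMap (FractionRing R) W).comp (algebraMap R (FractionRing R))
  have hφ : Function.Injective φ :=
    (algebraMap (FractionRing R) W).injective.comp (IsFractionRing.injective _ _)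
  have hsp : (g.map φ).Splits := IsAlgClosed.splits _
  have hsp' : ((g.map φ).map (C : W →+* W[X])).Splits := hsp.map C
  have hhd : (h.map φ).natDegree = h.natDegree := hh.natDegree_map _
  have hm := hY_monic (hh.map φ) (by rw [hhd]; exact hd)
  have hcm : ∀ p : R[X], (p.map (C : R →+* R[X])).map (mapRingHom φ) =
      (p.map φ).map (C : W →+* W[X]) := by
    intro p
    rw [Polynomial.map_map, Polynomial.map_map]
    congr 1
    ext x
    simp
  have e1 : (Nm h g).map φ = resultant ((g.map φ).map C) (hY (h.map φ)) g.natDegree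
      h.natDegree := by
    have h1 := resultant_map_map (g.map C) (hY h) g.natDegree h.natDegree (mapRingHom φ)
    rw [Nm, ← coe_mapRingHom, ← h1]
    congr 1
    · exact hcm g
    · rw [hY, hY, Polynomial.map_sub, map_C, coe_mapRingHom, map_X]
      congr 1
      exact hcm h
  have hgd : ((g.map φ).map (C : W →+* W[X])).natDegree = g.natDegree := by
    rw [natDegree_map_eq_of_injective C_injective, natDegree_map_eq_of_injective hφ]
  have h2 := resultant_eq_prod_eval ((g.map φ).map (C : W →+* W[X])) (hY (h.map φ)) h.natDegree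
    (by rw [hm.2, hhd]) hsp'
  rw [hgd, ← e1] at h2
  refine ⟨Multiset.card (((g.map φ).map (C : W →+* W[X])).roots), ?_⟩
  apply hφ
  rw [← leadingCoeff_map_of_injective hφ, h2, leadingCoeff_mul, leadingCoeff_pow,
    leadingCoeff_map_of_injective C_injective, leadingCoeff_C, leadingCoeff_map_of_injective hφ,
    leadingCoeff_multiset_prod, Multiset.map_map]
  have h3 : ((g.map φ).map (C : W →+* W[X])).roots = (g.map φ).roots.map C := by
    exact hsp.roots_map C
  rw [h3, Multiset.map_map, Multiset.card_map]
  have h4 : (Multiset.map ((leadingCoeff ∘ fun x => eval x (hY (h.map φ))) ∘ (C : W →+* W[X]))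
      (g.map φ).roots) = Multiset.replicate (Multiset.card (g.map φ).roots) (-1) := by
    rw [Multiset.eq_replicate]
    refine ⟨Multiset.card_map _ _, ?_⟩
    intro x hx
    obtain ⟨y, -, rfl⟩ := Multiset.mem_map.1 hx
    simp only [Function.comp_apply]
    rw [hY, eval_sub, eval_C, eval_map, eval₂_at_apply]
    have h5 : (C (eval y (h.map φ)) - X : W[X]) = -(X - C (eval y (h.map φ))) := by ring
    rw [h5, leadingCoeff_neg, leadingCoeff_X_sub_C]
  rw [h4, Multiset.prod_replicate, map_mul, map_pow, map_pow, map_neg, map_one, mul_comm]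

end norm

section dvr

variable {R K : Type} [CommRing R] [IsDomain R] [IsDiscreteValuationRing R] [Field K] [Algebra R K]
  [IsFractionRing R K]

theorem star2_dvr {f h : R[X]} (hirr : Irreducible (f.map (algebraMap R K))) {π : R}
    (hπ : Irreducible π) {u : R} (hu : IsUnit u) (h1 : f.leadingCoeff = u * π ^ 2) {j : ℕ}
    (h3 : f.coeff j ∉ maximalIdeal R) (hh : h.Monic) (hodd : Odd h.natDegree) :
    Irreducible ((f.comp h).map (algebraMap R K)) := by
  have hd : h.natDegree ≠ 0 := hodd.pos.ne'
  have hinj := IsFractionRing.injective R K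
  have hπm : π ∈ maximalIdeal R := (mem_maximalIdeal π).2 hπ.not_isUnit
  have hlm : f.leadingCoeff ∈ maximalIdeal R := by
    rw [h1]
    exact Ideal.mul_mem_left _ _ (Ideal.pow_mem_of_mem _ hπm 2 (by norm_num))
  have hfd : f.natDegree ≠ 0 := by
    intro h0
    have h4 : (f.map (algebraMap R K)).natDegree = 0 := by
      rw [natDegree_map_eq_of_injective hinj, h0]
    have h5 := Irreducible.natDegree_pos hirr
    omega
  have hlead : (f.comp h).leadingCoeff = f.leadingCoeff := by
    rw [leadingCoeff_comp hd, hh.leadingCoeff, one_pow, mul_one]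
  have hprimf : f.IsPrimitive := by
    intro r hr
    by_contra hcon
    have hr1 : r ∈ maximalIdeal R := (mem_maximalIdeal r).2 hcon
    obtain ⟨q, hq⟩ := hr
    apply h3
    rw [hq, coeff_C_mul]
    exact Ideal.mul_mem_right _ _ hr1
  have hfirr : Irreducible f :=
    (hprimf.irreducible_iff_irreducible_map_fraction_map (K := K)).2 hirr
  have hfp : Prime f := hfirr.prime
  have hprim : (f.comp h).IsPrimitive := by
    intro r hr
    by_contra hcon
    have hr1 : r ∈ maximalIdeal R := (mem_maximalIdeal r).2 hcon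
    have h4 : (f.comp h).map (residue R) = 0 := by
      obtain ⟨q, hq⟩ := hr
      rw [hq, Polynomial.map_mul, map_C, (residue_eq_zero_iff r).2 hr1, C_0, zero_mul]
    rw [map_comp] at h4
    have h5 : (f.map (residue R)) ≠ 0 := by
      intro h0
      have h6 := congrArg (fun q => q.coeff j) h0
      simp only [coeff_map, coeff_zero] at h6
      exact h3 ((residue_eq_zero_iff _).1 h6)
    have h6 := hh.map (residue R)
    have h7 : (h.map (residue R)).natDegree ≠ 0 := by
      rw [hh.natDegree_map]
      exact hd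
    have h8 : ((f.map (residue R)).comp (h.map (residue R))).leadingCoeff ≠ 0 := by
      rw [leadingCoeff_comp h7, h6.leadingCoeff, one_pow, mul_one, Ne, leadingCoeff_eq_zero]
      exact h5
    apply h8
    rw [h4, leadingCoeff_zero]
  rw [← hprim.irreducible_iff_irreducible_map_fraction_map]
  refine ⟨?_, ?_⟩
  · intro hu
    have h4 := natDegree_eq_zero_of_isUnit hu
    rw [natDegree_comp] at h4
    exact (mul_ne_zero hfd hd) h4
  · intro G G' hGG
    have h4 : G.leadingCoeff * G'.leadingCoeff = u * π ^ 2 := by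
      rw [← leadingCoeff_mul, ← hGG, hlead, h1]
    have hcst : ∀ q : R[X], IsUnit q.leadingCoeff → q.natDegree = 0 → IsUnit q := by
      intro q hq hq0
      rw [eq_C_of_natDegree_eq_zero hq0]
      rw [leadingCoeff, hq0] at hq
      exact isUnit_C.2 hq
    by_cases hG : IsUnit G.leadingCoeff
    · left
      by_contra hcon
      exact no_unit_factor hirr hlm h3 hGG hG fun h0 => hcon (hcst G hG h0)
    by_cases hG' : IsUnit G'.leadingCoeff
    · right
      by_contra hcon
      exact no_unit_factor hirr hlm h3 (hGG.trans (mul_comm _ _)) hG' fun h0 =>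
        hcon (hcst G' hG' h0)
    exfalso
    -- both leading coefficients are uniformisers
    have hdv : ∀ z : R, ¬ IsUnit z → π ∣ z := by
      intro z hz
      have h5 : z ∈ maximalIdeal R := (mem_maximalIdeal z).2 hz
      rw [hπ.maximalIdeal_eq] at h5
      exact Ideal.mem_span_singleton.1 h5
    obtain ⟨s, hs⟩ := hdv _ hG
    obtain ⟨s', hs'⟩ := hdv _ hG'
    have hss : s * s' = u := by
      apply mul_right_cancel₀ (pow_ne_zero 2 hπ.ne_zero)
      rw [← h4, hs, hs']
      ring
    have hsu : IsUnit s := isUnit_of_mul_isUnit_left (by rw [hss]; exact hu)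
    have hfh0 : f.comp h ≠ 0 := by
      intro h0
      rw [← leadingCoeff_eq_zero, hlead, h1] at h0
      exact mul_ne_zero hu.ne_zero (pow_ne_zero 2 hπ.ne_zero) h0
    have hG0 : G ≠ 0 := fun h0 => hfh0 (by rw [hGG, h0, zero_mul])
    have hG'0 : G' ≠ 0 := fun h0 => hfh0 (by rw [hGG, h0, mul_zero])
    obtain ⟨ε, hε⟩ := Nm_comp hh hd f
    rw [hGG, Nm_mul hh hd hG0 hG'0] at hε
    have hdvd : Nm h G ∣ f ^ h.natDegree := by
      have h5 : Nm h G ∣ (-1) ^ ε * f ^ h.natDegree := ⟨_, hε.symm⟩
      have h6 : IsUnit ((-1 : R[X]) ^ ε) := (isUnit_one.neg).pow ε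
      rwa [h6.dvd_mul_left] at h5
    obtain ⟨r, -, hr⟩ := (dvd_prime_pow hfp _).1 hdvd
    obtain ⟨ε', hε'⟩ := Nm_lead hh hd G
    obtain ⟨w, hw⟩ := hr
    have hwl : IsUnit ((w : R[X]).leadingCoeff) := by
      obtain ⟨c, hc, hcw⟩ := Polynomial.isUnit_iff.1 w.isUnit
      rw [← hcw, leadingCoeff_C]
      exact hc
    have h5 := congrArg leadingCoeff hw
    rw [leadingCoeff_mul, leadingCoeff_pow, hε', h1, hs] at h5
    -- compare the valuations
    have h6 : Associated (π ^ h.natDegree) (π ^ (2 * r)) := by
      have h7 : IsUnit ((-1 : R) ^ ε' * s ^ h.natDegree * (w : R[X]).leadingCoeff) :=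
        (((isUnit_one.neg).pow ε').mul (hsu.pow _)).mul hwl
      have h8 : IsUnit (u ^ r) := hu.pow r
      have h9 : π ^ h.natDegree * ((-1 : R) ^ ε' * s ^ h.natDegree * (w : R[X]).leadingCoeff) =
          π ^ (2 * r) * u ^ r := by
        rw [pow_mul]
        rw [mul_pow, mul_pow] at h5
        linear_combination h5
      exact (associated_mul_unit_right _ _ h7).trans ((Associated.of_eq h9).trans
        (associated_mul_unit_left _ _ h8))
    have h7 := (pow_dvd_pow_iff hπ.ne_zero hπ.not_isUnit).1 h6.dvd
    have h8 := (pow_dvd_pow_iff hπ.ne_zero hπ.not_isUnit).1 h6.symm.dvd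
    obtain ⟨t, ht⟩ := hodd
    omega

end dvr

section nf

variable {k : Type} [Field k] [NumberField k]

/-- **The criterion for leading coefficients of valuation two.** -/
theorem star2 {f h : (𝓞 k)[X]} (hirr : Irreducible (f.map (algebraMap (𝓞 k) k)))
    {P : Ideal (𝓞 k)} (hP : P.IsPrime) {δ γ : 𝓞 k} (h1 : f.leadingCoeff = δ * γ ^ 2) (hδ : δ ∉ P)
    (hγ : γ ∈ P) (hγ2 : γ ∉ P ^ 2)
    {j : ℕ} (h3 : f.coeff j ∉ P) (hh : h.Monic) (hodd : Odd h.natDegree) :
    Irreducible ((f.map (algebraMap (𝓞 k) k)).comp (h.map (algebraMap (𝓞 k) k))) := by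
  have hP0 : P ≠ ⊥ := by
    rintro rfl
    have : γ = 0 := hγ
    apply hγ2
    rw [this]
    exact Ideal.zero_mem _
  letI : Algebra (Localization.AtPrime P) k :=
    IsLocalization.localizationAlgebraOfSubmonoidLe (Localization.AtPrime P) k P.primeCompl
      (nonZeroDivisors (𝓞 k)) P.primeCompl_le_nonZeroDivisors
  haveI : IsScalarTower (𝓞 k) (Localization.AtPrime P) k :=
    IsLocalization.localization_isScalarTower_of_submonoid_le (Localization.AtPrime P) k
      P.primeCompl (nonZeroDivisors (𝓞 k)) P.primeCompl_le_nonZeroDivisors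
  haveI : IsFractionRing (Localization.AtPrime P) k :=
    IsFractionRing.isFractionRing_of_isDomain_of_isLocalization P.primeCompl
      (Localization.AtPrime P) k
  haveI : IsDiscreteValuationRing (Localization.AtPrime P) :=
    IsLocalization.AtPrime.isDiscreteValuationRing_of_dedekind_domain (𝓞 k) hP0 _
  set φ := algebraMap (𝓞 k) (Localization.AtPrime P) with hφ
  have hφi : Function.Injective φ :=
    IsLocalization.injective (Localization.AtPrime P) P.primeCompl_le_nonZeroDivisors
  have hmem : ∀ z : 𝓞 k, φ z ∈ maximalIdeal (Localization.AtPrime P) ↔ z ∈ P := fun z =>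
    IsLocalization.AtPrime.to_map_mem_maximal_iff (Localization.AtPrime P) P z
  have hmap : ∀ q : (𝓞 k)[X], (q.map φ).map (algebraMap (Localization.AtPrime P) k) =
      q.map (algebraMap (𝓞 k) k) := by
    intro q
    rw [Polynomial.map_map, ← IsScalarTower.algebraMap_eq]
  have hl : (f.map φ).leadingCoeff = φ f.leadingCoeff := leadingCoeff_map_of_injective hφi f
  have hγm2 : φ γ ∉ maximalIdeal (Localization.AtPrime P) ^ 2 := by
    intro h4
    have h5 : maximalIdeal (Localization.AtPrime P) = P.map φ :=
      (Localization.AtPrime.map_eq_maximalIdeal).symm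
    rw [h5, ← Ideal.map_pow, IsLocalization.mem_map_algebraMap_iff P.primeCompl] at h4
    obtain ⟨⟨⟨a, ha⟩, ⟨s, hs⟩⟩, h6⟩ := h4
    have h7 : γ * s = a := hφi (by rw [map_mul]; exact h6)
    have h8 : s * γ ∈ P ^ 2 := by
      rw [mul_comm, h7]
      exact ha
    rcases Ideal.IsPrime.mul_mem_pow P h8 with h9 | h9
    · exact hs h9
    · exact hγ2 h9
  have hπ : Irreducible (φ γ) := by
    obtain ⟨π, hπ⟩ := IsDiscreteValuationRing.exists_irreducible (Localization.AtPrime P)
    have h5 : φ γ ∈ maximalIdeal (Localization.AtPrime P) := (hmem γ).2 hγ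
    rw [hπ.maximalIdeal_eq, Ideal.mem_span_singleton] at h5
    obtain ⟨s, hs⟩ := h5
    have hsu : IsUnit s := by
      by_contra hcon
      apply hγm2
      rw [hs, sq]
      exact Ideal.mul_mem_mul ((mem_maximalIdeal _).2 hπ.not_isUnit) ((mem_maximalIdeal _).2 hcon)
    rw [hs]
    exact (irreducible_mul_isUnit hsu).2 hπ
  have hδu : IsUnit (φ δ) := by
    by_contra hcon
    exact hδ ((hmem δ).1 ((mem_maximalIdeal _).2 hcon))
  have key := star2_dvr (R := Localization.AtPrime P) (K := k) (f := f.map φ) (h := h.map φ)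
    (by rw [hmap]; exact hirr) hπ hδu (by rw [hl, h1, map_mul, map_pow]) (j := j)
    (by rw [coeff_map, hmem]; exact h3)
    (hh.map φ) (by rw [hh.natDegree_map]; exact hodd)
  rw [map_comp, hmap, hmap] at key
  exact key

end nf

end Pool.Agent.Helper55.PR
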