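import Pool.Agent.Helper55.PR.DensQ
import Pool.Agent.Helper55.PR.Star2

/-!
# Almost all twists with a section have rank one and satisfy the Tate conjecture at 2
-/

set_option autoImplicit false
set_option linter.all false

namespace Pool.Agent.Helper55.PR

open Polynomial NumberField Pool.Agent Pool.Agent.R939.EI Pool.Agent.R939.HI Pool.Agent.W275.UB
open Pool.Agent.TH115.GD Pool.Agent.H927R2.RD Pool.Agent.R939.PP Pool.Agent.Helper55.TT

section nf

variable {k : Type} [Field k] [NumberField k] {J : Type} [Fintype J] (ω : Module.Basis J ℤ (𝓞 k))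
  {u : ℕ} {n : Fin u → ℕ}

/-- All the compositions with a monic integral polynomial of odd degree are irreducible. -/
def OddIrr (f : k[X]) : Prop := Irreducible f ∧ ∀ g : (𝓞 k)[X], g.Monic → Odd g.natDegree →
  Irreducible (f.comp (g.map (algebraMap (𝓞 k) k)))

/-- the coefficient which is a unit -/
theorem coeff_quot {A : Type} [CommRing A] [IsDomain A] {N s : ℕ} {E a b G M : A[X]} {e γ : A}
    (hN : 1 ≤ N) (hE : E = C e) (he : e ≠ 0) (hG : G.natDegree ≤ N - 1) (hγ : G.coeff (N - 1) = γ)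
    (hγ0 : γ ≠ 0) (hM : M.natDegree ≤ s) (ha : a.natDegree + s + 1 < N)
    (hb : b.natDegree + 2 * s + 2 < 2 * N) : (Q3 E a b G M).coeff (2 * N - 2) ≠ 0 := by
  have h1 : (a * G * M).natDegree < 2 * N - 2 := by
    refine lt_of_le_of_lt natDegree_mul_le ?_
    have := natDegree_mul_le (p := a) (q := G)
    omega
  have h2 : (b * M ^ 2).natDegree < 2 * N - 2 := by
    refine lt_of_le_of_lt natDegree_mul_le ?_
    have := natDegree_pow_le (p := M) (n := 2)
    omega
  rw [Q3, coeff_add, coeff_add, coeff_eq_zero_of_natDegree_lt h1, coeff_eq_zero_of_natDegree_lt h2,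
    add_zero, add_zero, hE, coeff_C_mul]
  have h3 : (G ^ 2).coeff (2 * N - 2) = γ ^ 2 := by
    have h4 := coeff_pow_of_natDegree_le (m := 2) hG
    rw [hγ] at h4
    rw [show 2 * N - 2 = 2 * (N - 1) by omega]
    exact h4
  rw [h3]
  exact mul_ne_zero he (pow_ne_zero 2 hγ0)

/-- **Almost all values of the form remain irreducible after all the monic integral substitutions
of odd degree.** -/
theorem dens_oddIrr (l0 : Fin u) {a b : k[X]} (H : Hyp0 n l0 a b)
    (ha2 : a.natDegree + (∑ l ∈ Finset.univ.erase l0, n l) + 1 < n l0)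
    (hb2 : b.natDegree + 2 * (∑ l ∈ Finset.univ.erase l0, n l) + 2 < 2 * n l0) :
    D0 {x : (Σ l : Fin u, Fin (n l + 1)) × J → ℤ |
      ¬ OddIrr (Qf a b (Dp ω x l0) (Mp ω l0 x))} := by
  classical
  obtain ⟨e, a', b', he, ha, hb⟩ := int_model2 a b
  have hinj : Function.Injective (algebraMap (𝓞 k) k) := FaithfulSMul.algebraMap_injective _ _
  have he0 : e ≠ 0 := by
    rintro rfl
    rw [map_zero] at he
    exact he rfl
  have had : a'.natDegree = a.natDegree := by
    rw [← natDegree_map_eq_of_injective hinj, ha, natDegree_C_mul he]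
  have hbd : b'.natDegree = b.natDegree := by
    rw [← natDegree_map_eq_of_injective hinj, hb, natDegree_C_mul he]
  have hn1 : 1 ≤ n l0 := by omega
  let i1 : Fin (n l0 + 1) := ⟨n l0 - 1, by omega⟩
  have hne : (⟨l0, Fin.last (n l0)⟩ : Σ l : Fin u, Fin (n l + 1)) ≠ ⟨l0, i1⟩ := by
    intro h
    have h2 := (Sigma.mk.inj_iff.1 h).2
    have h3 := congrArg Fin.val (eq_of_heq h2)
    rw [Fin.val_last] at h3
    have h4 : (i1 : ℕ) = n l0 - 1 := rfl
    omega
  have hI : (Ideal.span {e} : Ideal (𝓞 k)) ≠ ⊥ := by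
    rw [Ne, Ideal.span_singleton_eq_bot]
    exact he0
  have hNe : Ideal.absNorm (Ideal.span {e}) ≠ 0 := by
    rw [Ne, Ideal.absNorm_eq_zero_iff]
    exact hI
  have h1 := dens_irrQ ω l0 H
  have h2 := simple_prime ω hne (Ideal.absNorm (Ideal.span {e}) + 1)
  have h3 := dens_top (n := n) ω l0
  intro ε hε
  refine (((h1.union h2).union h3) ε hε).mono ?_
  intro x hx
  by_contra hcon
  apply hx
  simp only [Set.mem_union, not_or, Set.mem_setOf_eq, not_not] at hcon
  obtain ⟨⟨c1, P, hP, hPT, hP1, hP2, hP3⟩, c3⟩ := hcon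
  refine ⟨c1, fun g hg hgo => ?_⟩
  have hDd := lead_polA (c := fun j => kv ω x ⟨l0, j⟩) c3
  set Q := Qf a b (Dp ω x l0) (Mp ω l0 x) with hQ
  have hQd : Q.natDegree = 2 * n l0 := Qf_deg ω H hDd.1
  -- the integral model
  let v : (Σ l : Fin u, Fin (n l + 1)) → 𝓞 k := fun i => elt ω fun t => x (i, t)
  set f : (𝓞 k)[X] := QV n l0 (C e) a' b' (RingHom.id (𝓞 k)) v with hf
  have hfm : f.map (algebraMap (𝓞 k) k) = C (algebraMap (𝓞 k) k e) * Q := by
    rw [← QV_kv ω ha hb, hf, QV_map, RingHom.comp_id]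
    congr 1
    have hkv : (cv (fun j => algebraMap (𝓞 k) k (ω j)) fun q => (x q : k)) = kv ω x := by
      have := cv_kv (K := k) ω x
      funext i
      have h3 := congrFun this i
      simp only [Algebra.algebraMap_self, RingHom.id_apply] at h3
      exact h3
    rw [hkv]
    rfl
  have hu : IsUnit (C (algebraMap (𝓞 k) k e) : k[X]) := isUnit_C.2 (isUnit_iff_ne_zero.2 he)
  have hfirr : Irreducible (f.map (algebraMap (𝓞 k) k)) := by
    rw [hfm]
    exact (irreducible_isUnit_mul hu).2 c1
  have hfd : f.natDegree = 2 * n l0 := by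
    rw [← natDegree_map_eq_of_injective hinj, hfm, natDegree_C_mul he, hQd]
  have hGd : (polA fun j => v ⟨l0, j⟩).natDegree ≤ n l0 := polA_natDegree _
  have hGc : ∀ i : Fin (n l0 + 1), (polA fun j => v ⟨l0, j⟩).coeff (i : ℕ) = v ⟨l0, i⟩ :=
    fun i => coeff_polA _ i
  have hMd : (∏ l ∈ Finset.univ.erase l0, polA fun j => v ⟨l, j⟩).natDegree ≤
      ∑ l ∈ Finset.univ.erase l0, n l :=
    (natDegree_prod_le _ _).trans (Finset.sum_le_sum fun l _ => polA_natDegree _)
  have hfl : f.leadingCoeff = e * v ⟨l0, Fin.last (n l0)⟩ ^ 2 := by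
    rw [leadingCoeff, hfd, hf, QV, Q3, Polynomial.map_id, Polynomial.map_id, Polynomial.map_id]
    have g1 : (a' * (polA fun j => v ⟨l0, j⟩) *
        ∏ l ∈ Finset.univ.erase l0, polA fun j => v ⟨l, j⟩).natDegree < 2 * n l0 := by
      refine lt_of_le_of_lt natDegree_mul_le ?_
      have := natDegree_mul_le (p := a') (q := polA fun j => v ⟨l0, j⟩)
      omega
    have g2 : (b' * (∏ l ∈ Finset.univ.erase l0, polA fun j => v ⟨l, j⟩) ^ 2).natDegree <
        2 * n l0 := by
      refine lt_of_le_of_lt natDegree_mul_le ?_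
      have := natDegree_pow_le (p := ∏ l ∈ Finset.univ.erase l0, polA fun j => v ⟨l, j⟩) (n := 2)
      omega
    rw [coeff_add, coeff_add, coeff_eq_zero_of_natDegree_lt g1, coeff_eq_zero_of_natDegree_lt g2,
      add_zero, add_zero, coeff_C_mul]
    have g3 := coeff_pow_of_natDegree_le (m := 2) hGd
    rw [g3]
    have g4 := hGc (Fin.last (n l0))
    rw [Fin.val_last] at g4
    rw [g4]
  have heP : e ∉ P := by
    intro h
    have g1 : Ideal.span {e} ≤ P := by
      rw [Ideal.span_singleton_le_iff_mem]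
      exact h
    have g2 := Nat.le_of_dvd (Nat.pos_of_ne_zero hNe) (Ideal.absNorm_dvd_absNorm_of_le g1)
    omega
  have key := star2 (f := f) (h := g) hfirr hP (δ := e) (γ := v ⟨l0, Fin.last (n l0)⟩) hfl heP
    hP1 hP2 (j := 2 * n l0 - 2) ?_ hg hgo
  · rw [hfm, mul_comp, C_comp] at key
    exact (irreducible_isUnit_mul hu).1 key
  · -- the coefficient modulo `P`
    haveI := hP
    have g1 : (f.map (Ideal.Quotient.mk P)).coeff (2 * n l0 - 2) ≠ 0 := by
      rw [hf, QV_map, QV, RingHom.comp_id, map_C]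
      refine coeff_quot (N := n l0) (s := ∑ l ∈ Finset.univ.erase l0, n l)
        (e := Ideal.Quotient.mk P e) (γ := Ideal.Quotient.mk P (v ⟨l0, i1⟩)) hn1 rfl ?_ ?_ ?_ ?_
        ?_ ?_ ?_
      · rwa [Ne, Ideal.Quotient.eq_zero_iff_mem]
      · rw [natDegree_le_iff_coeff_eq_zero]
        intro N hN
        by_cases hN1 : N = n l0
        · subst hN1
          have g4 := coeff_polA (fun j => Ideal.Quotient.mk P (v ⟨l0, j⟩)) (Fin.last (n l0))
          rw [Fin.val_last] at g4
          rw [g4, Ideal.Quotient.eq_zero_iff_mem]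
          exact hP1
        · refine coeff_eq_zero_of_natDegree_lt ?_
          have := polA_natDegree (fun j : Fin (n l0 + 1) => Ideal.Quotient.mk P (v ⟨l0, j⟩))
          omega
      · exact coeff_polA (fun j => Ideal.Quotient.mk P (v ⟨l0, j⟩)) i1
      · rwa [Ne, Ideal.Quotient.eq_zero_iff_mem]
      · exact (natDegree_prod_le _ _).trans (Finset.sum_le_sum fun l _ => polA_natDegree _)
      · have : (a'.map (Ideal.Quotient.mk P)).natDegree ≤ a'.natDegree := natDegree_map_le
        omega
      · have : (b'.map (Ideal.Quotient.mk P)).natDegree ≤ b'.natDegree := natDegree_map_le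
        omega
    intro h
    apply g1
    rw [coeff_map, Ideal.Quotient.eq_zero_iff_mem]
    exact h

end nf

end Pool.Agent.Helper55.PR
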