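import Pool.Agent.Helper55.PR.Fin

/-!
# Almost all twists with a section: rank one and the Tate conjecture at 2
-/

set_option autoImplicit false
set_option linter.all false

namespace Pool.Agent.Helper55.PR

open Polynomial NumberField Pool.Agent Pool.Agent.R939.EI Pool.Agent.R939.HI Pool.Agent.W275.UB
open Pool.Agent.TH115.GD Pool.Agent.H927R2.RD Pool.Agent.R939.PP Pool.Agent.Helper55.TT
open scoped Classical

section main

variable {k k' K F : Type} [Field k] [Field k'] [Algebra k k'] [Field K] [Algebra k[X] K]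
    [Field F] [Algebra k'[X] F] [IsFractionRing k'[X] F] [Algebra K F]

/-- Let `D = G M (G² + a G M + b M²)`, and let `E_D : y² = x (x² + a D x + b D²)` be the quadratic
twist by `D` of `E : y² = x (x² + a x + b)`; it has the point with `x = b M² (G² + a G M + b M²)`
(that is, the point of `E` over `K(√D)` with `x = b M / G`). For all the base changes of `E_D` by
polynomials `h` of odd degree such that the irreducible divisors of `b (a² - 4 b)` remain irreducible
after the substitution `t ↦ h(t)`, and such that either `h` is monic with integral coefficients or the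
irreducible divisors of `D` remain irreducible after `t ↦ h(t)`: the Galois-invariant classes in the
2-adic Selmer group are generated by one element, there is a point of infinite order, and the Tate
conjecture at 2 holds in the integral form if `a² - 4 b` is not a nonsquare constant times a
square. -/
def OneClass (k' K F : Type) {k : Type} [Field k] [NumberField k] [Field k'] [Field K]
    [Algebra k[X] K] [Field F] [Algebra k'[X] F] [IsFractionRing k'[X] F] [Algebra K F]
    (a b G M : k[X]) : Prop :=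
  ∀ (D h : k[X]), D = G * M * (G ^ 2 + a * G * M + b * M ^ 2) → Odd h.natDegree →
    (∀ π : k[X], Irreducible π → π ∣ b * (a ^ 2 - 4 * b) → Irreducible (π.comp h)) →
    ((∃ g : (𝓞 k)[X], g.Monic ∧ h = g.map (algebraMap (𝓞 k) k)) ∨
      ∀ π : k[X], Irreducible π → π ∣ D → Irreducible (π.comp h)) →
    GeneratedBy (F := F) k' (crvT (algebraMap k[X] K ((a * D).comp h))
      (algebraMap k[X] K ((b * D ^ 2).comp h))) 1 ∧
    (∃ P : Pt (crvT (algebraMap k[X] K ((a * D).comp h))
      (algebraMap k[X] K ((b * D ^ 2).comp h))) K, ∀ m : ℕ, 0 < m → m • P ≠ 0) ∧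
    ((∀ (e : k) (g : k[X]), a ^ 2 - 4 * b = C e * g ^ 2 → IsSquare e) →
      TateAtTwo (F := F) k' (crvT (algebraMap k[X] K ((a * D).comp h))
        (algebraMap k[X] K ((b * D ^ 2).comp h))))

theorem sec_main [NumberField k] (hT : IsTower k k' K F) {J : Type} [Fintype J]
    (ω : Module.Basis J ℤ (𝓞 k)) {a b : k[X]} {u : ℕ}
    {n : Fin u → ℕ} {l0 : Fin u} (H0 : Hyp0 n l0 a b)
    {x : (Σ l : Fin u, Fin (n l + 1)) × J → ℤ}
    (hx : Good ω (b * (a ^ 2 - 4 * b)) l0 x)
    (hQi : OddIrr (Qf a b (Dp ω x l0) (Mp ω l0 x)))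
    (hQs : ¬ SqMod (Qf a b (Dp ω x l0) (Mp ω l0 x)) b) :
    OneClass k' K F a b (Dp ω x l0) (Mp ω l0 x) := by
  classical
  rintro D h rfl hodd hP hcase
  set G := Dp ω x l0 with hG
  set M := Mp ω l0 x with hM
  have hb : b ≠ 0 := by
    intro h0
    apply H0.nb
    rw [h0]
    exact ⟨0, by simp⟩
  have hd : a ^ 2 - 4 * b ≠ 0 := by
    intro h0
    apply H0.nd
    rw [h0]
    exact ⟨0, by simp⟩
  have hP0 : b * (a ^ 2 - 4 * b) ≠ 0 := mul_ne_zero hb hd
  have hirr : ∀ l, Irreducible (Dp ω x l) := fun l => (hx.irr l).1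
  have hGi : Irreducible G := hirr l0
  have hQi1 : Irreducible (Qf a b G M) := hQi.1
  have hM0 : M ≠ 0 := Finset.prod_ne_zero_iff.2 fun l _ => (hirr l).ne_zero
  have hMd : M.natDegree ≤ ∑ l ∈ Finset.univ.erase l0, n l :=
    (natDegree_prod_le _ _).trans (Finset.sum_le_sum fun l _ => polA_natDegree _)
  have hQd : (Qf a b G M).natDegree = 2 * n l0 := Qf_deg ω H0 hx.deg
  have hda := H0.da
  have hdb := H0.db
  have hGM : ¬ G ∣ M := by
    intro hdv
    obtain ⟨l, hl, hdl⟩ := (hGi.prime.dvd_finsetProd_iff _).1 hdv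
    exact hx.cop l (Finset.mem_erase.1 hl).1 hdl
  have hQM : ¬ Qf a b G M ∣ M := by
    intro hdv
    have := natDegree_le_of_dvd hdv hM0
    omega
  have hQdd : ¬ Qf a b G M ∣ a ^ 2 - 4 * b := by
    intro hdv
    have h1 := natDegree_le_of_dvd hdv hd
    have h2 : (a ^ 2 - 4 * b).natDegree < 2 * n l0 := by
      refine lt_of_le_of_lt (natDegree_sub_le _ _) (max_lt ?_ ?_)
      · have := natDegree_pow_le (p := a) (n := 2)
        omega
      · have h3 : (4 * b).natDegree ≤ b.natDegree := by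
          have h4 : (4 : k[X]) = C 4 := rfl
          rw [h4]
          exact natDegree_C_mul_le _ _
        omega
    omega
  have hprodM : M ∣ ∏ l, Dp ω x l := by
    rw [← Finset.mul_prod_erase _ _ (Finset.mem_univ l0)]
    exact dvd_mul_left _ _
  have hind : IndepAt G (b * (a ^ 2 - 4 * b) * M) :=
    IndepAt.mono (hx.indep ω hP0) (mul_dvd_mul_left _ hprodM)
  have HH := hyp_of hb hd H0.nb hM0 hGi hQi1 hx.copP hGM hQM hQdd hQs hind
  -- the primes of `D` remain primes
  have hDh : ∀ π : k[X], Irreducible π → π ∣ G * M * Qf a b G M → Irreducible (π.comp h) := by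
    intro π hπ hdv
    rcases hcase with ⟨g, hg, rfl⟩ | h9
    · have hgo : Odd g.natDegree := by
        rwa [hg.natDegree_map] at hodd
      have hass : ∀ {ρ : k[X]}, Irreducible ρ → Irreducible (ρ.comp (g.map (algebraMap (𝓞 k) k))) →
          π ∣ ρ → Irreducible (π.comp (g.map (algebraMap (𝓞 k) k))) := by
        intro ρ hρ hρh hd
        obtain ⟨w, hw⟩ := (hπ.associated_of_dvd hρ hd).symm
        rw [← hw, mul_comp]
        obtain ⟨c0, hc0, hc0'⟩ := Polynomial.isUnit_iff.1 w.isUnit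
        rw [← hc0', C_comp]
        exact (irreducible_mul_isUnit (isUnit_C.2 hc0)).2 hρh
      rcases hπ.prime.dvd_or_dvd hdv with h1 | h1
      · rcases hπ.prime.dvd_or_dvd h1 with h2 | h2
        · exact hass hGi ((hx.irr l0).2 g hg hgo.pos.ne') h2
        · obtain ⟨l, hl, hdl⟩ := (hπ.prime.dvd_finsetProd_iff _).1 h2
          exact hass (hirr l) ((hx.irr l).2 g hg hgo.pos.ne') hdl
      · exact hass hQi1 (hQi.2 g hg hgo) h1
    · exact h9 π hπ hdv
  have hin : Inert (b * (a ^ 2 - 4 * b) * (G * M * Qf a b G M)) h := by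
    intro π hπ hdv
    have h1 : Irreducible (π.comp h) := by
      rcases hπ.prime.dvd_or_dvd hdv with h2 | h2
      · exact hP π hπ h2
      · exact hDh π hπ h2
    exact ⟨h1, h1.separable⟩
  have HC := HH.comp hodd hin
  have hPd : ∀ ρ : k[X], Irreducible ρ → ρ ∣ a ^ 2 - 4 * b → Irreducible (ρ.comp h) :=
    fun ρ hρ hdv => hP ρ hρ (hdv.mul_left b)
  have e3 : (a.comp h) ^ 2 - 4 * b.comp h = (a ^ 2 - 4 * b).comp h := by simp
  have hdns : ¬ IsSquare ((a.comp h) ^ 2 - 4 * b.comp h) := by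
    rw [e3]
    rintro ⟨V, hV⟩
    obtain ⟨r, w, T, h1, hw, h2⟩ := const_sq_comp (e := 1) (V := V) hd hodd.pos hPd (by
      rw [hV, C_1]
      ring)
    apply H0.nd
    refine ⟨C w * T, ?_⟩
    rw [h1, h2, one_mul, C_pow]
    ring
  have e0 : (b * M ^ 2 * Qf a b G M ^ 2) ^ 2 = (b * M ^ 2 * Qf a b G M) *
      ((b * M ^ 2 * Qf a b G M) ^ 2 + (a * (G * M * Qf a b G M)) * (b * M ^ 2 * Qf a b G M) +
        b * (G * M * Qf a b G M) ^ 2) := by
    rw [Qf]
    ring
  have key := crit2 (F := F) (k' := k') hT two_ne_zero HC hdns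
    (x := (b * M ^ 2 * Qf a b G M).comp h) (y := (b * M ^ 2 * Qf a b G M ^ 2).comp h)
    (s := M.comp h) (comp_ne hodd.pos hM0) (by
      simp only [mul_comp, pow_comp]
      ring) (by
      simpa only [mul_comp, pow_comp, add_comp] using congrArg (fun p => p.comp h) e0)
  have e1 : (a * (G * M * (G ^ 2 + a * G * M + b * M ^ 2))).comp h =
      a.comp h * (G * M * Qf a b G M).comp h := by rw [mul_comp]; rfl
  have e2 : (b * (G * M * (G ^ 2 + a * G * M + b * M ^ 2)) ^ 2).comp h =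
      b.comp h * (G * M * Qf a b G M).comp h ^ 2 := by rw [mul_comp, pow_comp]; rfl
  rw [e1, e2]
  refine ⟨key.1, key.2.1, fun hsq => key.2.2 ?_⟩
  intro e V heV
  rw [e3] at heV
  obtain ⟨r, w, T, h1, hw, h2⟩ := const_sq_comp hd hodd.pos hPd heV
  obtain ⟨s, hs⟩ := hsq r T h1
  refine ⟨s / w, ?_⟩
  field_simp
  rw [← h2, hs]
  ring

/-- **Almost all twists with a section.** -/
theorem sec_twists [NumberField k] (hT : IsTower k k' K F) {J : Type} [Fintype J]
    (B : Module.Basis J ℤ (𝓞 k)) {a b : k[X]} (nb : ¬ IsSquare b)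
    (nd : ¬ IsSquare (a ^ 2 - 4 * b)) (nbd : ¬ IsSquare (b * (a ^ 2 - 4 * b))) {u : ℕ}
    {n : Fin u → ℕ} (hn : ∀ l, 1 ≤ n l) {l0 : Fin u} (hl0 : 3 ≤ n l0)
    (ha : a.natDegree + (∑ l ∈ Finset.univ.erase l0, n l) + 1 < n l0)
    (hb : b.natDegree + 2 * (∑ l ∈ Finset.univ.erase l0, n l) + 2 < 2 * n l0)
    {η : ℝ} (hη : 0 < η) :
    ∃ H0 : ℕ, ∀ H : ℕ, H0 ≤ H →
      (({x : (l : Fin u) → Fin (n l + 1) → 𝓞 k | (∀ l j t, |B.repr (x l j) t| ≤ (H : ℤ)) ∧
        ¬ OneClass k' K F a b (polA fun j => algebraMap (𝓞 k) k (x l0 j))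
          (∏ l ∈ Finset.univ.erase l0, polA fun j => algebraMap (𝓞 k) k (x l j))}.ncard : ℕ) : ℝ) ≤
        η * (2 * H + 1) ^ (Fintype.card J * ∑ l, (n l + 1)) := by
  classical
  have HH : Hyp0 n l0 a b := ⟨by omega, by omega, nb, nd, nbd⟩
  have hb0 : b ≠ 0 := by
    intro h0
    apply nb
    rw [h0]
    exact ⟨0, by simp⟩
  have hd0 : a ^ 2 - 4 * b ≠ 0 := by
    intro h0
    apply nd
    rw [h0]
    exact ⟨0, by simp⟩
  obtain ⟨H0, hH⟩ := (((dens_good (n := n) B l0 hl0 hn (mul_ne_zero hb0 hd0)).union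
    (dens_oddIrr B l0 HH ha hb)).union (dens_sqQ B l0 HH)) η hη
  refine ⟨H0, fun H hHH => ?_⟩
  have h1 := hH H hHH
  have hcard : Fintype.card ((Σ l : Fin u, Fin (n l + 1)) × J) =
      Fintype.card J * ∑ l, (n l + 1) := by
    rw [Fintype.card_prod, Fintype.card_sigma, Nat.mul_comm]
    simp
  rw [hcard] at h1
  refine le_trans ?_ h1
  let φ : ((l : Fin u) → Fin (n l + 1) → 𝓞 k) → ((Σ l : Fin u, Fin (n l + 1)) × J → ℤ) :=
    fun y o => B.repr (y o.1.1 o.1.2) o.2
  have hkv : ∀ y (o : Σ l : Fin u, Fin (n l + 1)), kv B (φ y) o =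
      algebraMap (𝓞 k) k (y o.1 o.2) := by
    intro y o
    show algebraMap (𝓞 k) k (elt B fun j => B.repr (y o.1 o.2) j) = _
    rw [← basis_elt B]
  have hinj : Function.Injective φ := by
    intro y z hyz
    funext l j
    apply FaithfulSMul.algebraMap_injective (𝓞 k) k
    have h3 := hkv y ⟨l, j⟩
    rw [hyz, hkv z ⟨l, j⟩] at h3
    exact h3.symm
  have h4 : (Set.ncard {x : (l : Fin u) → Fin (n l + 1) → 𝓞 k |
      (∀ l j t, |B.repr (x l j) t| ≤ (H : ℤ)) ∧
        ¬ OneClass k' K F a b (polA fun j => algebraMap (𝓞 k) k (x l0 j))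
          (∏ l ∈ Finset.univ.erase l0, polA fun j => algebraMap (𝓞 k) k (x l j))}) ≤
      Set.ncard {v : (Σ l : Fin u, Fin (n l + 1)) × J → ℤ |
        v ∈ (({x : (Σ l : Fin u, Fin (n l + 1)) × J → ℤ |
          ¬ Good B (b * (a ^ 2 - 4 * b)) l0 x} ∪
          {x : (Σ l : Fin u, Fin (n l + 1)) × J → ℤ |
            ¬ OddIrr (Qf a b (Dp B x l0) (Mp B l0 x))}) ∪
          {x : (Σ l : Fin u, Fin (n l + 1)) × J → ℤ |
            SqMod (Qf a b (Dp B x l0) (Mp B l0 x)) b}) ∧ ∀ i, |v i| ≤ (H : ℤ)} := by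
    rw [← Set.ncard_image_of_injective _ hinj]
    refine Set.ncard_le_ncard ?_ (box_fin _ H)
    rintro _ ⟨y, ⟨b1, hbad⟩, rfl⟩
    refine ⟨?_, ?_⟩
    · by_contra hcon
      simp only [Set.mem_union, not_or, Set.mem_setOf_eq, not_not] at hcon
      obtain ⟨⟨c1, c2⟩, c3⟩ := hcon
      apply hbad
      have h5 := sec_main (k' := k') (F := F) hT B HH c1 c2 c3
      simp only [Mp, Dp, hkv] at h5
      exact h5
    · rintro ⟨⟨l, j⟩, t⟩
      exact b1 l j t
  exact_mod_cast h4

end main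

end Pool.Agent.Helper55.PR
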