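import Mathlib

/-!
# Divisors over the field of fractions of a factorial domain, squares in rational function fields
-/

set_option autoImplicit false
set_option linter.all false

namespace Pool.Agent.Helper55.PR

open Polynomial
open scoped nonZeroDivisors

theorem prim_of {A : Type} [CommRing A] [IsDomain A] [IsGCDMonoid A] {F : Type}
    [Field F] [Algebra A F] [IsFractionRing A F] {f : F[X]} (hf : f ≠ 0) {Q : A[X]}
    (h : f ∣ Q.map (algebraMap A F)) : ∃ f1 : A[X], f1 ∣ Q ∧ f1.natDegree = f.natDegree := by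
  classical
  let : NormalizedGCDMonoid A := Nonempty.some inferInstance
  obtain ⟨c, c0, hc⟩ := IsLocalization.integerNormalization_spec A⁰ f
  set f' := IsLocalization.integerNormalization A⁰ f with hf'
  have hinj : Function.Injective (algebraMap A F) := IsFractionRing.injective A F
  rw [mem_nonZeroDivisors_iff_ne_zero] at c0
  have hcF : algebraMap A F c ≠ 0 := by rwa [Ne, map_eq_zero_iff _ hinj]
  have hc' : f'.map (algebraMap A F) = C (algebraMap A F c) * f := by
    rw [hc]
    ext n
    rw [coeff_smul, coeff_C_mul, Algebra.smul_def]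
  have hf'0 : f' ≠ 0 := by
    intro h0
    rw [h0, Polynomial.map_zero] at hc'
    exact mul_ne_zero (C_ne_zero.2 hcF) hf hc'.symm
  have hct : algebraMap A F f'.content ≠ 0 := by
    rw [Ne, map_eq_zero_iff _ hinj, content_eq_zero_iff]
    exact hf'0
  have e1 : C (algebraMap A F f'.content) * f'.primPart.map (algebraMap A F) =
      C (algebraMap A F c) * f := by
    rw [← hc']
    conv_rhs => rw [f'.eq_C_content_mul_primPart, Polynomial.map_mul, map_C]
  refine ⟨f'.primPart, ?_, ?_⟩
  · refine f'.isPrimitive_primPart.dvd_of_fraction_map_dvd_fraction_map (K := F) ?_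
    refine Dvd.dvd.trans ?_ h
    have h1 : f'.primPart.map (algebraMap A F) ∣ C (algebraMap A F c) * f := by
      rw [← e1]
      exact dvd_mul_left _ _
    rwa [(isUnit_C.2 (isUnit_iff_ne_zero.2 hcF)).dvd_mul_left] at h1
  · have h1 := congrArg natDegree e1
    rw [natDegree_C_mul hct, natDegree_C_mul hcF, natDegree_map_eq_of_injective hinj] at h1
    exact h1

/-- squares in a rational function field -/
theorem sq_frac {K Λ : Type} [Field K] [Infinite K] {F : Type} [Field F]
    [Algebra (MvPolynomial Λ K) F] [IsFractionRing (MvPolynomial Λ K) F] {c : K}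
    (h : IsSquare (algebraMap (MvPolynomial Λ K) F (MvPolynomial.C c))) : IsSquare c := by
  classical
  obtain ⟨y, hy⟩ := h
  obtain ⟨f, g, hg, rfl⟩ := IsFractionRing.div_surjective (A := MvPolynomial Λ K) y
  have hg0 : g ≠ 0 := nonZeroDivisors.ne_zero hg
  have hinj : Function.Injective (algebraMap (MvPolynomial Λ K) F) := IsFractionRing.injective _ _
  have hgF : algebraMap (MvPolynomial Λ K) F g ≠ 0 := by rwa [Ne, map_eq_zero_iff _ hinj]
  have e : MvPolynomial.C c * g ^ 2 = f ^ 2 := by
    apply hinj
    rw [map_mul, map_pow, map_pow, hy]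
    field_simp
  obtain ⟨p, hp⟩ : ∃ p : Λ → K, MvPolynomial.eval p g ≠ 0 := by
    by_contra hcon
    push Not at hcon
    exact hg0 (MvPolynomial.funext fun p => by rw [hcon p, map_zero])
  have e1 := congrArg (MvPolynomial.eval p) e
  rw [map_mul, map_pow, map_pow, MvPolynomial.eval_C] at e1
  refine ⟨MvPolynomial.eval p f / MvPolynomial.eval p g, ?_⟩
  field_simp
  rw [e1]

/-- a monic quadratic polynomial over a domain whose discriminant is not a square -/
theorem irr_quad {R : Type} [CommRing R] [IsDomain R] {β γ : R} (h : ¬ IsSquare (β ^ 2 - 4 * γ)) :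
    Irreducible (X ^ 2 + C β * X + C γ : R[X]) := by
  have hd : (X ^ 2 + C β * X + C γ : R[X]).natDegree = 2 := by
    have := natDegree_quadratic (R := R) (a := 1) (b := β) (c := γ) one_ne_zero
    rwa [C_1, one_mul] at this
  have hm : (X ^ 2 + C β * X + C γ : R[X]).Monic := by
    have := leadingCoeff_quadratic (R := R) (a := 1) (b := β) (c := γ) one_ne_zero
    rwa [C_1, one_mul] at this
  rw [hm.irreducible_iff_roots_eq_zero_of_degree_le_three (by omega) (by omega)]
  rw [Multiset.eq_zero_iff_forall_notMem]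
  intro r hr
  have h1 := (mem_roots'.1 hr).2
  rw [IsRoot, eval_add, eval_add, eval_pow, eval_mul, eval_X, eval_C, eval_C] at h1
  apply h
  refine ⟨2 * r + β, ?_⟩
  linear_combination (-4) * h1

/-- squares in the field of fractions of a polynomial ring -/
theorem sq_of_frac {A : Type} [CommRing A] [IsDomain A] [IsIntegrallyClosed A] {K : Type} [Field K]
    [Algebra A K] [IsFractionRing A K] {c : A} (h : IsSquare (algebraMap A K c)) : IsSquare c := by
  obtain ⟨y, hy⟩ := h
  have hint : IsIntegral A y := by
    refine ⟨X ^ 2 - C c, monic_X_pow_sub_C c two_ne_zero, ?_⟩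
    rw [eval₂_sub, eval₂_pow, eval₂_X, eval₂_C, hy]
    ring
  obtain ⟨z, hz⟩ := IsIntegrallyClosed.isIntegral_iff.1 hint
  refine ⟨z, IsFractionRing.injective A K ?_⟩
  rw [hy, map_mul, hz]

/-- squares in a quadratic extension -/
theorem sq_quad {K : Type} [Field K] (h2 : (2 : K) ≠ 0) {d c : K} (hc : ¬ IsSquare c)
    (hdc : ¬ IsSquare (c * d)) {L : Type} [Field L] [Algebra K L] {s : L}
    (hs : s ^ 2 = algebraMap K L d) (hgen : ∀ y : L, ∃ α β : K,
      y = algebraMap K L α + algebraMap K L β * s) (hd : ¬ IsSquare d) :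
    ¬ IsSquare (algebraMap K L c) := by
  rintro ⟨y, hy⟩
  obtain ⟨α, β, rfl⟩ := hgen y
  have hinj := (algebraMap K L).injective
  -- `s` is not in `K`
  have hsK : ∀ x : K, algebraMap K L x ≠ s := by
    intro x hx
    apply hd
    refine ⟨x, hinj ?_⟩
    rw [← hs, ← hx, map_mul]
    ring
  have e : algebraMap K L (c - α ^ 2 - β ^ 2 * d) = algebraMap K L (2 * α * β) * s := by
    simp only [map_sub, map_mul, map_pow, map_ofNat]
    rw [hy, ← hs]
    ring
  have h0 : 2 * α * β = 0 := by
    by_contra hne
    apply hsK ((c - α ^ 2 - β ^ 2 * d) / (2 * α * β))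
    rw [map_div₀, e]
    have : algebraMap K L (2 * α * β) ≠ 0 := by
      rwa [Ne, map_eq_zero_iff _ hinj]
    field_simp
  rw [h0, map_zero, zero_mul] at e
  have e' : c - α ^ 2 - β ^ 2 * d = 0 := by
    rwa [map_eq_zero_iff _ hinj] at e
  rcases mul_eq_zero.1 h0 with h1 | h1
  · rcases mul_eq_zero.1 h1 with h3 | h3
    · exact h2 h3
    · rw [h3] at e'
      apply hdc
      refine ⟨β * d, ?_⟩
      linear_combination d * e'
  · rw [h1] at e'
    apply hc
    refine ⟨α, ?_⟩
    linear_combination e'

end Pool.Agent.Helper55.PR
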