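import Pool.Agent.Helper55.PR.Sys
import Pool.Agent.Helper55.PR.Gauss

/-!
# The generic value of a quadratic form of nonsquare discriminant is irreducible
-/

set_option autoImplicit false
set_option linter.all false

namespace Pool.Agent.Helper55.PR

open Polynomial Pool.Agent.W275.UB Pool.Agent.W275.ND Pool.Agent Pool.Agent.H927R2.RD
open Pool.Agent.R939.HI Pool.Agent.H936R2 H294UB Pool.Agent.W131.ND.Lmk
open Pool.Agent.Helper55.TT Pool.Agent.R939.EI

section spec

variable {ι J O : Type} [Fintype J] [CommRing O] (ω : Module.Basis J ℤ O)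

theorem spec_cv {R : Type} [CommRing R] (σ : O →+* R) (t : ι → R) :
    cv (fun j => σ (ω j)) (fun q : ι × J => ((ω.repr 1 q.2 : ℤ) : R) * t q.1) = t := by
  funext i
  have h1 : ∑ j, ((ω.repr 1 j : ℤ) : R) * σ (ω j) = 1 := by
    have h2 := congrArg σ (ω.sum_repr 1)
    rw [map_sum, map_one σ] at h2
    rw [← h2]
    refine Finset.sum_congr rfl fun j _ => ?_
    rw [zsmul_eq_mul, map_mul, map_intCast]
  simp only [cv]
  calc ∑ j, σ (ω j) * (((ω.repr 1 j : ℤ) : R) * t i)
      = (∑ j, ((ω.repr 1 j : ℤ) : R) * σ (ω j)) * t i := by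
        rw [Finset.sum_mul]
        exact Finset.sum_congr rfl fun j _ => by ring
    _ = t i := by rw [h1, one_mul]

end spec

section gen

variable {u : ℕ} (n : Fin u → ℕ) (l0 : Fin u) {J O : Type} [Fintype J] [CommRing O]
  (ω : Module.Basis J ℤ O)

/-- the degree of the form -/
theorem QV_deg {R : Type} [CommRing R] {E a b : O[X]} (hE : E.natDegree = 0)
    (ha : a.natDegree + (∑ l ∈ Finset.univ.erase l0, n l) ≤ n l0)
    (hb : b.natDegree + 2 * (∑ l ∈ Finset.univ.erase l0, n l) ≤ 2 * n l0) (σ : O →+* R)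
    (v : (Σ l : Fin u, Fin (n l + 1)) → R) : (QV n l0 E a b σ v).natDegree ≤ 2 * n l0 := by
  classical
  have h1 : (polA fun j => v ⟨l0, j⟩).natDegree ≤ n l0 := polA_natDegree _
  have h2 : (∏ l ∈ Finset.univ.erase l0, polA fun j => v ⟨l, j⟩).natDegree ≤
      ∑ l ∈ Finset.univ.erase l0, n l :=
    (natDegree_prod_le _ _).trans (Finset.sum_le_sum fun l _ => polA_natDegree _)
  have hEσ : (E.map σ).natDegree ≤ 0 := natDegree_map_le.trans hE.le
  have haσ : (a.map σ).natDegree ≤ a.natDegree := natDegree_map_le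
  have hbσ : (b.map σ).natDegree ≤ b.natDegree := natDegree_map_le
  rw [QV, Q3]
  refine (natDegree_add_le _ _).trans (max_le ((natDegree_add_le _ _).trans (max_le ?_ ?_)) ?_)
  · refine natDegree_mul_le.trans ?_
    have := natDegree_pow_le (p := polA fun j => v ⟨l0, j⟩) (n := 2)
    omega
  · refine natDegree_mul_le.trans ?_
    have := natDegree_mul_le (p := a.map σ) (q := polA fun j => v ⟨l0, j⟩)
    omega
  · refine natDegree_mul_le.trans ?_
    have := natDegree_pow_le (p := ∏ l ∈ Finset.univ.erase l0, polA fun j => v ⟨l, j⟩) (n := 2)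
    omega

/-- the target polynomials -/
noncomputable def tgt {R : Type} [CommRing R] (T : Fin u → R[X]) :
    (Σ l : Fin u, Fin (n l + 1)) → R := fun q => (T q.1).coeff (q.2 : ℕ)

theorem QV_tgt {R : Type} [CommRing R] (E a b : O[X]) (σ : O →+* R) (T : Fin u → R[X])
    (hT : ∀ l, (T l).natDegree ≤ n l) (hT1 : ∀ l, l ≠ l0 → T l = 1) :
    QV n l0 E a b σ (tgt n T) = Q3 (E.map σ) (a.map σ) (b.map σ) (T l0) 1 := by
  classical
  have h1 : ∀ l, (polA fun j : Fin (n l + 1) => tgt n T ⟨l, j⟩) = T l := by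
    intro l
    simp only [tgt]
    exact polA_of (hT l)
  have h2 : (∏ l ∈ Finset.univ.erase l0, polA fun j => tgt n T ⟨l, j⟩) = 1 :=
    Finset.prod_eq_one fun l hl => (h1 l).trans (hT1 l (Finset.mem_erase.1 hl).1)
  rw [QV, h1 l0, h2]

variable {k : Type} [Field k] [Algebra O k]

/-- the generic form over the field of constants -/
noncomputable def QA (k : Type) [Field k] [Algebra O k] (E a b : O[X]) :
    Polynomial (MvPolynomial ((Σ l : Fin u, Fin (n l + 1)) × J) k) :=
  (QB n l0 ω E a b).map (MvPolynomial.map (algebraMap O k))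

theorem QA_map {R : Type} [CommRing R] (E a b : O[X])
    (s : MvPolynomial ((Σ l : Fin u, Fin (n l + 1)) × J) k →+* R) :
    (QA n l0 ω k E a b).map s = QV n l0 E a b ((s.comp MvPolynomial.C).comp (algebraMap O k))
      (cv (fun j => (s.comp MvPolynomial.C).comp (algebraMap O k) (ω j))
        fun q => s (MvPolynomial.X q)) := by
  rw [QA, Polynomial.map_map, QB_map]
  have e1 : (s.comp (MvPolynomial.map (algebraMap O k))).comp MvPolynomial.C =
      (s.comp MvPolynomial.C).comp (algebraMap O k) := by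
    ext o
    simp
  rw [e1]
  congr 1
  funext i
  simp [cv]

/-- the specialisation of the generic form -/
theorem QA_spec {R : Type} [CommRing R] (E a b : O[X]) (σ : k →+* R) (T : Fin u → R[X])
    (hT : ∀ l, (T l).natDegree ≤ n l) (hT1 : ∀ l, l ≠ l0 → T l = 1) :
    (QA n l0 ω k E a b).map (MvPolynomial.eval₂Hom σ
      (fun q => ((ω.repr 1 q.2 : ℤ) : R) * tgt n T q.1)) =
      Q3 (E.map (σ.comp (algebraMap O k))) (a.map (σ.comp (algebraMap O k)))
        (b.map (σ.comp (algebraMap O k))) (T l0) 1 := by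
  rw [QA_map]
  have e1 : (MvPolynomial.eval₂Hom σ (fun q : (Σ l : Fin u, Fin (n l + 1)) × J =>
      ((ω.repr 1 q.2 : ℤ) : R) * tgt n T q.1)).comp MvPolynomial.C = σ := by
    ext x
    simp
  rw [e1]
  have e2 : (cv (fun j => (σ.comp (algebraMap O k)) (ω j))
      fun q => (MvPolynomial.eval₂Hom σ (fun q : (Σ l : Fin u, Fin (n l + 1)) × J =>
      ((ω.repr 1 q.2 : ℤ) : R) * tgt n T q.1)) (MvPolynomial.X q)) = tgt n T := by
    have := spec_cv (ι := Σ l : Fin u, Fin (n l + 1)) ω (σ.comp (algebraMap O k)) (tgt n T)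
    simp only [MvPolynomial.coe_eval₂Hom, MvPolynomial.eval₂_X]
    exact this
  rw [e2]
  exact QV_tgt n l0 E a b _ T hT hT1

/-- **No factorisation of the generic form over the polynomial ring.** -/
theorem no_fac [CharZero k] {e : O} (he : algebraMap O k e ≠ 0) {a b : O[X]}
    (hn : 1 ≤ n l0)
    (ha : a.natDegree < n l0) (hb : b.natDegree < 2 * n l0)
    (hns : ¬ IsSquare (a.map (algebraMap O k) ^ 2 - 4 * (C (algebraMap O k e) *
      b.map (algebraMap O k))))
    {f g : Polynomial (MvPolynomial ((Σ l : Fin u, Fin (n l + 1)) × J) k)}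
    (hfg : f * g = QA n l0 ω k (C e) a b) (hf : 0 < f.natDegree) (hg : 0 < g.natDegree)
    (hd : f.natDegree + g.natDegree ≤ 2 * n l0) : False := by
  classical
  set N := n l0 with hN
  set ek := algebraMap O k e with hek
  set ak := a.map (algebraMap O k) with hak
  set bk := b.map (algebraMap O k) with hbk
  have hakd : ak.natDegree < N := lt_of_le_of_lt natDegree_map_le ha
  have hbkd : bk.natDegree < 2 * N := lt_of_le_of_lt natDegree_map_le hb
  -- the specialisation
  let T : Fin u → (k[X][X])[X] := fun l => if l = l0 then X ^ N + C X else 1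
  have hTd : ∀ l, (T l).natDegree ≤ n l := by
    intro l
    simp only [T]
    split_ifs with h
    · rw [h, ← hN]
      refine (natDegree_add_le _ _).trans (max_le (natDegree_X_pow_le _) ?_)
      rw [natDegree_C]
      exact Nat.zero_le _
    · rw [natDegree_one]
      exact Nat.zero_le _
  have hT1 : ∀ l, l ≠ l0 → T l = 1 := fun l hl => if_neg hl
  let s : MvPolynomial ((Σ l : Fin u, Fin (n l + 1)) × J) k →+* k[X][X] :=
    MvPolynomial.eval₂Hom (C.comp C) (fun q => ((ω.repr 1 q.2 : ℤ) : k[X][X]) * tgt n T q.1)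
  have hs := QA_spec n l0 ω (C e) a b (C.comp C : k →+* k[X][X]) T hTd hT1
  let T' : Fin u → k[X] := fun l => if l = l0 then X ^ N else 1
  have hTd' : ∀ l, (T' l).natDegree ≤ n l := by
    intro l
    simp only [T']
    split_ifs with h
    · rw [h, ← hN]
      exact natDegree_X_pow_le _
    · rw [natDegree_one]
      exact Nat.zero_le _
  have hT1' : ∀ l, l ≠ l0 → T' l = 1 := fun l hl => if_neg hl
  let s' : MvPolynomial ((Σ l : Fin u, Fin (n l + 1)) × J) k →+* k :=
    MvPolynomial.eval₂Hom (RingHom.id k) (fun q => ((ω.repr 1 q.2 : ℤ) : k) * tgt n T' q.1)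
  have hs' := QA_spec n l0 ω (C e) a b (RingHom.id k) T' hTd' hT1'
  have hss : (evalRingHom (0 : k[X])).comp s = C.comp s' := by
    apply MvPolynomial.ringHom_ext'
    · ext x
      simp [s, s']
    · rintro ⟨⟨l, j⟩, t⟩
      simp only [s, s', RingHom.comp_apply, MvPolynomial.coe_eval₂Hom, MvPolynomial.eval₂_X,
        map_mul, map_intCast]
      congr 1
      simp only [tgt, T, T', coe_evalRingHom]
      split_ifs with h
      · rw [coeff_add, coeff_X_pow, coeff_X_pow, coeff_C]
        split_ifs <;> simp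
      · rw [coeff_one, coeff_one]
        split_ifs <;> simp
  -- the ring homomorphism to `k[t][z]`
  let S : Polynomial (MvPolynomial ((Σ l : Fin u, Fin (n l + 1)) × J) k) →+* k[X][X] :=
    eval₂RingHom s (C X)
  have hS0 : ∀ p, (evalRingHom (0 : k[X])) (S p) = p.map s' := by
    intro p
    show (evalRingHom (0 : k[X])) (p.eval₂ s (C X)) = _
    rw [hom_eval₂, hss]
    have e1 : (evalRingHom (0 : k[X])) (C X) = X := by simp
    rw [e1, ← eval₂_map, eval₂_C_X]
  have hSQ : S (QA n l0 ω k (C e) a b) = C (C ek) * (X ^ 2 +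
      C (2 * X ^ N + C ek⁻¹ * ak) * X + C (X ^ (2 * N) + C ek⁻¹ * (ak * X ^ N + bk))) := by
    have h1 : S (QA n l0 ω k (C e) a b) = ((QA n l0 ω k (C e) a b).map s).eval (C X) := by
      rw [eval_map]
      rfl
    have hp : ∀ p : O[X], (p.map ((C.comp C : k →+* k[X][X]).comp (algebraMap O k))).eval (C X) =
        C (p.map (algebraMap O k)) := by
      intro p
      rw [eval_map, ← eval₂_map]
      have h2 := (hom_eval₂ (p.map (algebraMap O k)) (C : k →+* k[X]) (C : k[X] →+* k[X][X])
        X).symm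
      rw [eval₂_C_X] at h2
      exact h2
    rw [h1]
    show eval (C X) ((QA n l0 ω k (C e) a b).map (MvPolynomial.eval₂Hom (C.comp C)
      (fun q => ((ω.repr 1 q.2 : ℤ) : k[X][X]) * tgt n T q.1))) = _
    rw [hs, Q3, eval_add, eval_add, eval_mul, eval_mul, eval_mul, eval_mul, eval_pow, eval_pow,
      hp, hp, hp, map_C]
    simp only [T, if_true, eval_add, eval_pow, eval_X, eval_C, eval_one]
    have e2 : (C (C ek) : k[X][X]) * C (C ek⁻¹) = 1 := by
      rw [← C_mul, ← C_mul, mul_inv_cancel₀ he, C_1, C_1]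
    rw [← hak, ← hbk, ← hek]
    simp only [C_add, C_mul, C_pow]
    have e3 : (C (2 : k[X]) : k[X][X]) = 2 := rfl
    rw [e3]
    linear_combination (-(C ak * (C X ^ N + X) + C bk)) * e2
  have hek' : IsUnit (C (C ek) : k[X][X]) := isUnit_C.2 (isUnit_C.2 (isUnit_iff_ne_zero.2 he))
  have hirr : Irreducible (S (QA n l0 ω k (C e) a b)) := by
    rw [hSQ]
    refine (irreducible_isUnit_mul hek').2 (irr_quad ?_)
    rintro ⟨y, hy⟩
    apply hns
    refine ⟨C ek * y, ?_⟩
    have e2 : (C ek : k[X]) * C ek⁻¹ = 1 := by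
      rw [← C_mul, mul_inv_cancel₀ he, C_1]
    have e3 : (X : k[X]) ^ (2 * N) = (X ^ N) ^ 2 := by
      rw [← pow_mul, mul_comm 2 N]
    rw [e3] at hy
    linear_combination (C ek ^ 2) * hy + (-ak ^ 2 * (C ek * C ek⁻¹ + 1) +
      4 * C ek * bk) * e2
  -- the specialisation to `k[t]`
  have hQ' : (QA n l0 ω k (C e) a b).map s' = C ek * X ^ (2 * N) + (ak * X ^ N + bk) := by
    show (QA n l0 ω k (C e) a b).map (MvPolynomial.eval₂Hom (RingHom.id k)
      (fun q => ((ω.repr 1 q.2 : ℤ) : k) * tgt n T' q.1)) = _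
    rw [hs', Q3, RingHom.id_comp, map_C]
    simp only [T', if_true]
    rw [← hak, ← hbk, ← hek]
    ring
  have hQd : ((QA n l0 ω k (C e) a b).map s').natDegree = 2 * N := by
    rw [hQ']
    have h1 : (C ek * X ^ (2 * N) : k[X]).natDegree = 2 * N := natDegree_C_mul_X_pow _ _ he
    have h2 : (ak * X ^ N + bk).natDegree < 2 * N := by
      refine lt_of_le_of_lt (natDegree_add_le _ _) (max_lt ?_ hbkd)
      refine lt_of_le_of_lt natDegree_mul_le ?_
      have := natDegree_X_pow_le (R := k) N
      omega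
    rw [natDegree_add_eq_left_of_natDegree_lt (by rw [h1]; exact h2), h1]
  have hprod : f.map s' * g.map s' = (QA n l0 ω k (C e) a b).map s' := by
    rw [← Polynomial.map_mul, hfg]
  have hQ0 : (QA n l0 ω k (C e) a b).map s' ≠ 0 := by
    intro h
    rw [h, natDegree_zero] at hQd
    omega
  have hf0 : f.map s' ≠ 0 := fun h => hQ0 (by rw [← hprod, h, zero_mul])
  have hg0 : g.map s' ≠ 0 := fun h => hQ0 (by rw [← hprod, h, mul_zero])
  have hsum : (f.map s').natDegree + (g.map s').natDegree = 2 * N := by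
    rw [← natDegree_mul hf0 hg0, hprod, hQd]
  have hfle : (f.map s').natDegree ≤ f.natDegree := natDegree_map_le
  have hgle : (g.map s').natDegree ≤ g.natDegree := natDegree_map_le
  have hnu : ∀ p, 0 < (p.map s').natDegree → ¬ IsUnit (S p) := by
    intro p hp hu
    have h1 := hu.map (evalRingHom (0 : k[X]))
    rw [hS0] at h1
    have := natDegree_eq_zero_of_isUnit h1
    omega
  rw [← hfg, map_mul] at hirr
  rcases hirr.isUnit_or_isUnit rfl with h | h
  · exact hnu f (by omega) h
  · exact hnu g (by omega) h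

end gen

end Pool.Agent.Helper55.PR
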