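import Pool.Agent.Helper55.PR.GenI

/-!
# The generic value of the form: irreducible and separable
-/

set_option autoImplicit false
set_option linter.all false

namespace Pool.Agent.Helper55.PR

open Polynomial Pool.Agent.W275.UB Pool.Agent.W275.ND Pool.Agent Pool.Agent.H927R2.RD
open Pool.Agent.R939.HI Pool.Agent.H936R2 H294UB Pool.Agent.W131.ND.Lmk
open Pool.Agent.Helper55.TT Pool.Agent.R939.EI

/-- the hypotheses on the form `e G² + a G M + b M²` -/
structure Fh {u : ℕ} (n : Fin u → ℕ) (l0 : Fin u) {O : Type} [CommRing O] (k : Type) [Field k]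
    [Algebra O k] (e : O) (a b : O[X]) : Prop where
  e0 : algebraMap O k e ≠ 0
  n0 : 1 ≤ n l0
  da : a.natDegree + (∑ l ∈ Finset.univ.erase l0, n l) < n l0
  db : b.natDegree + 2 * (∑ l ∈ Finset.univ.erase l0, n l) < 2 * n l0
  ns : ¬ IsSquare (a.map (algebraMap O k) ^ 2 - 4 * (C (algebraMap O k e) *
      b.map (algebraMap O k)))

section gen

variable {u : ℕ} {n : Fin u → ℕ} {l0 : Fin u} {J O : Type} [Fintype J] [CommRing O] [IsDomain O]
  (ω : Module.Basis J ℤ O) {k : Type} [Field k] [CharZero k] [Algebra O k]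

/-- the value at a simple point -/
theorem QA_simple {e : O} {a b : O[X]} (H : Fh n l0 k e a b) :
    ∃ s' : MvPolynomial ((Σ l : Fin u, Fin (n l + 1)) × J) k →+* k,
      ((QA n l0 ω k (C e) a b).map s').natDegree = 2 * n l0 := by
  classical
  let T' : Fin u → k[X] := fun l => if l = l0 then X ^ n l0 else 1
  have hTd' : ∀ l, (T' l).natDegree ≤ n l := by
    intro l
    simp only [T']
    split_ifs with h
    · rw [h]
      exact natDegree_X_pow_le _
    · rw [natDegree_one]
      exact Nat.zero_le _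
  have hT1' : ∀ l, l ≠ l0 → T' l = 1 := fun l hl => if_neg hl
  have hs' := QA_spec n l0 ω (C e) a b (RingHom.id k) T' hTd' hT1'
  refine ⟨MvPolynomial.eval₂Hom (RingHom.id k)
      (fun q => ((ω.repr 1 q.2 : ℤ) : k) * tgt n T' q.1), ?_⟩
  · rw [hs', Q3, RingHom.id_comp, map_C]
    simp only [T', if_true]
    have h0 : C (algebraMap O k e) * (X ^ n l0) ^ 2 + a.map (algebraMap O k) * X ^ n l0 * 1 +
        b.map (algebraMap O k) * 1 ^ 2 = C (algebraMap O k e) * X ^ (2 * n l0) +
          (a.map (algebraMap O k) * X ^ n l0 + b.map (algebraMap O k)) := by ring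
    rw [h0]
    have h1 : (C (algebraMap O k e) * X ^ (2 * n l0) : k[X]).natDegree = 2 * n l0 :=
      natDegree_C_mul_X_pow _ _ H.e0
    have hn0 := H.n0
    have hda := H.da
    have hdb := H.db
    have h2 : (a.map (algebraMap O k) * X ^ n l0 + b.map (algebraMap O k)).natDegree <
        2 * n l0 := by
      have h3 : (a.map (algebraMap O k)).natDegree ≤ a.natDegree := natDegree_map_le
      have h4 : (b.map (algebraMap O k)).natDegree ≤ b.natDegree := natDegree_map_le
      refine lt_of_le_of_lt (natDegree_add_le _ _) (max_lt ?_ (by omega))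
      refine lt_of_le_of_lt natDegree_mul_le ?_
      have := natDegree_X_pow_le (R := k) (n l0)
      omega
    rw [natDegree_add_eq_left_of_natDegree_lt (by rw [h1]; exact h2), h1]

theorem Fh.deg {e : O} {a b : O[X]} (H : Fh n l0 k e a b) {R : Type} [CommRing R] (σ : O →+* R)
    (v : (Σ l : Fin u, Fin (n l + 1)) → R) : (QV n l0 (C e) a b σ v).natDegree ≤ 2 * n l0 :=
  QV_deg n l0 (natDegree_C _) H.da.le H.db.le σ v

theorem QA_deg {e : O} {a b : O[X]} (H : Fh n l0 k e a b) :
    (QA n l0 ω k (C e) a b).natDegree = 2 * n l0 := by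
  refine le_antisymm ?_ ?_
  · refine natDegree_map_le.trans ?_
    exact H.deg _ _
  · obtain ⟨s', hs'⟩ := QA_simple ω H
    rw [← hs']
    exact natDegree_map_le

theorem QB_deg (hO : Function.Injective (algebraMap O k)) {e : O} {a b : O[X]}
    (H : Fh n l0 k e a b) :
    (QB n l0 ω (C e) a b).natDegree = 2 * n l0 := by
  rw [← QA_deg ω H, QA, natDegree_map_eq_of_injective (MvPolynomial.map_injective _ hO)]

/-- **The generic form is irreducible.** -/
theorem irr_gen {e : O} {a b : O[X]} (H : Fh n l0 k e a b) {F : Type} [Field F]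
    [Algebra (MvPolynomial ((Σ l : Fin u, Fin (n l + 1)) × J) k) F]
    [IsFractionRing (MvPolynomial ((Σ l : Fin u, Fin (n l + 1)) × J) k) F] :
    Irreducible ((QA n l0 ω k (C e) a b).map
      (algebraMap (MvPolynomial ((Σ l : Fin u, Fin (n l + 1)) × J) k) F)) := by
  classical
  have hinj : Function.Injective (algebraMap (MvPolynomial ((Σ l : Fin u, Fin (n l + 1)) × J) k) F) :=
    IsFractionRing.injective _ _
  have hQd := QA_deg ω H
  have hn0 := H.n0
  have hQFd : ((QA n l0 ω k (C e) a b).map
      (algebraMap (MvPolynomial ((Σ l : Fin u, Fin (n l + 1)) × J) k) F)).natDegree =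
      2 * n l0 := by
    rw [natDegree_map_eq_of_injective hinj, hQd]
  have hQ0 : QA n l0 ω k (C e) a b ≠ 0 := by
    intro h
    rw [h, natDegree_zero] at hQd
    omega
  have hQF0 : (QA n l0 ω k (C e) a b).map
      (algebraMap (MvPolynomial ((Σ l : Fin u, Fin (n l + 1)) × J) k) F) ≠ 0 := by
    intro h
    rw [h, natDegree_zero] at hQFd
    omega
  refine ⟨fun hu => ?_, fun f g hfg => ?_⟩
  · have := natDegree_eq_zero_of_isUnit hu
    omega
  · by_contra hcon
    rw [not_or] at hcon
    have hf0 : f ≠ 0 := fun h => hQF0 (by rw [hfg, h, zero_mul])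
    have hg0 : g ≠ 0 := fun h => hQF0 (by rw [hfg, h, mul_zero])
    have hfd : 0 < f.natDegree := by
      rw [Nat.pos_iff_ne_zero]
      intro h0
      apply hcon.1
      rw [eq_C_of_natDegree_eq_zero h0] at hf0 ⊢
      exact isUnit_C.2 (isUnit_iff_ne_zero.2 (C_ne_zero.1 hf0))
    have hgd : 0 < g.natDegree := by
      rw [Nat.pos_iff_ne_zero]
      intro h0
      apply hcon.2
      rw [eq_C_of_natDegree_eq_zero h0] at hg0 ⊢
      exact isUnit_C.2 (isUnit_iff_ne_zero.2 (C_ne_zero.1 hg0))
    have hsum : f.natDegree + g.natDegree = 2 * n l0 := by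
      rw [← natDegree_mul hf0 hg0, ← hfg, hQFd]
    obtain ⟨f1, ⟨g1, hf1⟩, hf1d⟩ := prim_of hf0 (Q := QA n l0 ω k (C e) a b) ⟨g, hfg⟩
    have hf10 : f1 ≠ 0 := fun h => hQ0 (by rw [hf1, h, zero_mul])
    have hg10 : g1 ≠ 0 := fun h => hQ0 (by rw [hf1, h, mul_zero])
    have hsum1 : f1.natDegree + g1.natDegree = 2 * n l0 := by
      rw [← natDegree_mul hf10 hg10, ← hf1, hQd]
    have hda := H.da
    have hdb := H.db
    exact no_fac n l0 ω H.e0 hn0 (by omega) (by omega) H.ns hf1.symm (by omega) (by omega)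
      (by omega)

/-- the homomorphism to the field of rational functions -/
theorem thF_inj (hO : Function.Injective (algebraMap O k)) {Λ F : Type} [Field F]
    [Algebra (MvPolynomial Λ k) F] [IsFractionRing (MvPolynomial Λ k) F] :
    Function.Injective ((algebraMap (MvPolynomial Λ k) F).comp
      (MvPolynomial.map (algebraMap O k))) :=
  (IsFractionRing.injective (MvPolynomial Λ k) F).comp (MvPolynomial.map_injective _ hO)

/-- **The generic form is separable.** -/
theorem sep_gen (hO : Function.Injective (algebraMap O k)) {e : O} {a b : O[X]}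
    (H : Fh n l0 k e a b) :
    ∃ (A B : Polynomial (MvPolynomial ((Σ l : Fin u, Fin (n l + 1)) × J) O))
      (Δ : MvPolynomial ((Σ l : Fin u, Fin (n l + 1)) × J) O), Δ ≠ 0 ∧
      A * QB n l0 ω (C e) a b + B * Polynomial.derivative (QB n l0 ω (C e) a b) = C Δ := by
  classical
  set P := QB n l0 ω (C e) a b with hP
  have hPd : P.natDegree = 2 * n l0 := QB_deg ω hO H
  have hn0 := H.n0
  have hPd' : (derivative P).natDegree ≤ 2 * n l0 - 1 :=
    (natDegree_derivative_le P).trans (Nat.sub_le_sub_right hPd.le 1)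
  obtain ⟨A, B, -, -, hAB⟩ := exists_mul_add_mul_eq_C_resultant P
    (derivative P) hPd.le hPd' (Or.inl (by omega))
  refine ⟨A, B, _, ?_, by rw [← hAB]; ring⟩
  intro h0
  let F := FractionRing (MvPolynomial ((Σ l : Fin u, Fin (n l + 1)) × J) k)
  let Θ : MvPolynomial ((Σ l : Fin u, Fin (n l + 1)) × J) O →+* F :=
    (algebraMap (MvPolynomial ((Σ l : Fin u, Fin (n l + 1)) × J) k) F).comp
      (MvPolynomial.map (algebraMap O k))
  have hΘ : Function.Injective Θ := thF_inj hO
  have hirr : Irreducible (P.map Θ) := by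
    have h1 := irr_gen ω H (F := F)
    rw [QA, Polynomial.map_map] at h1
    exact h1
  have hchar : CharZero k := inferInstance
  haveI : CharZero F := charZero_of_injective_algebraMap
    (R := MvPolynomial ((Σ l : Fin u, Fin (n l + 1)) × J) k) (IsFractionRing.injective _ _)
  have hsep : (P.map Θ).Separable := hirr.separable
  have hfd : (P.map Θ).natDegree = 2 * n l0 := by
    rw [natDegree_map_eq_of_injective hΘ, hPd]
  have hfd' : (derivative (P.map Θ)).natDegree = 2 * n l0 - 1 := by
    rw [natDegree_derivative (P.map Θ), hfd]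
  have h1 := resultant_map_map P (derivative P) (2 * n l0) (2 * n l0 - 1) Θ
  rw [h0, map_zero, ← derivative_map] at h1
  have h2 : resultant (P.map Θ) (derivative (P.map Θ)) = 0 := by
    rw [hfd, hfd']
    exact h1
  exact (resultant_eq_zero_iff.1 h2).2 hsep

end gen

end Pool.Agent.Helper55.PR
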