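import Pool.Agent.Helper55.PR.GenJ

/-!
# A field in which the parameters are algebraically independent and the form has a simple root
-/

set_option autoImplicit false
set_option linter.all false

namespace Pool.Agent.Helper55.PR

open Polynomial Pool.Agent.W275.UB Pool.Agent.W275.ND Pool.Agent Pool.Agent.H927R2.RD
open Pool.Agent.R939.HI Pool.Agent.H936R2 H294UB Pool.Agent.W131.ND.Lmk
open Pool.Agent.Helper55.TT Pool.Agent.R939.EI

section K2

/-- quadratic extensions -/
theorem quad_ext {K : Type} [Field K] {d : K} (hdns : ¬ IsSquare d) :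
    ∃ (L : Type) (_ : Field L) (_ : Algebra K L) (s : L), s ^ 2 = algebraMap K L d ∧
      ∀ y : L, ∃ α β : K, y = algebraMap K L α + algebraMap K L β * s := by
  classical
  have hirr : Irreducible (X ^ 2 - C d : K[X]) := by
    refine X_pow_sub_C_irreducible_of_prime Nat.prime_two ?_
    intro y hy
    exact hdns ⟨y, by rw [← hy]; ring⟩
  haveI : Fact (Irreducible (X ^ 2 - C d : K[X])) := ⟨hirr⟩
  have hf0 : (X ^ 2 - C d : K[X]).Monic := monic_X_pow_sub_C d two_ne_zero
  refine ⟨AdjoinRoot (X ^ 2 - C d : K[X]), inferInstance, inferInstance,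
    AdjoinRoot.root (X ^ 2 - C d : K[X]), ?_, ?_⟩
  · have h1 : AdjoinRoot.mk (X ^ 2 - C d : K[X]) (X ^ 2 - C d) = 0 := AdjoinRoot.mk_self
    rw [map_sub, map_pow, AdjoinRoot.mk_X, AdjoinRoot.mk_C, sub_eq_zero] at h1
    exact h1
  · intro y
    obtain ⟨g, rfl⟩ := AdjoinRoot.mk_surjective y
    set r := g %ₘ (X ^ 2 - C d : K[X]) with hr
    have hrd : r.natDegree < 2 := by
      have h1 := natDegree_modByMonic_lt g hf0 (by
        intro h
        have := congrArg natDegree h
        rw [natDegree_X_pow_sub_C, natDegree_one] at this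
        omega)
      rwa [natDegree_X_pow_sub_C] at h1
    refine ⟨r.coeff 0, r.coeff 1, ?_⟩
    have h1 : AdjoinRoot.mk (X ^ 2 - C d : K[X]) g = AdjoinRoot.mk (X ^ 2 - C d : K[X]) r := by
      rw [AdjoinRoot.mk_eq_mk]
      refine ⟨g /ₘ (X ^ 2 - C d : K[X]), ?_⟩
      have := modByMonic_add_div g (X ^ 2 - C d : K[X])
      rw [hr]
      linear_combination (-1 : K[X]) * this
    have h2 : r = C (r.coeff 0) + C (r.coeff 1) * X := by
      rw [add_comm]
      exact eq_X_add_C_of_natDegree_le_one (by omega)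
    rw [h1]
    conv_lhs => rw [h2]
    rw [map_add, map_mul, AdjoinRoot.mk_X, AdjoinRoot.mk_C, AdjoinRoot.mk_C]
    rfl

/-- the quadratic extension of the rational function field -/
theorem K2_exists {k : Type} [Field k] [CharZero k] {e : k} (he : e ≠ 0) {a b c : k[X]}
    (hns : ¬ IsSquare (a ^ 2 - 4 * (C e * b))) (hc : ¬ IsSquare c)
    (hcd : ¬ IsSquare (c * (a ^ 2 - 4 * (C e * b)))) :
    ∃ (L : Type) (_ : Field L) (_ : CharZero L) (_ : Algebra k L) (τ ξ : L), Transcendental k τ ∧
      algebraMap k L e * ξ ^ 2 + aeval τ a * ξ + aeval τ b = 0 ∧ ¬ IsSquare (aeval τ c) := by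
  classical
  let K := FractionRing k[X]
  have hKinj : Function.Injective (algebraMap k[X] K) := IsFractionRing.injective _ _
  have hdns : ¬ IsSquare (algebraMap k[X] K (a ^ 2 - 4 * (C e * b))) :=
    fun h => hns (sq_of_frac h)
  obtain ⟨L, _, _, s, hs2, hgen⟩ := quad_ext hdns
  have hLinj : Function.Injective (algebraMap K L) := (algebraMap K L).injective
  letI : Algebra k L := ((algebraMap K L).comp (algebraMap k K)).toAlgebra
  haveI : IsScalarTower k K L := IsScalarTower.of_algebraMap_eq fun x => rfl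
  haveI : CharZero K := charZero_of_injective_algebraMap (R := k[X]) hKinj
  haveI : CharZero L := charZero_of_injective_algebraMap (R := K) hLinj
  have h2K : (2 : K) ≠ 0 := two_ne_zero
  have h2L : (2 : L) ≠ 0 := two_ne_zero
  set τ : L := algebraMap K L (algebraMap k[X] K X) with hτ
  have hae : ∀ p : k[X], aeval τ p = algebraMap K L (algebraMap k[X] K p) := by
    intro p
    have h1 : (aeval τ : k[X] →ₐ[k] L) =
        ((Algebra.ofId K L).restrictScalars k).comp (IsScalarTower.toAlgHom k k[X] K) := by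
      apply Polynomial.algHom_ext
      rw [aeval_X]
      rfl
    rw [h1]
    rfl
  have heL : algebraMap k L e ≠ 0 := by
    rw [Ne, map_eq_zero_iff _ (algebraMap k L).injective]
    exact he
  have hCe : algebraMap K L (algebraMap k[X] K (C e)) = algebraMap k L e := by
    rw [← hae, aeval_C]
  refine ⟨L, inferInstance, inferInstance, inferInstance, τ,
    (-(aeval τ a) + s) / (2 * algebraMap k L e), ?_, ?_, ?_⟩
  · rw [transcendental_iff_injective]
    intro p q hpq
    rw [hae, hae] at hpq
    exact hKinj (hLinj hpq)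
  · have h3 : s ^ 2 = (aeval τ a) ^ 2 - 4 * (algebraMap k L e * aeval τ b) := by
      rw [hs2, hae, hae, ← hCe]
      simp only [map_sub, map_mul, map_pow, map_ofNat]
    field_simp
    linear_combination h3
  · rw [hae]
    refine sq_quad h2K (fun h => hc (sq_of_frac h)) ?_ hs2 hgen hdns
    rw [← map_mul]
    exact fun h => hcd (sq_of_frac h)

end K2

section GG

variable {u : ℕ} {n : Fin u → ℕ} {J : Type} [Fintype J] {R R' : Type} [CommRing R] [CommRing R']

/-- the value of a polynomial of the family -/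
def GG (c : J → R) (t : R) (l : Fin u) (v : (Σ l : Fin u, Fin (n l + 1)) × J → R) : R :=
  ∑ i : Fin (n l + 1), (∑ j, c j * v (⟨l, i⟩, j)) * t ^ (i : ℕ)

theorem GG_eq (c : J → R) (t : R) (l : Fin u) (v : (Σ l : Fin u, Fin (n l + 1)) × J → R) :
    (polA fun j => cv c v ⟨l, j⟩).eval t = GG c t l v := by
  unfold polA GG cv
  rw [eval_finset_sum]
  refine Finset.sum_congr rfl fun i _ => ?_
  rw [eval_mul, eval_C, eval_pow, eval_X]

theorem GG_map (f : R →+* R') (c : J → R) (t : R) (l : Fin u)
    (v : (Σ l : Fin u, Fin (n l + 1)) × J → R) :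
    f (GG c t l v) = GG (fun j => f (c j)) (f t) l (fun q => f (v q)) := by
  unfold GG
  rw [map_sum]
  refine Finset.sum_congr rfl fun i _ => ?_
  rw [map_mul, map_pow, map_sum]
  congr 1
  exact Finset.sum_congr rfl fun j _ => by rw [map_mul]

theorem GG_same [DecidableEq ((Σ l : Fin u, Fin (n l + 1)) × J)] (c : J → R) (t : R) (l : Fin u)
    (i : Fin (n l + 1)) (j : J) (v : (Σ l : Fin u, Fin (n l + 1)) × J → R) (x y : R) :
    GG c t l (Function.update v (⟨l, i⟩, j) x) =
      GG c t l (Function.update v (⟨l, i⟩, j) y) + c j * (x - y) * t ^ (i : ℕ) := by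
  classical
  unfold GG
  have key : ∀ i' : Fin (n l + 1), (∑ j', c j' * Function.update v (⟨l, i⟩, j) x (⟨l, i'⟩, j')) *
      t ^ (i' : ℕ) = (∑ j', c j' * Function.update v (⟨l, i⟩, j) y (⟨l, i'⟩, j')) * t ^ (i' : ℕ) +
        (if i' = i then c j * (x - y) * t ^ (i : ℕ) else 0) := by
    intro i'
    by_cases hi : i' = i
    · subst hi
      rw [if_pos rfl, ← add_mul]
      congr 1
      have h2 : ∀ j', c j' * Function.update v (⟨l, i'⟩, j) x (⟨l, i'⟩, j') =
          c j' * Function.update v (⟨l, i'⟩, j) y (⟨l, i'⟩, j') +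
            (if j' = j then c j * (x - y) else 0) := by
        intro j'
        by_cases hj : j' = j
        · subst hj
          rw [Function.update_self, Function.update_self, if_pos rfl]
          ring
        · have hne : ((⟨l, i'⟩, j') : (Σ l : Fin u, Fin (n l + 1)) × J) ≠ (⟨l, i'⟩, j) :=
            fun h => hj (congrArg Prod.snd h)
          rw [Function.update_of_ne hne, Function.update_of_ne hne, if_neg hj, add_zero]
      rw [Finset.sum_congr rfl fun j' _ => h2 j', Finset.sum_add_distrib,
        Finset.sum_ite_eq' Finset.univ j, if_pos (Finset.mem_univ _)]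
    · rw [if_neg hi, add_zero]
      congr 1
      refine Finset.sum_congr rfl fun j' _ => ?_
      have hne : ((⟨l, i'⟩, j') : (Σ l : Fin u, Fin (n l + 1)) × J) ≠ (⟨l, i⟩, j) := by
        intro h
        have h1 := congrArg Prod.fst h
        exact hi (eq_of_heq (Sigma.mk.inj_iff.1 h1).2)
      rw [Function.update_of_ne hne, Function.update_of_ne hne]
  rw [Finset.sum_congr rfl fun i' _ => key i', Finset.sum_add_distrib,
    Finset.sum_ite_eq' Finset.univ i, if_pos (Finset.mem_univ _)]

theorem GG_ne [DecidableEq ((Σ l : Fin u, Fin (n l + 1)) × J)] (c : J → R) (t : R) {l l0 : Fin u}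
    (hl : l ≠ l0)
    (i : Fin (n l0 + 1)) (j : J) (v : (Σ l : Fin u, Fin (n l + 1)) × J → R) (x : R) :
    GG c t l (Function.update v (⟨l0, i⟩, j) x) = GG c t l v := by
  unfold GG
  refine Finset.sum_congr rfl fun i' _ => ?_
  congr 1
  refine Finset.sum_congr rfl fun j' _ => ?_
  have hne : ((⟨l, i'⟩, j') : (Σ l : Fin u, Fin (n l + 1)) × J) ≠ (⟨l0, i⟩, j) := by
    intro h
    have h1 := congrArg Prod.fst h
    exact hl (Sigma.mk.inj_iff.1 h1).1
  rw [Function.update_of_ne hne]

end GG

end Pool.Agent.Helper55.PR
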