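import Pool.Agent.Helper55.PR.GenK

/-!
# A field in which the parameters are algebraically independent and the form has a given root
-/

set_option autoImplicit false
set_option linter.all false

namespace Pool.Agent.Helper55.PR

open Polynomial Pool.Agent.W275.UB Pool.Agent.W275.ND Pool.Agent Pool.Agent.H927R2.RD
open Pool.Agent.R939.HI Pool.Agent.H936R2 H294UB Pool.Agent.W131.ND.Lmk
open Pool.Agent.Helper55.TT Pool.Agent.R939.EI

section root

variable {u : ℕ} (n : Fin u → ℕ) (l0 : Fin u) {J : Type} [Fintype J] {K2 : Type} [Field K2]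
  (c : J → K2) (τ ξ : K2) (j0 : J)

/-- the value of the distinguished parameter -/
noncomputable def alf {R : Type} [CommRing R] (ρ : K2 →+* R)
    (v : (Σ l : Fin u, Fin (n l + 1)) × J → R) : R :=
  haveI := Classical.decEq ((Σ l : Fin u, Fin (n l + 1)) × J)
  ρ (c j0)⁻¹ * (ρ ξ * (∏ l ∈ Finset.univ.erase l0, GG (fun j => ρ (c j)) (ρ τ) l v) -
    GG (fun j => ρ (c j)) (ρ τ) l0 (Function.update v (⟨l0, 0⟩, j0) 0))

theorem alf_map {R R' : Type} [CommRing R] [CommRing R'] (ρ : K2 →+* R) (f : R →+* R')
    (v : (Σ l : Fin u, Fin (n l + 1)) × J → R) :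
    f (alf n l0 c τ ξ j0 ρ v) = alf n l0 c τ ξ j0 (f.comp ρ) (fun q => f (v q)) := by
  classical
  unfold alf
  rw [map_mul, map_sub, map_mul, map_prod, GG_map]
  simp only [GG_map, RingHom.comp_apply]
  congr 4
  funext q
  by_cases hq : q = (⟨l0, 0⟩, j0)
  · subst hq
    rw [@Function.update_self _ _ (Classical.decEq _), @Function.update_self _ _
      (Classical.decEq _), map_zero]
  · rw [@Function.update_of_ne _ _ (Classical.decEq _) _ _ hq,
      @Function.update_of_ne _ _ (Classical.decEq _) _ _ hq]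

theorem alf_root {R : Type} [CommRing R]
    [DecidableEq ((Σ l : Fin u, Fin (n l + 1)) × J)] (ρ : K2 →+* R) (hc : c j0 ≠ 0)
    (v : (Σ l : Fin u, Fin (n l + 1)) × J → R) :
    GG (fun j => ρ (c j)) (ρ τ) l0
      (Function.update v (⟨l0, 0⟩, j0) (alf n l0 c τ ξ j0 ρ v)) =
    ρ ξ * ∏ l ∈ Finset.univ.erase l0, GG (fun j => ρ (c j)) (ρ τ) l
      (Function.update v (⟨l0, 0⟩, j0) (alf n l0 c τ ξ j0 ρ v)) := by
  have h1 := GG_same (fun j => ρ (c j)) (ρ τ) l0 0 j0 v (alf n l0 c τ ξ j0 ρ v) 0
  rw [h1]
  have h2 : (∏ l ∈ Finset.univ.erase l0, GG (fun j => ρ (c j)) (ρ τ) l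
      (Function.update v (⟨l0, 0⟩, j0) (alf n l0 c τ ξ j0 ρ v))) =
      ∏ l ∈ Finset.univ.erase l0, GG (fun j => ρ (c j)) (ρ τ) l v :=
    Finset.prod_congr rfl fun l hl => GG_ne _ _ (Finset.mem_erase.1 hl).1 0 j0 v _
  rw [h2]
  have h3 : ρ (c j0) * ρ (c j0)⁻¹ = 1 := by rw [← map_mul, mul_inv_cancel₀ hc, map_one]
  have h4 : (((0 : Fin (n l0 + 1)) : ℕ)) = 0 := rfl
  rw [h4, pow_zero, mul_one, sub_zero]
  unfold alf
  have h5 : Function.update v (⟨l0, (0 : Fin (n l0 + 1))⟩, j0) 0 =
      @Function.update _ _ (Classical.decEq ((Σ l : Fin u, Fin (n l + 1)) × J)) v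
        (⟨l0, 0⟩, j0) 0 := by
    funext q
    by_cases hq : q = (⟨l0, 0⟩, j0)
    · subst hq
      simp
    · rw [Function.update_of_ne hq, @Function.update_of_ne _ _ (Classical.decEq _) _ _ hq]
  rw [h5]
  linear_combination (ρ ξ * (∏ l ∈ Finset.univ.erase l0, GG (fun j => ρ (c j)) (ρ τ) l v) -
    GG (fun j => ρ (c j)) (ρ τ) l0 (@Function.update _ _
      (Classical.decEq ((Σ l : Fin u, Fin (n l + 1)) × J)) v (⟨l0, 0⟩, j0) 0)) * h3

theorem alf_move [DecidableEq ((Σ l : Fin u, Fin (n l + 1)) × J)]
    {R : Type} [CommRing R] (ρ : K2 →+* R) (hc : c j0 ≠ 0) (i1 : Fin (n l0 + 1)) (hi1 : (i1 : ℕ) = 1)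
    (v : (Σ l : Fin u, Fin (n l + 1)) × J → R) (x : R) :
    alf n l0 c τ ξ j0 ρ (Function.update v (⟨l0, i1⟩, j0) x) =
      alf n l0 c τ ξ j0 ρ v - (x - v (⟨l0, i1⟩, j0)) * ρ τ := by
  have hne : ((⟨l0, i1⟩, j0) : (Σ l : Fin u, Fin (n l + 1)) × J) ≠ (⟨l0, 0⟩, j0) := by
    intro h
    have h1 := congrArg Prod.fst h
    have h2 := eq_of_heq (Sigma.mk.inj_iff.1 h1).2
    rw [h2] at hi1
    exact absurd hi1 (by simp)
  unfold alf
  have h2 : (∏ l ∈ Finset.univ.erase l0, GG (fun j => ρ (c j)) (ρ τ) l
      (Function.update v (⟨l0, i1⟩, j0) x)) =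
      ∏ l ∈ Finset.univ.erase l0, GG (fun j => ρ (c j)) (ρ τ) l v :=
    Finset.prod_congr rfl fun l hl => GG_ne _ _ (Finset.mem_erase.1 hl).1 i1 j0 v _
  rw [h2]
  have hdec : ∀ w : (Σ l : Fin u, Fin (n l + 1)) × J → R, @Function.update _ _
      (Classical.decEq ((Σ l : Fin u, Fin (n l + 1)) × J)) w (⟨l0, 0⟩, j0) 0 =
      Function.update w (⟨l0, 0⟩, j0) 0 := by
    intro w
    funext q
    by_cases hq : q = (⟨l0, 0⟩, j0)
    · subst hq
      simp
    · rw [Function.update_of_ne hq, @Function.update_of_ne _ _ (Classical.decEq _) _ _ hq]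
  rw [hdec, hdec, Function.update_comm hne]
  have h3 := GG_same (fun j => ρ (c j)) (ρ τ) l0 i1 j0 (Function.update v (⟨l0, 0⟩, j0) 0) x
    (v (⟨l0, i1⟩, j0))
  have h4 : Function.update (Function.update v (⟨l0, 0⟩, j0) 0) (⟨l0, i1⟩, j0)
      (v (⟨l0, i1⟩, j0)) = Function.update v (⟨l0, 0⟩, j0) 0 := by
    funext q
    by_cases hq : q = (⟨l0, i1⟩, j0)
    · subst hq
      rw [Function.update_self, Function.update_of_ne hne]
    · rw [Function.update_of_ne hq]
  rw [h4] at h3
  rw [h3, hi1, pow_one]
  have h5 : ρ (c j0)⁻¹ * ρ (c j0) = 1 := by rw [← map_mul, inv_mul_cancel₀ hc, map_one]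
  linear_combination (-(x - v (⟨l0, i1⟩, j0)) * ρ τ) * h5

end root

section inj

variable {u : ℕ} (n : Fin u → ℕ) (l0 : Fin u) {J O : Type} [Fintype J] [CommRing O] [IsDomain O]
  (ω : Module.Basis J ℤ O) {k : Type} [Field k] [CharZero k] [Algebra O k]
  {K2 : Type} [Field K2] [Algebra k K2]

/-- **The parameters, with the distinguished one replaced, are algebraically independent.** -/
theorem model (hO : Function.Injective (algebraMap O k)) (hn : 1 ≤ n l0) {τ : K2} (ξ : K2)
    (hτ : Transcendental k τ) {j0 : J} (hj0 : ω j0 ≠ 0) :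
    ∃ Θ : MvPolynomial ((Σ l : Fin u, Fin (n l + 1)) × J) O →+*
        MvPolynomial ((Σ l : Fin u, Fin (n l + 1)) × J) K2,
      Function.Injective Θ ∧
      Θ.comp MvPolynomial.C = MvPolynomial.C.comp ((algebraMap k K2).comp (algebraMap O k)) ∧
      (polA fun j => cv (fun j => Θ (MvPolynomial.C (ω j))) (fun q => Θ (MvPolynomial.X q))
        ⟨l0, j⟩).eval (MvPolynomial.C τ) =
      MvPolynomial.C ξ * (∏ l ∈ Finset.univ.erase l0, polA fun j =>
        cv (fun j => Θ (MvPolynomial.C (ω j))) (fun q => Θ (MvPolynomial.X q)) ⟨l, j⟩).eval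
          (MvPolynomial.C τ) := by
  classical
  set σ2 : O →+* K2 := (algebraMap k K2).comp (algebraMap O k) with hσ2
  have hσ2i : Function.Injective σ2 := (algebraMap k K2).injective.comp hO
  set c : J → K2 := fun j => σ2 (ω j) with hc
  have hcj : c j0 ≠ 0 := by
    rw [hc]
    rwa [Ne, map_eq_zero_iff _ hσ2i]
  set q0 : (Σ l : Fin u, Fin (n l + 1)) × J := (⟨l0, 0⟩, j0) with hq0
  let i1 : Fin (n l0 + 1) := ⟨1, by omega⟩
  have hi1 : (i1 : ℕ) = 1 := rfl
  set q1 : (Σ l : Fin u, Fin (n l + 1)) × J := (⟨l0, i1⟩, j0) with hq1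
  have hne : q1 ≠ q0 := by
    intro h
    have h1 := congrArg Prod.fst h
    have h2 := eq_of_heq (Sigma.mk.inj_iff.1 h1).2
    have h3 : (i1 : ℕ) = 0 := by rw [h2]; rfl
    omega
  let z : (Σ l : Fin u, Fin (n l + 1)) × J → MvPolynomial ((Σ l : Fin u, Fin (n l + 1)) × J) K2 :=
    Function.update MvPolynomial.X q0 (alf n l0 c τ ξ j0 MvPolynomial.C MvPolynomial.X)
  let Θ : MvPolynomial ((Σ l : Fin u, Fin (n l + 1)) × J) O →+*
      MvPolynomial ((Σ l : Fin u, Fin (n l + 1)) × J) K2 :=
    MvPolynomial.eval₂Hom (MvPolynomial.C.comp σ2) z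
  have hΘX : ∀ q, Θ (MvPolynomial.X q) = z q := fun q => by simp [Θ]
  have hΘC : ∀ o, Θ (MvPolynomial.C o) = MvPolynomial.C (σ2 o) := fun o => by simp [Θ]
  refine ⟨Θ, ?_, ?_, ?_⟩
  · rw [injective_iff_map_eq_zero]
    intro p hp
    by_contra hp0
    set pk : MvPolynomial ((Σ l : Fin u, Fin (n l + 1)) × J) k :=
      MvPolynomial.map (algebraMap O k) p with hpk
    have hpk0 : pk ≠ 0 := by
      intro h
      apply hp0
      exact MvPolynomial.map_injective _ hO (by rw [map_zero]; exact h)
    -- algebraicity at a point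
    have key : ∀ e : (Σ l : Fin u, Fin (n l + 1)) × J → k, MvPolynomial.eval e pk ≠ 0 →
        IsAlgebraic k (alf n l0 c τ ξ j0 (RingHom.id K2) (fun q => algebraMap k K2 (e q))) := by
      intro e he
      set α := alf n l0 c τ ξ j0 (RingHom.id K2) (fun q => algebraMap k K2 (e q)) with hα
      let g : k[X] := MvPolynomial.aeval (Function.update (fun q => C (e q)) q0 X) pk
      have hg0 : g ≠ 0 := by
        intro h
        apply he
        have h1 : g.eval (e q0) = MvPolynomial.eval e pk := by
          have h2 : (evalRingHom (e q0)).comp (MvPolynomial.aeval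
              (Function.update (fun q => (C (e q) : k[X])) q0 X) :
                MvPolynomial ((Σ l : Fin u, Fin (n l + 1)) × J) k →ₐ[k] k[X]).toRingHom =
              MvPolynomial.eval e := by
            apply MvPolynomial.ringHom_ext'
            · ext x
              simp
            · intro q
              by_cases hq : q = q0
              · subst hq
                simp
              · simp [Function.update_of_ne hq]
          exact RingHom.congr_fun h2 pk
        rw [← h1, h, eval_zero]
      refine ⟨g, hg0, ?_⟩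
      have h2 : (aeval α : k[X] →ₐ[k] K2).toRingHom.comp (MvPolynomial.aeval
          (Function.update (fun q => (C (e q) : k[X])) q0 X) :
            MvPolynomial ((Σ l : Fin u, Fin (n l + 1)) × J) k →ₐ[k] k[X]).toRingHom =
          MvPolynomial.eval₂Hom (algebraMap k K2)
            (Function.update (fun q => algebraMap k K2 (e q)) q0 α) := by
        apply MvPolynomial.ringHom_ext'
        · ext x
          simp
        · intro q
          by_cases hq : q = q0
          · subst hq
            simp
          · simp [Function.update_of_ne hq]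
      have h3 : (MvPolynomial.eval (fun q => algebraMap k K2 (e q))).comp Θ =
          (MvPolynomial.eval₂Hom (algebraMap k K2)
            (Function.update (fun q => algebraMap k K2 (e q)) q0 α)).comp
            (MvPolynomial.map (algebraMap O k)) := by
        apply MvPolynomial.ringHom_ext'
        · ext o
          simp [Θ, hσ2]
        · intro q
          rw [RingHom.comp_apply, hΘX, RingHom.comp_apply, MvPolynomial.map_X]
          simp only [MvPolynomial.coe_eval₂Hom, MvPolynomial.eval₂_X]
          by_cases hq : q = q0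
          · subst hq
            simp only [z, Function.update_self]
            rw [alf_map, hα]
            congr 1
            · ext x
              simp
            · funext q
              simp
          · simp only [z, Function.update_of_ne hq]
            simp
      have h4 := RingHom.congr_fun h2 pk
      have h5 := RingHom.congr_fun h3 p
      rw [RingHom.comp_apply, hp, map_zero, RingHom.comp_apply] at h5
      rw [RingHom.comp_apply] at h4
      exact h4.trans h5.symm
    -- two points
    obtain ⟨e, he⟩ : ∃ e, MvPolynomial.eval e pk ≠ 0 := by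
      by_contra hcon
      push Not at hcon
      exact hpk0 (MvPolynomial.funext fun e => by rw [hcon e, map_zero])
    let f : k[X] := MvPolynomial.aeval (Function.update (fun q => C (e q)) q1 X) pk
    have hf : ∀ x, f.eval x = MvPolynomial.eval (Function.update e q1 x) pk := by
      intro x
      have h2 : (evalRingHom x).comp (MvPolynomial.aeval
          (Function.update (fun q => (C (e q) : k[X])) q1 X) :
            MvPolynomial ((Σ l : Fin u, Fin (n l + 1)) × J) k →ₐ[k] k[X]).toRingHom =
          MvPolynomial.eval (Function.update e q1 x) := by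
        apply MvPolynomial.ringHom_ext'
        · ext x
          simp
        · intro q
          by_cases hq : q = q1
          · subst hq
            simp
          · simp [Function.update_of_ne hq]
      exact RingHom.congr_fun h2 pk
    have hf0 : f ≠ 0 := by
      intro h
      apply he
      have h1 := hf (e q1)
      rw [Function.update_eq_self, h, eval_zero] at h1
      exact h1.symm
    obtain ⟨x, hx⟩ : ∃ x, (f * (X - C (e q1))).eval x ≠ 0 := by
      by_contra hcon
      push Not at hcon
      exact mul_ne_zero hf0 (X_sub_C_ne_zero _) (Polynomial.funext fun r => by rw [hcon r, eval_zero])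
    rw [eval_mul] at hx
    have hx1 : f.eval x ≠ 0 := left_ne_zero_of_mul hx
    have hx2 : x - e q1 ≠ 0 := by
      have := right_ne_zero_of_mul hx
      rwa [eval_sub, eval_X, eval_C] at this
    rw [hf] at hx1
    have k1 := key e he
    have k2 := key _ hx1
    have e1 : (fun q => algebraMap k K2 (Function.update e q1 x q)) =
        Function.update (fun q => algebraMap k K2 (e q)) q1 (algebraMap k K2 x) := by
      funext q
      by_cases hq : q = q1
      · subst hq
        simp
      · simp [Function.update_of_ne hq]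
    rw [e1, hq1, alf_move n l0 c τ ξ j0 (RingHom.id K2) hcj i1 hi1] at k2
    have k3 := k1.sub k2
    rw [sub_sub_cancel, RingHom.id_apply, ← hq1] at k3
    apply hτ
    have k4 : IsAlgebraic k ((algebraMap k K2 (x - e q1))⁻¹ *
        ((algebraMap k K2 x - algebraMap k K2 (e q1)) * τ)) :=
      (isAlgebraic_algebraMap _).inv.mul k3
    rwa [← map_sub, ← mul_assoc, inv_mul_cancel₀ ((_root_.map_ne_zero _).2 hx2), one_mul] at k4
  · ext o
    simp [Θ]
  · rw [eval_prod, GG_eq]
    simp only [GG_eq, hΘC, hΘX]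
    exact alf_root n l0 c τ ξ j0 MvPolynomial.C hcj MvPolynomial.X

end inj

end Pool.Agent.Helper55.PR
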