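import Pool.Agent.Helper55.TT.SysC

/-!
# Hilbert irreducibility with densities: systems with algebraic solutions, tested over any field in
which the generic parameters are algebraically independent over the order
-/

set_option autoImplicit false
set_option linter.all false

namespace Pool.Agent.Helper55.PR

open MvPolynomial Pool.Agent.W275.UB Pool.Agent.W275.ND Pool.Agent Pool.Agent.H927R2.RD
open Pool.Agent.R939.HI Pool.Agent.H936R2 H294UB Pool.Agent.W131.ND.Lmk
open Pool.Agent.Helper55.TT

/-- the parameters are algebraically independent over the image of the order -/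
theorem phi_inj {O J ι : Type} [CommRing O] [IsDomain O] [Fintype J] (ω : Module.Basis J ℤ O)
    {L : Type} [Field L] [Algebra (EE (ι × J)) L] (σ : O →+* L) :
    Function.Injective (eval₂Hom σ (fun q => gn (ι × J) L (X q)) :
      MvPolynomial (ι × J) O →+* L) := by
  classical
  have hfinO : Module.Finite ℤ O := Module.Finite.of_basis ω
  have hgn : Function.Injective (gn (ι × J) L) :=
    (algebraMap (EE (ι × J)) L).injective.comp (IsFractionRing.injective _ _)
  have hΦ : (eval₂Hom σ (fun q => gn (ι × J) L (X q))).comp (mo O (ι × J)) = gn (ι × J) L := by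
    apply MvPolynomial.ringHom_ext'
    · exact RingHom.ext_int _ _
    · intro q
      simp [mo]
  exact inj_of_restrict _ (by rw [hΦ]; exact hgn)

/-- a field which is generated by the parameters over the order embeds in every field in which the
parameters are algebraically independent over the order -/
theorem lmk3 (O J : Type) [CommRing O] [IsDomain O] [Fintype J] (ω : Module.Basis J ℤ O)
    (ι : Type) (L : Type) [Field L] [Algebra (EE (ι × J)) L]
    [FiniteDimensional (EE (ι × J)) L] (σ : O →+* L)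
    (hfin : Module.finrank (EE (ι × J)) L ≤ Fintype.card J)
    {F : Type} [Field F] (Θ : MvPolynomial (ι × J) O →+* F) (hΘinj : Function.Injective Θ) :
    ∃ φ : L →+* F, (∀ o : O, φ (σ o) = Θ (C o)) ∧
      ∀ q, φ (gn (ι × J) L (X q)) = Θ (X q) := by
  classical
  have hfinO : Module.Finite ℤ O := Module.Finite.of_basis ω
  have hgn : Function.Injective (gn (ι × J) L) :=
    (algebraMap (EE (ι × J)) L).injective.comp (IsFractionRing.injective _ _)
  let Φ : MvPolynomial (ι × J) O →+* L := eval₂Hom σ (fun q => gn (ι × J) L (X q))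
  have hΦ : Φ.comp (mo O (ι × J)) = gn (ι × J) L := by
    apply MvPolynomial.ringHom_ext'
    · exact RingHom.ext_int _ _
    · intro q
      simp [Φ, mo]
  have hΦinj : Function.Injective Φ := phi_inj ω σ
  have hmo : Function.Injective (mo O (ι × J)) := by
    have h1 : Function.Injective (Φ ∘ mo O (ι × J)) := by
      rw [← RingHom.coe_comp, hΦ]
      exact hgn
    exact h1.of_comp
  let F1 : Type := FractionRing (MvPolynomial (ι × J) O)
  let algF1L : Algebra F1 L := (IsFractionRing.lift hΦinj : F1 →+* L).toAlgebra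
  have hE : Function.Injective ((algebraMap (MvPolynomial (ι × J) O) F1).comp (mo O (ι × J))) :=
    (IsFractionRing.injective (MvPolynomial (ι × J) O) F1).comp hmo
  let algEF1 : Algebra (EE (ι × J)) F1 := (IsFractionRing.lift hE : EE (ι × J) →+* F1).toAlgebra
  have hF1L : ∀ x : MvPolynomial (ι × J) O,
      algebraMap F1 L (algebraMap (MvPolynomial (ι × J) O) F1 x) = Φ x := fun x =>
    IsFractionRing.lift_algebraMap hΦinj x
  have hEF1 : ∀ c : MvPolynomial (ι × J) ℤ, algebraMap (EE (ι × J)) F1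
      (algebraMap (MvPolynomial (ι × J) ℤ) (EE (ι × J)) c) =
      algebraMap (MvPolynomial (ι × J) O) F1 (mo O (ι × J) c) := fun c =>
    IsFractionRing.lift_algebraMap hE c
  have htow : IsScalarTower (EE (ι × J)) F1 L := IsScalarTower.of_algebraMap_eq' (by
    apply IsLocalization.ringHom_ext (nonZeroDivisors (MvPolynomial (ι × J) ℤ))
    apply MvPolynomial.ringHom_ext'
    · exact RingHom.ext_int _ _
    · intro c
      change algebraMap (EE (ι × J)) L (algebraMap (MvPolynomial (ι × J) ℤ) (EE (ι × J)) (X c)) =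
        algebraMap F1 L (algebraMap (EE (ι × J)) F1
          (algebraMap (MvPolynomial (ι × J) ℤ) (EE (ι × J)) (X c)))
      rw [hEF1, hF1L]
      exact (DFunLike.congr_fun hΦ (X c)).symm)
  have hfd1 : FiniteDimensional (EE (ι × J)) F1 := FiniteDimensional.left (EE (ι × J)) F1 L
  have hfd2 : FiniteDimensional F1 L := FiniteDimensional.right (EE (ι × J)) F1 L
  have hcard : Fintype.card J ≤ Module.finrank (EE (ι × J)) F1 :=
    card_le ω F1 (algebraMap (MvPolynomial (ι × J) O) F1) (IsFractionRing.injective _ _)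
      (fun c => (hEF1 c).symm)
  have hmul : Module.finrank (EE (ι × J)) F1 * Module.finrank F1 L =
      Module.finrank (EE (ι × J)) L := Module.finrank_mul_finrank _ _ _
  have hpos : 0 < Module.finrank (EE (ι × J)) L := Module.finrank_pos
  have hle : Module.finrank F1 L ≤ 1 := by
    by_contra hcon
    have h1 : Fintype.card J * 2 ≤ Module.finrank (EE (ι × J)) F1 * Module.finrank F1 L :=
      Nat.mul_le_mul hcard (not_le.1 hcon)
    rw [hmul, mul_comm] at h1
    omega
  have hone : Module.finrank F1 L = 1 := le_antisymm hle Module.finrank_pos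
  have hsurj : Function.Surjective (algebraMap F1 L) :=
    Algebra.surjective_algebraMap_iff.2 (Subalgebra.bot_eq_top_of_finrank_eq_one hone).symm
  let e : F1 ≃+* L := RingEquiv.ofBijective (algebraMap F1 L) ⟨(algebraMap F1 L).injective, hsurj⟩
  let ψ : L →+* F := (IsFractionRing.lift hΘinj : F1 →+* F).comp (e.symm : L →+* F1)
  have hψΦ : ∀ x : MvPolynomial (ι × J) O, ψ (Φ x) = Θ x := by
    intro x
    have h1 : e.symm (Φ x) = algebraMap (MvPolynomial (ι × J) O) F1 x := by
      rw [RingEquiv.symm_apply_eq]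
      exact (hF1L x).symm
    show (IsFractionRing.lift hΘinj : F1 →+* F) (e.symm (Φ x)) = _
    rw [h1, IsFractionRing.lift_algebraMap]
  refine ⟨ψ, ?_, ?_⟩
  · intro o
    rw [← hψΦ (C o)]
    congr 1
    simp [Φ]
  · intro q
    rw [← hψΦ (X q)]
    congr 1
    simp [Φ]

/-- the elements of the order are algebraic -/
theorem ord_alg {O J ι : Type} [CommRing O] [IsDomain O] [Fintype J] (ω : Module.Basis J ℤ O)
    {Ω : Type} [Field Ω] [Algebra (EE (ι × J)) Ω] (σ : O →+* Ω) (x : O) :
    IsAlgebraic (EE (ι × J)) (σ x) := by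
  haveI : Module.Finite ℤ O := Module.Finite.of_basis ω
  have h1 : IsIntegral ℤ x := Algebra.IsIntegral.isIntegral x
  have h2 : IsIntegral ℤ (σ x) := h1.map (σ.toIntAlgHom)
  obtain ⟨p, hp, hpx⟩ := h2
  refine IsIntegral.isAlgebraic
    ⟨p.map (Int.castRingHom (EE (ι × J))), hp.map _, ?_⟩
  rw [Polynomial.eval₂_map]
  have h2 : (algebraMap (EE (ι × J)) Ω).comp
      (Int.castRingHom (EE (ι × J))) = algebraMap ℤ Ω := RingHom.ext_int _ _
  rw [h2]
  exact hpx

/-- the parameters are algebraic -/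
theorem par_alg {O J ι : Type} [CommRing O] [IsDomain O] [Fintype J] (ω : Module.Basis J ℤ O)
    {Ω : Type} [Field Ω] [Algebra (EE (ι × J)) Ω] (σ : O →+* Ω) (i : ι) :
    IsAlgebraic (EE (ι × J)) (cv (fun j => σ (ω j)) (fun q => gn (ι × J) Ω (X q)) i) := by
  simp only [cv]
  refine Finset.sum_induction _ (IsAlgebraic (EE (ι × J))) (fun _ _ => IsAlgebraic.add)
    isAlgebraic_zero ?_
  intro j _
  exact (ord_alg ω σ _).mul (isAlgebraic_algebraMap _)

/-- **Systems with algebraic solutions.** -/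
theorem sysE {O J ι τ : Type} [CommRing O] [IsDomain O] [Fintype J] [Fintype ι] [Fintype τ]
    (ω : Module.Basis J ℤ O) (S : Set (MvPolynomial (J ⊕ τ) (MvPolynomial (ι × J) ℤ)))
    (halg : ∀ (Ω : Type) [Field Ω] [IsAlgClosed Ω] [Algebra (EE (ι × J)) Ω] (σ : O →+* Ω)
      (y : J ⊕ τ → Ω), (∀ j, y (Sum.inl j) = σ (ω j)) →
      (∀ g ∈ S, eval₂ (gn (ι × J) Ω) y g = 0) → ∀ t, IsAlgebraic (EE (ι × J)) (y (Sum.inr t)))
    {F : Type} [Field F] (Θ : MvPolynomial (ι × J) O →+* F) (hΘ : Function.Injective Θ)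
    (hno : ∀ y : J ⊕ τ → F, (∀ j, y (Sum.inl j) = Θ (C (ω j))) →
      ¬ ∀ g ∈ S, eval₂ (Θ.comp (mo O (ι × J))) y g = 0) :
    D0 {x : ι × J → ℤ | ∃ (K : Type) (_ : Field K) (_ : NumberField K) (σ : O →+* K)
      (y : J ⊕ τ → K), Module.finrank ℚ K ≤ Fintype.card J ∧ (∀ j, y (Sum.inl j) = σ (ω j)) ∧
      ∀ g ∈ S, eval₂ ((Int.castRingHom K).comp (eval x)) y g = 0} := by
  classical
  by_contra hcon
  have hcon' : ¬ (∀ ε : ℝ, 0 < ε → UD ε {x : ι × J → ℤ |
      ∃ (K : Type) (_ : Field K) (_ : NumberField K) (y : J ⊕ τ → K),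
        Module.finrank ℚ K ≤ Fintype.card J ∧
        (∀ g ∈ gTT τ ω ι ∪ S, eval₂ ((Int.castRingHom K).comp (eval x)) y g = 0) ∧
        eval₂ ((Int.castRingHom K).comp (eval x)) y 1 ≠ 0}) := by
    intro h
    apply hcon
    intro ε hε
    refine (h ε hε).mono ?_
    rintro x ⟨K, _, _, σ, y, hK, hy, hS⟩
    refine ⟨K, inferInstance, inferInstance, y, hK, ?_, ?_⟩
    · rintro f (hf | hf)
      · exact (eval_gTT _ ω _ _).2 ((tab O J K ω _).2 ⟨σ, hy⟩) f hf
      · exact hS f hf
    · rw [eval₂_one]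
      exact one_ne_zero
  obtain ⟨L, _, _, y, hfd, hdeg, hy, hy0⟩ := genT (ι × J) (J ⊕ τ) (Fintype.card J)
    (gTT τ ω ι ∪ S) 1 (by
      intro Ω _ _ _ y hy
      obtain ⟨σ, hσ⟩ := (tab O J Ω ω _).1 ((eval_gTT _ ω _ _).1 fun g hg => hy g (Or.inl hg))
      intro t
      rcases t with j | t
      · rw [show y (Sum.inl j) = σ (ω j) from hσ j]
        exact ord_alg ω σ _
      · exact halg Ω σ y hσ (fun g hg => hy g (Or.inr hg)) t) hcon'
  haveI := hfd
  obtain ⟨σ, hσ⟩ := (tab O J L ω _).1 ((eval_gTT _ ω _ _).1 fun g hg => hy g (Or.inl hg))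
  obtain ⟨φ, hφ1, hφ2⟩ := lmk3 O J ω ι L σ hdeg Θ hΘ
  refine hno (fun t => φ (y t)) (fun j => ?_) ?_
  · rw [show y (Sum.inl j) = σ (ω j) from hσ j, hφ1]
  · intro g hg
    have h1 := congrArg φ (hy g (Or.inr hg))
    rw [map_zero, ← coe_eval₂Hom] at h1
    have h2 : φ.comp (eval₂Hom (gn (ι × J) L) y) =
        eval₂Hom (Θ.comp (mo O (ι × J))) (fun t => φ (y t)) := by
      apply MvPolynomial.ringHom_ext'
      · apply MvPolynomial.ringHom_ext'
        · exact RingHom.ext_int _ _
        · intro q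
          simp [mo, hφ2]
      · intro t
        simp
    have h3 := RingHom.congr_fun h2 g
    rw [RingHom.comp_apply, h1] at h3
    exact h3.symm

end Pool.Agent.Helper55.PR
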