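import Pool.Agent.Helper55.PR.Core

/-!
# The first layer: the classes modulo two are given by the section and the points of order two
-/

set_option autoImplicit false
set_option linter.all false

open Polynomial IsDedekindDomain WeierstrassCurve WeierstrassCurve.Affine
open scoped Classical

namespace Pool.Agent.Helper55.PR

open Pool.Agent.TH115.GD Pool.Agent.R939.EI Pool.Agent.Helper55.TT
open Pool.Agent.W309.TD (exists_root sq_of_nonsq compare)

section core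

variable {k k' K F : Type} [Field k] [Field k'] [Algebra k k'] [Field K] [Algebra k[X] K]
    [Field F] [Algebra k'[X] F] [IsFractionRing k'[X] F] [Algebra K F]

/-- the square root attached to the section -/
theorem sec_root {K Ω : Type} [Field K] [Field Ω] [Algebra K Ω] [IsSepClosed Ω] {A B : K}
    {α β : Ω} (hR : Roots A B Ω α β) {R : Pt (crvT A B) Ω}
    (hfix : ∀ g : Ω ≃ₐ[K] Ω, act _ (ak g) (2 • R) = 2 • R) {x y : Ω} {hn}
    (hx : 2 • R = Point.some x y hn) {q s : K} (hs : s ≠ 0) (hq : q ≠ 0)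
    (hxq : x = algebraMap K Ω (q * s ^ 2)) {y₀ : Ω} (hy₀ : y₀ ^ 2 = algebraMap K Ω q)
    (g : Ω ≃ₐ[K] Ω) : g y₀ = s0 (act (crvT A B) (ak g) R - R) * y₀ := by
  have hx0 : x ≠ 0 := by
    rw [hxq]
    exact (_root_.map_ne_zero _).2 (mul_ne_zero hq (pow_ne_zero 2 hs))
  have hRR : R + R = Point.some x y hn := by rw [← two_nsmul]; exact hx
  have h2 : R + R ≠ 0 := by
    rw [hRR]
    exact Point.some_ne_zero _
  have hh0 := h0_sq hR.E R
  rw [hRR] at hh0
  have hd0 : d0 α β (Point.some x y hn : Pt (crvT A B) Ω) = x := by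
    simp [d0, hx0]
  rw [hd0, hxq, map_mul, map_pow, ← hy₀, ← mul_pow] at hh0
  set T := act (crvT A B) (ak g) R - R with hTdef
  have hT2 : T + T = 0 := by
    rw [hTdef, sub_add_sub_comm, ← map_add, ← two_nsmul, hfix g, sub_self]
  have hTX : act (crvT A B) (ak g) R = R + T := by rw [hTdef]; abel
  obtain ⟨t0, -⟩ := h_translate hR.E hT2 (P := R) (fun h => absurd h h2)
  have g0 : h0 α β (R + T) = g (h0 α β R) := by
    rw [← hTX]
    exact hR.h0_act (ak g) R
  rw [t0] at g0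
  have hsΩ : algebraMap K Ω s ≠ 0 := (_root_.map_ne_zero _).2 hs
  rcases sq_eq_sq_iff_eq_or_eq_neg.1 hh0 with h | h
  · rw [h, map_mul, g.commutes] at g0
    apply mul_right_cancel₀ hsΩ
    rw [← g0]
    ring
  · rw [h, map_neg, map_mul, g.commutes] at g0
    apply mul_right_cancel₀ hsΩ
    linear_combination g0

/-- **The first layer.** -/
theorem step2 (hT : IsTower k k' K F) (h2 : (2 : k) ≠ 0) {a b D π ϖ q : k[X]}
    (H : Hyp a b D π ϖ q) {AK BK : K}
    (hAK : AK = algebraMap k[X] K (a * D)) (hBK : BK = algebraMap k[X] K (b * D ^ 2))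
    {α β : Sep F} (hR : Roots AK BK (Sep F) α β)
    {Rn : ℕ → Pt (crvT AK BK) (Sep F)} (hRS : ∀ j, 2 • Rn (j + 1) = Rn j)
    (hR0 : ∀ g : Sep F ≃ₐ[K] Sep F, act _ (ak g) (Rn 0) = Rn 0) {x y : Sep F} {hn}
    (hx : Rn 0 = Point.some x y hn) {s : K} (hs : s ≠ 0)
    (hxq : x = algebraMap K (Sep F) (algebraMap k[X] K q * s ^ 2))
    {c : ℕ → (Sep F ≃ₐ[F] Sep F) → Pt (crvT AK BK) (Sep F)}
    (hc : IsTateClass k' (crvT AK BK) c) :
    ∃ (ε : ℤ) (R : Pt (crvT AK BK) (Sep F)),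
      2 • (2 • R) = 0 ∧ (∀ σ : Sep F ≃ₐ[F] Sep F, act _ (rs K σ) (2 • R) = 2 • R) ∧
      ∀ σ, c 1 σ = ε • (act _ (rs K σ) (Rn 1) - Rn 1) + (act _ (rs K σ) R - R) := by
  haveI := hT.sep
  haveI := hT.fracK
  haveI : IsSepClosed k' := IsSepClosure.sep_closed k
  haveI : IsSepClosure K (Sep F) := sepKΩ hT.map
  haveI : Algebra.IsSeparable K (Sep F) := IsSepClosure.separable
  haveI : Algebra.IsSeparable F (Sep F) := IsSepClosure.separable
  haveI : IsGalois K (Sep F) := inferInstance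
  have hKF := hT.map
  have h2K : (2 : K) ≠ 0 := tt h2
  have injK := IsFractionRing.injective k[X] K
  have hdK0 : AK ^ 2 - 4 * BK ≠ 0 := by
    have hdK : AK ^ 2 - 4 * BK = algebraMap k[X] K (D ^ 2 * (a ^ 2 - 4 * b)) := by
      rw [hAK, hBK, ← map_pow, ← map_ofNat (algebraMap k[X] K) 4, ← map_mul, ← map_sub]
      congr 1
      ring
    rw [hdK, Ne, map_eq_zero_iff _ injK]
    exact mul_ne_zero (pow_ne_zero 2 H.D0) H.d0
  have hqK : algebraMap k[X] K q ≠ 0 := by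
    rw [Ne, map_eq_zero_iff _ injK]
    exact H.q0
  have hN : Preserves K F (Sep F) := preserves hKF
  -- the place
  have hπ := H.odd.1
  have hπD : π ∣ D := by
    obtain ⟨-, m, hm, -⟩ := H.odd
    exact (dvd_pow_self π (by omega)).trans hm
  obtain ⟨θ, hθ⟩ := exists_root_sep (k' := k') hπ (H.sep π hπ (hπD.mul_left _))
  let ι : Sep F →ₐ[F] Sep (Comp k'[X] F (pl θ)) := IsSepClosed.lift
  have h2Ω : (2 : Sep F) ≠ 0 := hR.E.two
  haveI : NeZero ((2 : ℕ) : Sep F) := ⟨by exact_mod_cast h2Ω⟩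
  obtain ⟨r, hr⟩ := IsSepClosed.exists_pow_nat_eq (algebraMap K (Sep F) (algebraMap k[X] K D)) 2
  have hA := addPl hT h2 H.D0 H.odd H.πb hθ ι (by rw [← hAK, ← hBK]; exact hR) hr
  obtain ⟨γ, hγ, hγr⟩ := hA.exists_flip
  -- the extension
  have htor := fun m X hX h => hA.tors hR m (X := X) hX h
  obtain ⟨C, hC, hC0, hCF⟩ := exists_lift htor hN hc.tc hc.inv
  have hc2 : ∀ σ, c 1 σ + c 1 σ = 0 := fun σ => by
    rw [← two_nsmul, hc.tc.two 0 σ, hc.tc.zero]
  set P0 := c 1 γ with hP0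
  have hP02 : P0 + P0 = 0 := hc2 γ
  have hdec1 : ∀ g : Sep F ≃ₐ[K] Sep F, InD K (Comp k'[X] F (pl θ)) ι g →
      C 0 g = P0 - act _ (ak g) P0 := by
    intro g hg
    rw [← hC.two 0 g]
    refine hA.dec hR hN hr hc.tc.coc hC 1 (fun σ _ => hc2 σ) hγ hγr hg ?_
    rw [hC.two, hC0]
  obtain ⟨S1, hS1, hCS1⟩ := hC.lc 0
  -- the cocycle `C 0 + d P0`
  set E0 : (Sep F ≃ₐ[K] Sep F) → Pt (crvT AK BK) (Sep F) :=
    fun g => C 0 g + (act _ (ak g) P0 - P0) with hE0
  have hE0m : ∀ σ τ, E0 (σ * τ) = E0 σ + act _ (ak σ) (E0 τ) := by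
    intro σ τ
    show C 0 (σ * τ) + (act _ (ak (σ * τ)) P0 - P0) = C 0 σ + (act _ (ak σ) P0 - P0) +
      act _ (ak σ) (C 0 τ + (act _ (ak τ) P0 - P0))
    rw [hC.mul, cobmul, map_add]
    abel
  have hE02 : ∀ σ, E0 σ + E0 σ = 0 := by
    intro σ
    show C 0 σ + (act _ (ak σ) P0 - P0) + (C 0 σ + (act _ (ak σ) P0 - P0)) = 0
    have h1 := hC0 σ
    rw [two_nsmul] at h1
    rw [add_add_add_comm, h1, zero_add, sub_add_sub_comm, ← map_add, hP02, map_zero, sub_self]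
  have hE0F : ∀ σ : Sep F ≃ₐ[F] Sep F,
      E0 (σ.restrictScalars K) = act _ (rs K σ) P0 - P0 := by
    intro σ
    show C 0 (σ.restrictScalars K) + (act _ (rs K σ) P0 - P0) = _
    rw [hC.res, hc.tc.zero, zero_add]
  have hE0I : ∀ σ : Sep F ≃ₐ[F] Sep F, InI (Comp k'[X] F (pl θ)) ι σ →
      E0 (σ.restrictScalars K) = 0 := by
    intro σ hσ
    rw [hE0F, hA.fix_two hR hσ hP02, sub_self]
  have hE0D : ∀ g : Sep F ≃ₐ[K] Sep F, InD K (Comp k'[X] F (pl θ)) ι g → E0 g = 0 := by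
    intro g hg
    show C 0 g + (act _ (ak g) P0 - P0) = 0
    rw [hdec1 g hg]
    abel
  have hE0S : ∀ u : Sep F ≃ₐ[K] Sep F, (∀ x ∈ S1 ∪ crd (crvT AK BK) P0, u x = x) →
      E0 u = 0 := by
    intro u hu
    show C 0 u + (act _ (ak u) P0 - P0) = 0
    rw [hCS1 u fun x hx => hu x (Or.inl hx), act_crd _ (fun x hx => hu x (Or.inr hx)), sub_self,
      add_zero]
  have hSfin : (S1 ∪ crd (crvT AK BK) P0).Finite := hS1.union (crd_fin _ _)
  obtain ⟨uP, uP0, huP, huPφ⟩ := tw_root hR hP02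
  -- even valuations of elements fixed by `Gal(Sep F / F)`
  have evF : ∀ (z : Sep F) (e : K), z ≠ 0 → z ^ 2 = algebraMap K (Sep F) e →
      (∀ σ : Sep F ≃ₐ[F] Sep F, σ z = z) → ∀ v : HeightOneSpectrum k'[X],
        par v (algebraMap K F e) = 0 := by
    intro z e z0 hz hfix v
    have h1 : z ∈ Set.range (algebraMap F (Sep F)) := by
      rw [InfiniteGalois.mem_range_algebraMap_iff_fixed]
      exact hfix
    obtain ⟨t, rfl⟩ := h1
    have ht0 : t ≠ 0 := by
      rintro rfl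
      exact z0 (map_zero _)
    have h3 : algebraMap K F e = t ^ 2 := by
      apply inj_alg (E := Sep F)
      rw [← IsScalarTower.algebraMap_apply K F (Sep F), ← hz, map_pow]
    rw [h3, par_pow_two v ht0]
  have hsep0 : ∀ ρ : k[X], Irreducible ρ → ρ ∣ a ^ 2 - 4 * b → ρ.Separable := fun ρ hρ h =>
    H.sep ρ hρ ((h.mul_left b).mul_right D)
  have h1 : ∀ g, s0 (E0 g) = 1 := by
    refine char_one hT h2 H.d0 hsep0 hπ H.ind0 hθ ι (χ := fun g => s0 (E0 g)) (fun g => s0_sq _)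
      (mul0 hR hE0m hE02) hSfin (fun u hu => by rw [hE0S u hu]; rfl) ?_
      (fun σ hσ => by rw [hE0I σ hσ]; rfl) (fun g hg => by rw [hE0D g hg]; rfl)
    intro z e z0 hz hσz v hv
    refine evF z e z0 hz (fun σ => ?_) v
    have e1 := hσz σ
    have e3 : s0 (E0 (σ.restrictScalars K)) = 1 := by
      rw [hE0F]
      rcases (huPφ (rs K σ)).1 with h | h
      · rw [h]; rfl
      · rw [h, s0_pt0]
    simp only [e3, one_mul] at e1
    exact e1
  have hE0T : ∀ g, E0 g = 0 ∨ E0 g = pt0 hR.E := fun g => tor_s0 hR.E (hE02 g) (h1 g)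
  have h3 : ∀ g, s1 α (E0 g) = 1 := by
    refine char_one hT h2 H.d0 hsep0 hπ H.ind0 hθ ι (χ := fun g => s1 α (E0 g))
      (fun g => s1_sq _ _)
      (mul1 hR hE0m hE0T) hSfin (fun u hu => by rw [hE0S u hu]; rfl) ?_
      (fun σ hσ => by rw [hE0I σ hσ]; rfl) (fun g hg => by rw [hE0D g hg]; rfl)
    intro z e z0 hz hσz v hv
    rcases huP with h | h
    · refine evF z e z0 hz (fun σ => ?_) v
      have e1 := hσz σ
      have e3 := (huPφ (rs K σ)).2
      rw [h, map_one, mul_one] at e3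
      simp only [hE0F, ← e3, one_mul] at e1
      exact e1
    · obtain ⟨t, ht, hzt⟩ := compare (K := F) z0 uP0
        (fun σ => s1 α (act (crvT AK BK) (rs K σ) P0 - P0)) (fun σ => s1_ne _ _)
        (fun σ => by
          have e1 := hσz σ
          simp only [hE0F] at e1
          exact e1) (fun σ => (huPφ (rs K σ)).2)
      have h4 : algebraMap K F e = t ^ 2 * algebraMap K F (AK ^ 2 - 4 * BK) := by
        apply inj_alg (E := Sep F)
        rw [← IsScalarTower.algebraMap_apply K F (Sep F), ← hz, hzt, mul_pow, h, map_mul,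
          map_pow, ← IsScalarTower.algebraMap_apply K F (Sep F)]
      have h5 : algebraMap K F (AK ^ 2 - 4 * BK) ≠ 0 := (_root_.map_ne_zero _).2 hdK0
      rw [h4, par_sq v ht h5, pardP hT H.D0 H.d0 hAK hBK v hv]
  have hE00 : ∀ g, E0 g = 0 := by
    intro g
    refine tor_ext hR.E (hE02 g) (add_zero 0) ?_ ?_
    · rw [h1]; rfl
    · rw [h3]; rfl
  have hP0F : ∀ σ : Sep F ≃ₐ[F] Sep F, act _ (rs K σ) P0 = P0 := by
    intro σ
    have := hE00 (σ.restrictScalars K)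
    rw [hE0F] at this
    exact sub_eq_zero.1 this
  -- the new class
  have hdiv : ∀ X : Pt (crvT AK BK) (Sep F), ∃ Y, Y + Y = X := halve_sep hR.E
  choose hv hhv using hdiv
  obtain ⟨S, hS0, hSS⟩ : ∃ S : ℕ → Pt (crvT AK BK) (Sep F), S 0 = P0 ∧
      ∀ j, 2 • S (j + 1) = S j :=
    ⟨fun j => Nat.rec P0 (fun _ X => hv X) j, rfl, fun j => by
      rw [two_nsmul]
      exact hhv _⟩
  have hS1S : S 1 + S 1 = P0 := by rw [← two_nsmul, hSS 0, hS0]
  have cocS : ∀ (T : ℕ → Pt (crvT AK BK) (Sep F)) (n : ℕ),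
      IsCoc (crvT AK BK) (fun σ : Sep F ≃ₐ[F] Sep F => c n σ + (act _ (rs K σ) (T n) - T n)) ∧
      LocallyTrivial k' (crvT AK BK)
        (fun σ : Sep F ≃ₐ[F] Sep F => c n σ + (act _ (rs K σ) (T n) - T n)) := by
    intro T n
    have e : (fun σ : Sep F ≃ₐ[F] Sep F => c n σ + (act (crvT AK BK) (rs K σ) (T n) - T n)) =
        fun σ => c n σ - (act _ (rs K σ) (-T n) - (-T n)) := by
      funext σ
      rw [map_neg]
      abel
    rw [e]
    exact ⟨(hc.tc.coc n).sub _ (cob_isCoc _ _), lt_subT (hc.loc n) _⟩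
  obtain ⟨y₀, hy₀⟩ := IsSepClosed.exists_pow_nat_eq
    (algebraMap K (Sep F) (algebraMap k[X] K q)) 2
  have hy₀0 : y₀ ≠ 0 := by
    rintro rfl
    rw [zero_pow two_ne_zero] at hy₀
    exact hqK ((_root_.map_eq_zero _).1 hy₀.symm)
  have hRx : 2 • Rn 1 = Point.some x y hn := by rw [hRS 0, hx]
  have hRfix : ∀ g : Sep F ≃ₐ[K] Sep F, act _ (ak g) (2 • Rn 1) = 2 • Rn 1 := by
    intro g
    rw [hRS 0]
    exact hR0 g
  have hsec := sec_root hR hRfix hRx hs hqK hxq hy₀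
  -- the first character
  have hC' := hC.add hSS
  have hC'0 : ∀ g, C 0 g + (act _ (ak g) (S 0) - S 0) = 0 := by
    intro g
    rw [hS0]
    exact hE00 g
  have hc'γ : c 1 γ + (act _ (rs K γ) (S 1) - S 1) = 0 := by
    rw [hA.neg_four hR hγ hγr (by rw [hSS, hS0, two_nsmul]; exact hP02), ← hP0, ← hS1S]
    abel
  obtain ⟨hI, hQ2, hdec⟩ := norm1 hA hR hN hr (fun n => (cocS S n).1) hC' hC'0 hγ hγr hc'γ
  set Q := c 2 γ + (act (crvT AK BK) (rs K γ) (S 2) - S 2) with hQ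
  have hC'2 : ∀ g, (C 1 g + (act _ (ak g) (S 1) - S 1)) +
      (C 1 g + (act _ (ak g) (S 1) - S 1)) = 0 := by
    intro g
    rw [← two_nsmul, hC'.two 0 g, hC'0]
  obtain ⟨S2, hS2, hCS2⟩ := hC'.lc 1
  have h5 : (∀ g, s0 (C 1 g + (act (crvT AK BK) (ak g) (S 1) - S 1)) = 1) ∨
      ∀ g : Sep F ≃ₐ[K] Sep F, g y₀ =
        s0 (C 1 g + (act (crvT AK BK) (ak g) (S 1) - S 1)) * y₀ := by
    refine char_two hT h2 (mul_ne_zero (mul_ne_zero H.b0 H.d0) H.D0) H.q0 H.sep hπ H.ind hθ ι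
      (χ := fun g => s0 (C 1 g + (act (crvT AK BK) (ak g) (S 1) - S 1))) (fun g => s0_sq _)
      (mul0 hR (hC'.mul 1) hC'2) hS2 (fun u hu => by rw [hCS2 u hu]; rfl) ?_
      (fun σ hσ => ?_) (fun g hg => ?_) hy₀
    · intro z e z0 hz hσz v hv
      refine ev0 hT hAK hBK hR (f := fun σ => c 1 σ + (act (crvT AK BK) (rs K σ) (S 1) - S 1))
        (fun σ => ?_) (cocS S 1).2 z0 hz (fun σ => ?_) v hv
      · have := hC'2 (σ.restrictScalars K)
        rw [hC.res] at this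
        exact this
      · have e1 := hσz σ
        rw [hC.res] at e1
        exact e1
    · have e1 := hI σ hσ
      have e2 := hC'.res 1 σ
      rw [e1] at e2
      rw [e2]
      rfl
    · have h6 : act (crvT AK BK) (ak g) Q + act (crvT AK BK) (ak g) Q = 0 :=
        (two_act _ _ _).2 hQ2
      have e1 : C 1 g + (act (crvT AK BK) (ak g) (S 1) - S 1) = Q - act _ (ak g) Q := hdec g hg
      show s0 (C 1 g + (act (crvT AK BK) (ak g) (S 1) - S 1)) = 1
      rw [e1, sub_eq_add_neg, neg_eq_of_add_eq_zero_left h6, (s_addA hR.E hQ2 h6).1, s0_fix]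
      rcases s0_sq Q with h | h <;> rw [h] <;> ring
  -- the two cases
  have fin : ∀ (ε : ℤ) (T : ℕ → Pt (crvT AK BK) (Sep F)), (∀ j, 2 • T (j + 1) = T j) →
      (∀ n, T n = S n - ε • Rn n) →
      (∀ g, s0 (C 1 g + (act (crvT AK BK) (ak g) (T 1) - T 1)) = 1) →
      ∃ (R : Pt (crvT AK BK) (Sep F)),
      2 • (2 • R) = 0 ∧ (∀ σ : Sep F ≃ₐ[F] Sep F, act _ (rs K σ) (2 • R) = 2 • R) ∧
      ∀ σ, c 1 σ = ε • (act _ (rs K σ) (Rn 1) - Rn 1) + (act _ (rs K σ) R - R) := by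
    intro ε T hTT hTn hTs
    have hz : ∀ g, C 0 g + (act _ (ak g) (T 0) - T 0) = 0 := by
      intro g
      rw [hTn 0, map_sub, map_zsmul, hR0 g]
      have := hC'0 g
      have e : (act (crvT AK BK) (ak g) (S 0) - ε • Rn 0) - (S 0 - ε • Rn 0) =
        act (crvT AK BK) (ak g) (S 0) - S 0 := by abel
      rw [e]
      exact this
    obtain ⟨Q', hQ', hfin⟩ := core2 hT h2 H hAK hBK hR (fun n => (cocS T n).1)
      (fun n => (cocS T n).2) (hC.add hTT) hz hTs
    refine ⟨Q' - S 1, ?_, fun σ => ?_, fun σ => ?_⟩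
    · rw [smul_sub, smul_sub, hSS, two_nsmul Q', hQ', smul_zero, zero_sub, hS0, two_nsmul, hP02,
        neg_zero]
    · rw [smul_sub, hSS, two_nsmul Q', hQ', zero_sub, hS0, map_neg, hP0F]
    · have e0 : c 1 σ + (act _ (rs K σ) (T 1) - T 1) = act _ (rs K σ) Q' - Q' := hfin σ
      rw [hTn 1, map_sub, map_zsmul, ← eq_sub_iff_add_eq] at e0
      rw [e0, map_sub, smul_sub]
      abel
  rcases h5 with h5 | h5
  · obtain ⟨R, h6, h7, h8⟩ := fin 0 S hSS (fun n => by rw [zero_smul, sub_zero]) h5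
    exact ⟨0, R, h6, h7, h8⟩
  · obtain ⟨R, h6, h7, h8⟩ := fin 1 (fun n => S n - Rn n) (fun j => by
      rw [smul_sub, hSS, hRS]) (fun n => by rw [one_smul]) (fun g => by
        have hT2 : (act (crvT AK BK) (ak g) (Rn 1) - Rn 1) +
            (act (crvT AK BK) (ak g) (Rn 1) - Rn 1) = 0 := by
          rw [sub_add_sub_comm, ← map_add, ← two_nsmul, hRfix g, sub_self]
        have e1 : C 1 g + (act (crvT AK BK) (ak g) (S 1 - Rn 1) - (S 1 - Rn 1)) =
            (C 1 g + (act (crvT AK BK) (ak g) (S 1) - S 1)) +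
              (act (crvT AK BK) (ak g) (Rn 1) - Rn 1) := by
          have e2 : act (crvT AK BK) (ak g) (Rn 1) - Rn 1 =
              -(act (crvT AK BK) (ak g) (Rn 1) - Rn 1) := eq_neg_of_add_eq_zero_left hT2
          rw [map_sub]
          calc C 1 g + (act (crvT AK BK) (ak g) (S 1) - act (crvT AK BK) (ak g) (Rn 1) -
                (S 1 - Rn 1)) = (C 1 g + (act (crvT AK BK) (ak g) (S 1) - S 1)) +
                -(act (crvT AK BK) (ak g) (Rn 1) - Rn 1) := by abel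
            _ = _ := by rw [← e2]
        rw [e1, (s_addA hR.E (hC'2 g) hT2).1]
        have e3 := hsec g
        rw [h5 g] at e3
        have e4 := mul_right_cancel₀ hy₀0 e3
        rw [e4]
        rcases s0_sq (act (crvT AK BK) (ak g) (Rn 1) - Rn 1) with h | h <;> rw [h] <;> ring)
    exact ⟨1, R, h6, h7, h8⟩

end core

end Pool.Agent.Helper55.PR
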