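import Pool.Agent.Helper55.PR.HG
import Pool.Agent.Helper55.TT.DenC

/-!
# Hilbert irreducibility with densities: the values of a quadratic form at two polynomials of the
family
-/

set_option autoImplicit false
set_option linter.all false

namespace Pool.Agent.Helper55.PR

open MvPolynomial Pool.Agent.W275.UB Pool.Agent.W275.ND Pool.Agent Pool.Agent.H927R2.RD
open Pool.Agent.R939.HI Pool.Agent.H936R2 H294UB Pool.Agent.W131.ND.Lmk
open Pool.Agent.Helper55.TT Pool.Agent.R939.EI

open scoped Polynomial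

/-- the quadratic form -/
noncomputable def Q3 {R : Type} [CommRing R] (E a b G M : R[X]) : R[X] :=
  E * G ^ 2 + a * G * M + b * M ^ 2

theorem Q3_map {R R' : Type} [CommRing R] [CommRing R'] (f : R →+* R') (E a b G M : R[X]) :
    (Q3 E a b G M).map f = Q3 (E.map f) (a.map f) (b.map f) (G.map f) (M.map f) := by
  simp only [Q3, Polynomial.map_add, Polynomial.map_mul, Polynomial.map_pow]

section subst

variable {u : ℕ} (n : Fin u → ℕ) (l0 : Fin u) {J O : Type} [Fintype J] [CommRing O]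
  (ω : Module.Basis J ℤ O)

/-- the form over a ring in which the parameters are given -/
noncomputable def QV {R : Type} [CommRing R] (E a b : O[X]) (σ : O →+* R)
    (v : (Σ l : Fin u, Fin (n l + 1)) → R) : R[X] :=
  Q3 (E.map σ) (a.map σ) (b.map σ) (polA fun j => v ⟨l0, j⟩)
    (∏ l ∈ Finset.univ.erase l0, polA fun j => v ⟨l, j⟩)

theorem QV_map {R R' : Type} [CommRing R] [CommRing R'] (f : R →+* R') (E a b : O[X])
    (σ : O →+* R) (v : (Σ l : Fin u, Fin (n l + 1)) → R) :
    (QV n l0 E a b σ v).map f = QV n l0 E a b (f.comp σ) (fun i => f (v i)) := by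
  rw [QV, Q3_map, QV, Polynomial.map_map, Polynomial.map_map, Polynomial.map_map, polA_map,
    Polynomial.map_prod]
  congr 1
  refine Finset.prod_congr rfl fun l _ => ?_
  rw [polA_map]

/-- the form, in terms of the unknown images of the basis -/
noncomputable def gQ3 (τ : Type) (E a b : O[X]) :
    Polynomial (MvPolynomial (J ⊕ τ) (MvPolynomial ((Σ l : Fin u, Fin (n l + 1)) × J) ℤ)) :=
  Q3 (gQX ω τ _ E) (gQX ω τ _ a) (gQX ω τ _ b) ((PX n l0).map (sbT τ _ J))
    ((∏ l ∈ Finset.univ.erase l0, PX n l).map (sbT τ _ J))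

theorem map_gQ3 {τ R : Type} [CommRing R]
    (φ : MvPolynomial ((Σ l : Fin u, Fin (n l + 1)) × J) ℤ →+* R) (y : J ⊕ τ → R)
    (σ : O →+* R) (hσ : ∀ j, y (Sum.inl j) = σ (ω j)) (E a b : O[X]) :
    (gQ3 n l0 ω τ E a b).map (eval₂Hom φ y) =
      QV n l0 E a b σ (cv (fun j => σ (ω j)) fun q => φ (X q)) := by
  have hv : (fun j => y (Sum.inl j)) = fun j => σ (ω j) := funext hσ
  rw [gQ3, Q3_map, map_gQX ω φ y σ hσ, map_gQX ω φ y σ hσ, map_gQX ω φ y σ hσ,
    Polynomial.map_map, Polynomial.map_map, eval_sbT, hv, map_PX, map_prodPX]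
  rfl

/-- the equations `g h = Q` -/
noncomputable def S1 (i m : ℕ) (E a b : O[X]) :
    Set (MvPolynomial (J ⊕ (Fin i ⊕ Fin m)) (MvPolynomial ((Σ l : Fin u, Fin (n l + 1)) × J) ℤ)) :=
  Set.range fun l : ℕ => (pm (fun j : Fin i => X (Sum.inr (Sum.inl j))) *
    pl (fun j : Fin m => X (Sum.inr (Sum.inr j))) - gQ3 n l0 ω (Fin i ⊕ Fin m) E a b).coeff l

theorem eval_S1 {i m : ℕ} {R : Type} [CommRing R]
    (φ : MvPolynomial ((Σ l : Fin u, Fin (n l + 1)) × J) ℤ →+* R) (y : J ⊕ (Fin i ⊕ Fin m) → R)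
    (σ : O →+* R) (hσ : ∀ j, y (Sum.inl j) = σ (ω j)) (E a b : O[X]) :
    (∀ g ∈ S1 n l0 ω i m E a b, eval₂ φ y g = 0) ↔
      pm (fun j : Fin i => y (Sum.inr (Sum.inl j))) * pl (fun j : Fin m => y (Sum.inr (Sum.inr j))) =
        QV n l0 E a b σ (cv (fun j => σ (ω j)) fun q => φ (X q)) := by
  have key : ∀ l, eval₂ φ y ((pm (fun j : Fin i => (X (Sum.inr (Sum.inl j)) :
      MvPolynomial (J ⊕ (Fin i ⊕ Fin m)) (MvPolynomial ((Σ l : Fin u, Fin (n l + 1)) × J) ℤ))) *
      pl (fun j : Fin m => X (Sum.inr (Sum.inr j))) - gQ3 n l0 ω (Fin i ⊕ Fin m) E a b).coeff l) =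
      (pm (fun j : Fin i => y (Sum.inr (Sum.inl j))) *
        pl (fun j : Fin m => y (Sum.inr (Sum.inr j))) -
        QV n l0 E a b σ (cv (fun j => σ (ω j)) fun q => φ (X q))).coeff l := by
    intro l
    rw [← coe_eval₂Hom, ← Polynomial.coeff_map, Polynomial.map_sub, Polynomial.map_mul, pm_map,
      pl_map, map_gQ3 n l0 ω φ y σ hσ]
    simp
  constructor
  · intro h
    rw [← sub_eq_zero]
    ext l
    rw [← key, Polynomial.coeff_zero]
    exact h _ ⟨l, rfl⟩
  · rintro h _ ⟨l, rfl⟩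
    have h1 := key l
    rw [h, sub_self, Polynomial.coeff_zero] at h1
    exact h1

/-- the equations `w² - c = Q h` -/
noncomputable def S2 (q m : ℕ) (E a b c : O[X]) :
    Set (MvPolynomial (J ⊕ (Fin q ⊕ Fin m)) (MvPolynomial ((Σ l : Fin u, Fin (n l + 1)) × J) ℤ)) :=
  Set.range fun l : ℕ => ((pl (fun j : Fin q => X (Sum.inr (Sum.inl j)))) ^ 2 -
    gQX ω (Fin q ⊕ Fin m) _ c - gQ3 n l0 ω (Fin q ⊕ Fin m) E a b *
    pl (fun j : Fin m => X (Sum.inr (Sum.inr j)))).coeff l

theorem eval_S2 {q m : ℕ} {R : Type} [CommRing R]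
    (φ : MvPolynomial ((Σ l : Fin u, Fin (n l + 1)) × J) ℤ →+* R) (y : J ⊕ (Fin q ⊕ Fin m) → R)
    (σ : O →+* R) (hσ : ∀ j, y (Sum.inl j) = σ (ω j)) (E a b c : O[X]) :
    (∀ g ∈ S2 n l0 ω q m E a b c, eval₂ φ y g = 0) ↔
      (pl (fun j : Fin q => y (Sum.inr (Sum.inl j)))) ^ 2 - c.map σ =
        QV n l0 E a b σ (cv (fun j => σ (ω j)) fun q => φ (X q)) *
          pl (fun j : Fin m => y (Sum.inr (Sum.inr j))) := by
  have key : ∀ l, eval₂ φ y (((pl (fun j : Fin q => (X (Sum.inr (Sum.inl j)) :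
      MvPolynomial (J ⊕ (Fin q ⊕ Fin m)) (MvPolynomial ((Σ l : Fin u, Fin (n l + 1)) × J) ℤ)))) ^ 2 -
      gQX ω (Fin q ⊕ Fin m) _ c - gQ3 n l0 ω (Fin q ⊕ Fin m) E a b *
      pl (fun j : Fin m => X (Sum.inr (Sum.inr j)))).coeff l) =
      ((pl (fun j : Fin q => y (Sum.inr (Sum.inl j)))) ^ 2 - c.map σ -
        QV n l0 E a b σ (cv (fun j => σ (ω j)) fun q => φ (X q)) *
          pl (fun j : Fin m => y (Sum.inr (Sum.inr j)))).coeff l := by
    intro l
    rw [← coe_eval₂Hom, ← Polynomial.coeff_map, Polynomial.map_sub, Polynomial.map_sub,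
      Polynomial.map_mul, Polynomial.map_pow, pl_map,
      pl_map, map_gQ3 n l0 ω φ y σ hσ, map_gQX ω φ y σ hσ]
    simp
  constructor
  · intro h
    rw [← sub_eq_zero]
    ext l
    rw [← key, Polynomial.coeff_zero]
    exact h _ ⟨l, rfl⟩
  · rintro h _ ⟨l, rfl⟩
    have h1 := key l
    rw [h, sub_self, Polynomial.coeff_zero] at h1
    exact h1

/-- the generic form over the order -/
noncomputable def QB (E a b : O[X]) :
    Polynomial (MvPolynomial ((Σ l : Fin u, Fin (n l + 1)) × J) O) :=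
  QV n l0 E a b C (cv (fun j => C (ω j)) X)

theorem QB_map {R : Type} [CommRing R] (E a b : O[X])
    (Θ : MvPolynomial ((Σ l : Fin u, Fin (n l + 1)) × J) O →+* R) :
    (QB n l0 ω E a b).map Θ =
      QV n l0 E a b (Θ.comp C) (cv (fun j => Θ (C (ω j))) fun q => Θ (X q)) := by
  rw [QB, QV_map]
  congr 1
  funext i
  simp only [cv, map_sum, map_mul]

end subst

section dens

variable {u : ℕ} (n : Fin u → ℕ) (l0 : Fin u) {J O : Type} [Fintype J] [CommRing O] [IsDomain O]
  (ω : Module.Basis J ℤ O)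

include ω in
theorem omega_alg {ι : Type} {Ω : Type} [Field Ω] [Algebra (EE (ι × J)) Ω] (σ : O →+* Ω)
    (z : MvPolynomial (ι × J) O) :
    IsAlgebraic (EE (ι × J)) ((eval₂Hom σ (fun q => gn (ι × J) Ω (X q))) z) := by
  induction z using MvPolynomial.induction_on with
  | C o =>
    simp only [coe_eval₂Hom, eval₂_C]
    exact ord_alg ω σ o
  | add p q hp hq =>
    rw [map_add]
    exact hp.add hq
  | mul_X p q hp =>
    rw [map_mul]
    refine hp.mul ?_
    simp only [coe_eval₂Hom, eval₂_X]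
    exact isAlgebraic_algebraMap _

/-- **Factorisations.** -/
theorem dens1 (E a b : O[X]) (i m : ℕ) {F : Type} [Field F]
    (Θ : MvPolynomial ((Σ l : Fin u, Fin (n l + 1)) × J) O →+* F) (hΘ : Function.Injective Θ)
    (h0 : QB n l0 ω E a b ≠ 0)
    (hno : ∀ (g : Fin i → F) (h : Fin m → F), pm g * pl h ≠ (QB n l0 ω E a b).map Θ) :
    D0 {x : (Σ l : Fin u, Fin (n l + 1)) × J → ℤ | ∃ (K : Type) (_ : Field K) (_ : NumberField K)
      (σ : O →+* K) (g : Fin i → K) (h : Fin m → K), Module.finrank ℚ K ≤ Fintype.card J ∧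
      pm g * pl h = QV n l0 E a b σ (cv (fun j => σ (ω j)) fun q => (x q : K))} := by
  classical
  have key := sysE (τ := Fin i ⊕ Fin m) ω (S1 n l0 ω i m E a b) (by
    intro Ω _ _ _ σ y hσ hy
    have h1 := (eval_S1 n l0 ω _ y σ hσ E a b).1 hy
    set Φ : MvPolynomial ((Σ l : Fin u, Fin (n l + 1)) × J) O →+* Ω :=
      eval₂Hom σ (fun q => gn ((Σ l : Fin u, Fin (n l + 1)) × J) Ω (X q)) with hΦ
    have hΦi : Function.Injective Φ := phi_inj ω σ
    have h2 : QV n l0 E a b σ (cv (fun j => σ (ω j)) fun q =>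
        gn ((Σ l : Fin u, Fin (n l + 1)) × J) Ω (X q)) = (QB n l0 ω E a b).map Φ := by
      rw [QB_map]
      have e1 : Φ.comp C = σ := by
        ext o
        simp [hΦ]
      have e2 : ∀ o, Φ (C o) = σ o := by
        intro o
        simp [hΦ]
      have e3 : ∀ q, Φ (X q) = gn ((Σ l : Fin u, Fin (n l + 1)) × J) Ω (X q) := by
        intro q
        simp [hΦ]
      simp only [e1, e2, e3]
    rw [h2] at h1
    have hne : (QB n l0 ω E a b).map Φ ≠ 0 := by
      rwa [Ne, Polynomial.map_eq_zero_iff hΦi]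
    obtain ⟨hga, hha⟩ := isAlg_factor (E := EE ((Σ l : Fin u, Fin (n l + 1)) × J)) hne
      (fun n => by
        rw [Polynomial.coeff_map]
        exact omega_alg ω σ _) (pm_monic _) h1
    intro t
    rcases t with j | j
    · have h5 := hga j
      rw [pm_eq, Polynomial.coeff_add, Polynomial.coeff_X_pow, if_neg (by have := j.2; omega),
        zero_add, pl_coeff, dif_pos j.2] at h5
      exact h5
    · have h5 := hha j
      rw [pl_coeff, dif_pos j.2] at h5
      exact h5) Θ hΘ (by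
    intro y hy hS
    have h1 := (eval_S1 n l0 ω _ y (Θ.comp C) hy E a b).1 hS
    apply hno (fun j => y (Sum.inr (Sum.inl j))) (fun j => y (Sum.inr (Sum.inr j)))
    rw [h1, QB_map]
    congr 1
    funext i
    simp [cv, mo])
  intro ε hε
  refine (key ε hε).mono ?_
  rintro x ⟨K, _, _, σ, g, h, hK, e⟩
  refine ⟨K, inferInstance, inferInstance, σ, Sum.elim (fun j => σ (ω j)) (Sum.elim g h), hK,
    fun j => rfl, ?_⟩
  refine (eval_S1 n l0 ω _ _ σ (fun j => rfl) E a b).2 ?_
  have hx : ∀ q : (Σ l : Fin u, Fin (n l + 1)) × J,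
      ((Int.castRingHom K).comp (eval x)) (X q) = (x q : K) := by
    intro q
    simp
  simp only [hx, Sum.elim_inl, Sum.elim_inr]
  exact e

/-- solutions of `w² - c = P h` -/
theorem isAlg_sq {E Ω : Type} [Field E] [Field Ω] [IsAlgClosed Ω] [Algebra E Ω]
    {P c w h : Polynomial Ω} (hP : ∀ n, IsAlgebraic E (P.coeff n))
    (hc : ∀ n, IsAlgebraic E (c.coeff n)) (hsep : P.Separable) (hw : w.natDegree < P.natDegree)
    (e : w ^ 2 - c = P * h) :
    (∀ n, IsAlgebraic E (w.coeff n)) ∧ ∀ n, IsAlgebraic E (h.coeff n) := by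
  classical
  have hP0 : P ≠ 0 := hsep.ne_zero
  set T := P.roots.toFinset with hT
  have hTc : T.card = P.natDegree := by
    rw [hT, Multiset.toFinset_card_of_nodup (Polynomial.nodup_roots hsep)]
    exact Polynomial.splits_iff_card_roots.1 (IsAlgClosed.splits P)
  have hTr : ∀ θ ∈ T, P.eval θ = 0 := fun θ hθ =>
    (Polynomial.mem_roots'.1 (Multiset.mem_toFinset.1 hθ)).2
  have hTa : ∀ θ ∈ T, IsAlgebraic E θ := fun θ hθ => isAlg_root hP0 hP (hTr θ hθ)
  have hwd : w.degree < T.card := by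
    rw [hTc]
    exact (Polynomial.degree_lt_degree (p := w) (q := P) hw).trans_le
      Polynomial.degree_le_natDegree
  have hval : ∀ θ ∈ T, IsAlgebraic E (w.eval θ) := by
    intro θ hθ
    have h1 := congrArg (Polynomial.eval θ) e
    rw [Polynomial.eval_sub, Polynomial.eval_pow, Polynomial.eval_mul, hTr θ hθ, zero_mul,
      sub_eq_zero] at h1
    have h3 : IsAlgebraic E ((w.eval θ) ^ 2) := by
      rw [h1]
      exact isAlg_eval hc (hTa θ hθ)
    exact h3.of_pow (by norm_num)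
  have hwa := isAlg_interp hTa hval hwd
  refine ⟨hwa, ?_⟩
  by_cases hf : w ^ 2 - c = 0
  · rw [hf] at e
    have h1 : h = 0 := by
      rcases mul_eq_zero.1 e.symm with h | h
      · exact absurd h hP0
      · exact h
    intro n
    rw [h1, Polynomial.coeff_zero]
    exact isAlgebraic_zero
  · have hfa : ∀ n, IsAlgebraic E ((w ^ 2 - c).coeff n) := by
      intro n
      rw [Polynomial.coeff_sub, pow_two, Polynomial.coeff_mul]
      refine IsAlgebraic.sub ?_ (hc n)
      refine Finset.sum_induction _ (IsAlgebraic E) (fun _ _ => IsAlgebraic.add)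
        isAlgebraic_zero ?_
      intro x _
      exact (hwa _).mul (hwa _)
    have hl0 : P.leadingCoeff ≠ 0 := Polynomial.leadingCoeff_ne_zero.2 hP0
    have hmon : (Polynomial.C P.leadingCoeff⁻¹ * P).Monic := by
      rw [Polynomial.Monic, Polynomial.leadingCoeff_mul, Polynomial.leadingCoeff_C,
        inv_mul_cancel₀ hl0]
    have h3 := (isAlg_factor (E := E) hf hfa hmon (h := Polynomial.C P.leadingCoeff * h) (by
      rw [e]
      have : (Polynomial.C P.leadingCoeff⁻¹ : Polynomial Ω) * Polynomial.C P.leadingCoeff = 1 := by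
        rw [← Polynomial.C_mul, inv_mul_cancel₀ hl0, Polynomial.C_1]
      linear_combination (P * h) * this)).2
    intro n
    have h4 : h.coeff n = P.leadingCoeff⁻¹ * (Polynomial.C P.leadingCoeff * h).coeff n := by
      rw [Polynomial.coeff_C_mul, ← mul_assoc, inv_mul_cancel₀ hl0, one_mul]
    rw [h4]
    exact (hP P.natDegree).inv.mul (h3 n)

/-- **Squares.** -/
theorem dens2 (E a b c : O[X]) (q m : ℕ) (hq : 0 < q) {F : Type} [Field F]
    (Θ : MvPolynomial ((Σ l : Fin u, Fin (n l + 1)) × J) O →+* F) (hΘ : Function.Injective Θ)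
    (hd : (QB n l0 ω E a b).natDegree = q)
    (A B : Polynomial (MvPolynomial ((Σ l : Fin u, Fin (n l + 1)) × J) O))
    (Δ : MvPolynomial ((Σ l : Fin u, Fin (n l + 1)) × J) O) (hΔ : Δ ≠ 0)
    (hPs : A * QB n l0 ω E a b + B * Polynomial.derivative (QB n l0 ω E a b) = Polynomial.C Δ)
    (hno : ∀ (w : Fin q → F) (h : Fin m → F),
      pl w ^ 2 - c.map (Θ.comp C) ≠ (QB n l0 ω E a b).map Θ * pl h) :
    D0 {x : (Σ l : Fin u, Fin (n l + 1)) × J → ℤ | ∃ (K : Type) (_ : Field K) (_ : NumberField K)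
      (σ : O →+* K) (w : Fin q → K) (h : Fin m → K), Module.finrank ℚ K ≤ Fintype.card J ∧
      pl w ^ 2 - c.map σ =
        QV n l0 E a b σ (cv (fun j => σ (ω j)) fun q => (x q : K)) * pl h} := by
  classical
  have h0 : QB n l0 ω E a b ≠ 0 := by
    intro h
    rw [h, Polynomial.natDegree_zero] at hd
    omega
  have key := sysE (τ := Fin q ⊕ Fin m) ω (S2 n l0 ω q m E a b c) (by
    intro Ω _ _ _ σ y hσ hy
    have h1 := (eval_S2 n l0 ω _ y σ hσ E a b c).1 hy
    set Φ : MvPolynomial ((Σ l : Fin u, Fin (n l + 1)) × J) O →+* Ω :=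
      eval₂Hom σ (fun q => gn ((Σ l : Fin u, Fin (n l + 1)) × J) Ω (X q)) with hΦ
    have hΦi : Function.Injective Φ := phi_inj ω σ
    have h2 : QV n l0 E a b σ (cv (fun j => σ (ω j)) fun q =>
        gn ((Σ l : Fin u, Fin (n l + 1)) × J) Ω (X q)) = (QB n l0 ω E a b).map Φ := by
      rw [QB_map]
      have e1 : Φ.comp C = σ := by
        ext o
        simp [hΦ]
      have e2 : ∀ o, Φ (C o) = σ o := by
        intro o
        simp [hΦ]
      have e3 : ∀ q, Φ (X q) = gn ((Σ l : Fin u, Fin (n l + 1)) × J) Ω (X q) := by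
        intro q
        simp [hΦ]
      simp only [e1, e2, e3]
    rw [h2] at h1
    have hsep : ((QB n l0 ω E a b).map Φ).Separable := by
      have hΔΩ : Φ Δ ≠ 0 := by
        rwa [Ne, map_eq_zero_iff Φ hΦi]
      have h2 := congrArg (fun f => Polynomial.C ((Φ Δ)⁻¹) * Polynomial.map Φ f) hPs
      simp only [Polynomial.map_add, Polynomial.map_mul, Polynomial.map_C] at h2
      rw [← Polynomial.C_mul, inv_mul_cancel₀ hΔΩ, Polynomial.C_1,
        ← Polynomial.derivative_map] at h2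
      refine ⟨Polynomial.C ((Φ Δ)⁻¹) * A.map Φ, Polynomial.C ((Φ Δ)⁻¹) * B.map Φ, ?_⟩
      rw [← h2]
      ring
    have hdΩ : ((QB n l0 ω E a b).map Φ).natDegree = q := by
      rw [Polynomial.natDegree_map_eq_of_injective hΦi, hd]
    obtain ⟨hga, hha⟩ := isAlg_sq (E := EE ((Σ l : Fin u, Fin (n l + 1)) × J))
      (fun n => by
        rw [Polynomial.coeff_map]
        exact omega_alg ω σ _)
      (fun n => by
        rw [Polynomial.coeff_map]
        exact ord_alg ω σ _) hsep (by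
        rw [hdΩ]
        have h2 := pl_deg fun j : Fin q => y (Sum.inr (Sum.inl j))
        by_cases h0 : (pl fun j : Fin q => y (Sum.inr (Sum.inl j))) = 0
        · rw [h0, Polynomial.natDegree_zero]
          exact hq
        · exact (Polynomial.natDegree_lt_iff_degree_lt h0).2 h2) h1
    intro t
    rcases t with j | j
    · have h5 := hga j
      rw [pl_coeff, dif_pos j.2] at h5
      exact h5
    · have h5 := hha j
      rw [pl_coeff, dif_pos j.2] at h5
      exact h5) Θ hΘ (by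
    intro y hy hS
    have h1 := (eval_S2 n l0 ω _ y (Θ.comp C) hy E a b c).1 hS
    apply hno (fun j => y (Sum.inr (Sum.inl j))) (fun j => y (Sum.inr (Sum.inr j)))
    rw [h1, QB_map]
    congr 2
    funext i
    simp [cv, mo])
  intro ε hε
  refine (key ε hε).mono ?_
  rintro x ⟨K, _, _, σ, w, h, hK, e⟩
  refine ⟨K, inferInstance, inferInstance, σ, Sum.elim (fun j => σ (ω j)) (Sum.elim w h), hK,
    fun j => rfl, ?_⟩
  refine (eval_S2 n l0 ω _ _ σ (fun j => rfl) E a b c).2 ?_
  have hx : ∀ q : (Σ l : Fin u, Fin (n l + 1)) × J,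
      ((Int.castRingHom K).comp (eval x)) (X q) = (x q : K) := by
    intro q
    simp
  simp only [hx, Sum.elim_inl, Sum.elim_inr]
  exact e

end dens

end Pool.Agent.Helper55.PR
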